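import Pool.Agent.H901.Q.Stm

/-!
# Part ANIS of project Q (helper181): generic frames keep the Pfister form anisotropic

The transcendence degrees are bounded with Kähler differentials: in characteristic `0` the dimension of
`Ω[L⁄K]` is the transcendence degree (`anis_finrank_kaehler`), and the `k + 1` products of a new vector with
the old ones and with itself give `k + 1` independent relations between the differentials of its
coordinates (`anis_U1`).
-/

set_option autoImplicit false
set_option linter.all false
set_option linter.style.haveILetI false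

namespace Pool.Agent.H901.Q

open Finset Polynomial Pool.Agent.H901

open scoped TensorProduct KaehlerDifferential in
theorem anis_finrank_kaehler {K L : Type} [Field K] [CharZero K] [Field L] [Algebra K L] {t : ℕ}
    {x : Fin t → L} (hx : IsTranscendenceBasis K x) :
    Module.finrank L (Ω[L⁄K]) = t ∧ Module.Finite L (Ω[L⁄K]) := by
  let P := MvPolynomial (Fin t) K
  let φ : P →ₐ[K] L := MvPolynomial.aeval x
  let : Algebra P L := φ.toRingHom.toAlgebra
  have : IsScalarTower K P L := IsScalarTower.of_algebraMap_eq' (φ.comp_algebraMap).symm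
  have : FaithfulSMul P L := (faithfulSMul_iff_algebraMap_injective P L).2 hx.1
  let : Algebra (FractionRing P) L := FractionRing.liftAlgebra P L
  have : IsScalarTower P (FractionRing P) L := FractionRing.isScalarTower_liftAlgebra P L
  have hA := hx.isAlgebraic
  have : Algebra.IsAlgebraic P L := by
    refine Algebra.IsAlgebraic.of_ringHom_of_comp_eq
      (f := (hx.1.aevalEquiv : P ≃ₐ[K] Algebra.adjoin K (Set.range x))) (g := RingHom.id L)
      (AlgEquiv.surjective _) Function.injective_id ?_
    ext p
    · rfl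
    · rfl
  have : Algebra.IsAlgebraic (FractionRing P) L :=
    Algebra.IsAlgebraic.extendScalars (R := P) (FaithfulSMul.algebraMap_injective P (FractionRing P))
  have : CharZero P := charZero_of_injective_algebraMap (MvPolynomial.C_injective (Fin t) K)
  have : CharZero (FractionRing P) :=
    charZero_of_injective_algebraMap (IsFractionRing.injective P (FractionRing P))
  have : Algebra.IsSeparable (FractionRing P) L := inferInstance
  have : Algebra.FormallyEtale (FractionRing P) L := Algebra.FormallyEtale.of_isSeparable _ _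
  have : Algebra.FormallyEtale P (FractionRing P) :=
    Algebra.FormallyEtale.of_isLocalization (nonZeroDivisors P)
  have : Algebra.FormallyEtale P L := Algebra.FormallyEtale.comp P (FractionRing P) L
  have e := KaehlerDifferential.tensorKaehlerEquivOfFormallyEtale K P L
  have b := KaehlerDifferential.mvPolynomialBasis K (Fin t)
  have : Module.Free P (Ω[P⁄K]) := Module.Free.of_basis b
  have : Module.Finite P (Ω[P⁄K]) := Module.Finite.of_basis b
  refine ⟨?_, Module.Finite.equiv e⟩
  rw [← e.finrank_eq, Module.finrank_baseChange, Module.finrank_eq_card_basis b]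
  simp

open scoped KaehlerDifferential in
theorem anis_span {K L : Type} [Field K] [Field L] [Algebra K L] {s : Set L}
    (hs : IntermediateField.adjoin K s = ⊤) :
    Submodule.span L ((KaehlerDifferential.D K L) '' s) = ⊤ := by
  rw [eq_top_iff, ← KaehlerDifferential.span_range_derivation K L, Submodule.span_le]
  rintro _ ⟨x, rfl⟩
  have hx : x ∈ IntermediateField.adjoin K s := by rw [hs]; trivial
  induction hx using IntermediateField.adjoin_induction with
  | mem x hx => exact Submodule.subset_span ⟨x, hx, rfl⟩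
  | algebraMap x => simp
  | add x y _ _ hx hy => rw [map_add]; exact add_mem hx hy
  | inv x _ hx =>
    rw [Derivation.leibniz_inv]
    exact Submodule.smul_mem _ _ hx
  | mul x y _ _ hx hy =>
    rw [Derivation.leibniz]
    exact add_mem (Submodule.smul_mem _ _ hy) (Submodule.smul_mem _ _ hx)

/-- a field generated by `n` elements has transcendence degree at most `n` -/
theorem anis_trdeg_le {K L : Type} [Field K] [Field L] [Algebra K L] (n : ℕ) (f : ℕ → L)
    (S : Set ℕ) (hS : S.Finite) (hn : S.ncard ≤ n) (hs : IntermediateField.adjoin K (f '' S) = ⊤) :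
    ∃ t : ℕ, Algebra.trdeg K L = t ∧ t ≤ n ∧ ∃ x : Fin t → L, IsTranscendenceBasis K x := by
  have h1 : Algebra.IsAlgebraic (IntermediateField.adjoin K (f '' S)) L := by
    rw [hs]
    infer_instance
  have h2 : Algebra.IsAlgebraic (Algebra.adjoin K (f '' S)) L :=
    IntermediateField.isAlgebraic_adjoin_iff_top.1 h1
  obtain ⟨T, hT, hT'⟩ := exists_isTranscendenceBasis_subset (R := K) (f '' S)
  have hfin : (f '' S).Finite := hS.image f
  have hTfin : T.Finite := hfin.subset hT
  have : Finite T := hTfin
  obtain ⟨t, ⟨e⟩⟩ := Finite.exists_equiv_fin T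
  have hc : Nat.card T = t := by rw [Nat.card_congr e, Nat.card_eq_fintype_card, Fintype.card_fin]
  have hle : t ≤ n := by
    rw [← hc, Nat.card_coe_set_eq]
    exact (Set.ncard_le_ncard hT hfin).trans ((Set.ncard_image_le hS).trans hn)
  refine ⟨t, ?_, hle, fun i => (e.symm i : L), ?_⟩
  · rw [← hT'.cardinalMk_eq_trdeg, ← hc]
    exact (Nat.cast_card).symm
  · exact hT'.comp_equiv e.symm

theorem anis_pb_map {R S : Type*} [CommRing R] [CommRing S] (φ : R →+* S) (a : ℕ → R) (i : ℕ)
    (z w : ℕ → R) :
    pb (fun j => φ (a j)) i (fun m => φ (z m)) (fun m => φ (w m)) = φ (pb a i z w) := by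
  unfold pb
  rw [map_sum]
  refine sum_congr rfl fun m _ => ?_
  rw [pc_map, map_mul, map_mul]

theorem anis_gq_map {R S : Type*} [CommRing R] [CommRing S] (φ : R →+* S) (g : ℕ → ℕ → R) (m : ℕ)
    (z : ℕ → R) : gq (fun i j => φ (g i j)) m (fun i => φ (z i)) = φ (gq g m z) := by
  unfold gq
  simp only [map_sum, map_mul]

theorem anis_GA_of_map {R S : Type*} [CommRing R] [CommRing S] (φ : R →+* S)
    (hφ : Function.Injective φ) {g : ℕ → ℕ → R} {m : ℕ} (h : GA (fun i j => φ (g i j)) m) :
    GA g m := by
  intro z hz i hi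
  have h1 := h (fun i => φ (z i)) (by rw [anis_gq_map, hz, map_zero]) i hi
  exact (map_eq_zero_iff φ hφ).1 h1

theorem anis_GA_mono {R : Type*} [CommRing R] {g : ℕ → ℕ → R} {m m' : ℕ} (hm : m ≤ m')
    (h : GA g m') : GA g m := by
  intro z hz i hi
  have key : gq g m' (fun i => if i < m then z i else 0) = gq g m z := by
    unfold gq
    obtain ⟨d, rfl⟩ := Nat.exists_eq_add_of_le hm
    have e1 : ∀ i, ∑ j ∈ range (m + d), g i j * ((if i < m then z i else 0) *
        (if j < m then z j else 0)) = if i < m then ∑ j ∈ range m, g i j * (z i * z j) else 0 := by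
      intro i
      split_ifs with hi
      · rw [sum_range_add]
        have e2 : ∑ x ∈ range d, g i (m + x) * (z i * if m + x < m then z (m + x) else 0) = 0 := by
          refine sum_eq_zero fun x _ => ?_
          rw [if_neg (by omega), mul_zero, mul_zero]
        rw [e2, add_zero]
        refine sum_congr rfl fun j hj => ?_
        rw [if_pos (mem_range.1 hj)]
      · simp
    rw [sum_congr rfl fun i _ => e1 i, sum_range_add]
    have e3 : ∑ x ∈ range d, (if m + x < m then ∑ j ∈ range m, g (m + x) j * (z (m + x) * z j)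
        else 0) = 0 := by
      refine sum_eq_zero fun x _ => ?_
      rw [if_neg (by omega)]
    rw [e3, add_zero]
    refine sum_congr rfl fun i hi => ?_
    rw [if_pos (mem_range.1 hi)]
  have h1 := h (fun i => if i < m then z i else 0) (key.trans hz) i (by omega)
  simpa [hi] using h1

open scoped KaehlerDifferential in
/-- the transcendence degree of the field generated by one more vector -/
theorem anis_U1 {K L : Type} [Field K] [CharZero K] [Field L] [Algebra K L] (A : ℕ → K) (N k : ℕ)
    (V : ℕ → ℕ → L) (g : ℕ → ℕ → K)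
    (hV : ∀ i < k, ∀ l < 2 ^ N, V i l ∈ (algebraMap K L).range)
    (hG : ∀ i < k + 1, ∀ j < k + 1, pb (fun j => algebraMap K L (A j)) N (V i) (V j) =
      algebraMap K L (g i j))
    (hGA : GA (fun i j => algebraMap K L (g i j)) (k + 1))
    (htop : IntermediateField.adjoin K ((V k) '' Set.Iio (2 ^ N)) = ⊤) :
    ∃ t : ℕ, Algebra.trdeg K L = t ∧ t + (k + 1) ≤ 2 ^ N := by
  have : CharZero L := charZero_of_injective_algebraMap (algebraMap K L).injective
  obtain ⟨t, ht, -, x, hx⟩ := anis_trdeg_le (2 ^ N) (V k) (Set.Iio (2 ^ N)) (Set.finite_Iio _)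
    (by rw [Set.ncard_eq_toFinset_card']; simp) htop
  obtain ⟨hfr, hfin⟩ := anis_finrank_kaehler hx
  refine ⟨t, ht, ?_⟩
  set D := KaehlerDifferential.D K L with hD
  let P : ℕ → L := fun l => algebraMap K L (pc A N l)
  have hP : ∀ l, pc (fun j => algebraMap K L (A j)) N l = P l := fun l => pc_map _ A N l
  let Φ : (Fin (2 ^ N) → L) →ₗ[L] Ω[L⁄K] := Fintype.linearCombination L (fun l => D (V k l))
  have hΦ : ∀ z, Φ z = ∑ l : Fin (2 ^ N), z l • D (V k l) := fun z => rfl
  -- surjective
  have hsurj : LinearMap.range Φ = ⊤ := by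
    rw [eq_top_iff, ← anis_span htop, Submodule.span_le]
    rintro _ ⟨_, ⟨l, hl, rfl⟩, rfl⟩
    refine ⟨Pi.single ⟨l, hl⟩ 1, ?_⟩
    rw [hΦ, Finset.sum_eq_single ⟨l, hl⟩]
    · simp [hD]
    · intro b _ hb
      simp [hb]
    · intro h
      exact absurd (mem_univ _) h
  -- the relations
  let c : Fin (k + 1) → (Fin (2 ^ N) → L) := fun i l => P l * V i l
  have hker : ∀ i, c i ∈ LinearMap.ker Φ := by
    intro i
    rw [LinearMap.mem_ker, hΦ]
    have h1 := congrArg D (hG i i.2 k (by omega))
    rw [Derivation.map_algebraMap] at h1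
    unfold pb at h1
    rw [map_sum, Finset.sum_range] at h1
    have h2 : ∀ l : Fin (2 ^ N), D (pc (fun j => algebraMap K L (A j)) N l * (V i l * V k l)) =
        P l • (V i l • D (V k l) + V k l • D (V i l)) := by
      intro l
      rw [hP, Derivation.leibniz, Derivation.leibniz]
      have : D (P l) = 0 := Derivation.map_algebraMap _ _
      rw [this, smul_zero, add_zero]
    rw [Finset.sum_congr rfl fun l _ => h2 l] at h1
    by_cases hi : (i : ℕ) < k
    · rw [← h1]
      refine Finset.sum_congr rfl fun l _ => ?_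
      obtain ⟨y, hy⟩ := hV i hi l l.2
      have : D (V i l) = 0 := by rw [← hy]; exact Derivation.map_algebraMap _ _
      rw [this, smul_zero, add_zero, smul_smul]
    · have hik : (i : ℕ) = k := by omega
      have h3 : (2 : L) • ∑ l : Fin (2 ^ N), c i l • D (V k l) = 0 := by
        rw [← h1, Finset.smul_sum]
        refine Finset.sum_congr rfl fun l _ => ?_
        show (2 : L) • ((P l * V i l) • D (V k l)) = _
        rw [hik, ← two_smul L (V k l • D (V k l)), smul_smul, smul_smul, smul_smul]
        congr 1
        ring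
      exact (smul_eq_zero.1 h3).resolve_left two_ne_zero
  -- linearly independent
  have hlin : LinearIndependent L c := by
    rw [Fintype.linearIndependent_iff]
    intro z hz i
    let z' : ℕ → L := fun i => if h : i < k + 1 then z ⟨i, h⟩ else 0
    have hz' : ∀ i : Fin (k + 1), z' i = z i := fun i => by
      show (if h : (i : ℕ) < k + 1 then z ⟨i, h⟩ else 0) = z i
      rw [dif_pos i.2]
    have h0 : ∀ l < 2 ^ N, ∑ i ∈ range (k + 1), P l * V i l * z' i = 0 := by
      intro l hl
      have h1 := congrFun hz ⟨l, hl⟩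
      rw [Finset.sum_apply, Pi.zero_apply] at h1
      rw [Finset.sum_range, ← h1]
      refine Finset.sum_congr rfl fun i _ => ?_
      rw [hz', Pi.smul_apply, smul_eq_mul, mul_comm]
    have h2 : gq (fun i j => algebraMap K L (g i j)) (k + 1) z' = 0 := by
      unfold gq
      rw [Finset.sum_comm]
      refine sum_eq_zero fun j hj => ?_
      have h3 : ∀ i ∈ range (k + 1), algebraMap K L (g i j) * (z' i * z' j) =
          ∑ l ∈ range (2 ^ N), (P l * V i l * z' i) * (V j l * z' j) := by
        intro i hi
        rw [← hG i (mem_range.1 hi) j (mem_range.1 hj)]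
        unfold pb
        rw [sum_mul]
        refine sum_congr rfl fun l _ => ?_
        rw [hP]
        ring
      rw [sum_congr rfl h3, Finset.sum_comm]
      refine sum_eq_zero fun l hl => ?_
      rw [← sum_mul, h0 l (mem_range.1 hl), zero_mul]
    rw [← hz']
    exact hGA z' h2 i i.2
  have h1 := LinearMap.finrank_range_add_finrank_ker Φ
  rw [hsurj, finrank_top, hfr, Module.finrank_fin_fun] at h1
  have h2 : k + 1 ≤ Module.finrank L (LinearMap.ker Φ) := by
    have h3 : LinearIndependent L (fun i => (⟨c i, hker i⟩ : LinearMap.ker Φ)) := by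
      refine LinearIndependent.of_comp (LinearMap.ker Φ).subtype ?_
      exact hlin
    have h4 := h3.fintype_card_le_finrank
    rwa [Fintype.card_fin] at h4
  omega


theorem anis_surj {K E : Type} [Field K] [Field E] [Algebra K E] {S : Set E}
    (hS : ∀ x ∈ S, x ∈ (algebraMap K E).range) (h : IntermediateField.adjoin K S = ⊤) :
    Function.Surjective (algebraMap K E) := by
  have h1 : IntermediateField.adjoin K S ≤ ⊥ := by
    rw [IntermediateField.adjoin_le_iff]
    intro x hx
    exact IntermediateField.mem_bot.2 (hS x hx)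
  intro x
  have h2 : x ∈ IntermediateField.adjoin K S := by rw [h]; trivial
  exact IntermediateField.mem_bot.1 (h1 h2)

theorem anis_trdeg_zero {K E : Type} [Field K] [Field E] [Algebra K E]
    (h : Function.Surjective (algebraMap K E)) : Algebra.trdeg K E = 0 := by
  have : Algebra.IsAlgebraic K E := ⟨fun x => by
    obtain ⟨y, rfl⟩ := h x
    exact isAlgebraic_algebraMap y⟩
  exact trdeg_eq_zero

/-- the field generated by one more vector -/
theorem anis_U1' {K E : Type} [Field K] [CharZero K] [Field E] [Algebra K E] (A : ℕ → K) (N k : ℕ)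
    (V : ℕ → ℕ → E) (g : ℕ → ℕ → K)
    (hV : ∀ i < k, ∀ l < 2 ^ N, V i l ∈ (algebraMap K E).range)
    (hG : ∀ i < k + 1, ∀ j < k + 1, pb (fun j => algebraMap K E (A j)) N (V i) (V j) =
      algebraMap K E (g i j))
    (hGA : GA (fun i j => algebraMap K E (g i j)) (k + 1))
    (K' : IntermediateField K E)
    (hK' : K' = IntermediateField.adjoin K ((V k) '' Set.Iio (2 ^ N))) :
    ∃ (V' : ℕ → ℕ → K'), (∀ i < k + 1, ∀ l < 2 ^ N, (V' i l : E) = V i l) ∧
      (∀ i < k, ∀ l < 2 ^ N, V' i l ∈ (algebraMap K K').range) ∧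
      (∀ i < k + 1, ∀ j < k + 1, pb (fun j => algebraMap K K' (A j)) N (V' i) (V' j) =
        algebraMap K K' (g i j)) ∧
      IntermediateField.adjoin K ((V' k) '' Set.Iio (2 ^ N)) = ⊤ ∧
      ∃ t : ℕ, Algebra.trdeg K K' = t ∧ t + (k + 1) ≤ 2 ^ N := by
  have hmem : ∀ i < k + 1, ∀ l < 2 ^ N, V i l ∈ K' := by
    intro i hi l hl
    by_cases hik : i < k
    · obtain ⟨y, hy⟩ := hV i hik l hl
      rw [← hy]
      exact K'.algebraMap_mem y
    · have : i = k := by omega
      rw [this, hK']
      exact IntermediateField.subset_adjoin _ _ ⟨l, hl, rfl⟩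
  have hV' : ∃ V' : ℕ → ℕ → K', ∀ i < k + 1, ∀ l < 2 ^ N, (V' i l : E) = V i l := by
    classical
    refine ⟨fun i l => if h : V i l ∈ K' then ⟨V i l, h⟩ else 0, fun i hi l hl => ?_⟩
    show ((if h : V i l ∈ K' then (⟨V i l, h⟩ : K') else 0 : K') : E) = V i l
    rw [dif_pos (hmem i hi l hl)]
  obtain ⟨V', hV'⟩ := hV'
  have hinj : Function.Injective (algebraMap K' E) := (algebraMap K' E).injective
  have h1 : ∀ i < k, ∀ l < 2 ^ N, V' i l ∈ (algebraMap K K').range := by
    intro i hi l hl
    obtain ⟨y, hy⟩ := hV i hi l hl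
    refine ⟨y, hinj ?_⟩
    rw [← IsScalarTower.algebraMap_apply K K' E, hy]
    exact (hV' i (by omega) l hl).symm
  have h2 : ∀ i < k + 1, ∀ j < k + 1, pb (fun j => algebraMap K K' (A j)) N (V' i) (V' j) =
      algebraMap K K' (g i j) := by
    intro i hi j hj
    apply hinj
    rw [← IsScalarTower.algebraMap_apply K K' E, ← hG i hi j hj, ← anis_pb_map]
    exact pb_congr _ N (fun l hl => hV' i hi l hl) (fun l hl => hV' j hj l hl)
  have h3 : IntermediateField.adjoin K ((V' k) '' Set.Iio (2 ^ N)) = ⊤ := by
    apply IntermediateField.lift_injective K'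
    rw [IntermediateField.lift_adjoin, IntermediateField.lift_top]
    have h4 : Subtype.val '' ((V' k) '' Set.Iio (2 ^ N)) = (V k) '' Set.Iio (2 ^ N) := by
      rw [Set.image_image]
      exact Set.image_congr fun l hl => hV' k (by omega) l hl
    rw [h4]
    exact hK'.symm
  refine ⟨V', hV', h1, h2, h3, anis_U1 A N k V' g h1 h2 ?_ h3⟩
  exact anis_GA_of_map (algebraMap K' E) hinj hGA

theorem anis_tower {K E : Type} [Field K] [Field E] [Algebra K E] (K' : IntermediateField K E)
    {t1 t2 : ℕ} (h1 : Algebra.trdeg K K' = t1) (h2 : Algebra.trdeg K' E = t2) :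
    Algebra.trdeg K E = ((t1 + t2 : ℕ) : Cardinal) := by
  rw [← trdeg_add_eq K K' (A := E), h1, h2, Nat.cast_add]

theorem anis_UB : ∀ (r : ℕ) (K E : Type) [Field K] [CharZero K] [Field E] [Algebra K E]
    (A : ℕ → K) (N k : ℕ) (V : ℕ → ℕ → E) (g : ℕ → ℕ → K),
    (∀ i < k, ∀ l < 2 ^ N, V i l ∈ (algebraMap K E).range) →
    (∀ i < k + r, ∀ j < k + r, pb (fun j => algebraMap K E (A j)) N (V i) (V j) =
      algebraMap K E (g i j)) →
    GA (fun i j => algebraMap K E (g i j)) (k + r) →
    IntermediateField.adjoin K {x | ∃ i < k + r, ∃ l < 2 ^ N, x = V i l} = ⊤ →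
    ∃ t : ℕ, Algebra.trdeg K E = t ∧ t ≤ ∑ i ∈ range r, (2 ^ N - (k + i) - 1) := by
  intro r
  induction r with
  | zero =>
    intro K E _ _ _ _ A N k V g hV hG hGA htop
    refine ⟨0, ?_, by simp⟩
    rw [Nat.cast_zero]
    refine anis_trdeg_zero (anis_surj ?_ htop)
    rintro _ ⟨i, hi, l, hl, rfl⟩
    exact hV i (by omega) l hl
  | succ r ih =>
    intro K E _ _ _ _ A N k V g hV hG hGA htop
    obtain ⟨K', hK'⟩ : ∃ K', K' = IntermediateField.adjoin K ((V k) '' Set.Iio (2 ^ N)) := ⟨_, rfl⟩
    obtain ⟨V', hV', -, -, -, t1, ht1, ht1'⟩ := anis_U1' A N k V g hV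
      (fun i hi j hj => hG i (by omega) j (by omega)) (anis_GA_mono (by omega) hGA) K' hK'
    have : CharZero K' := charZero_of_injective_algebraMap (algebraMap K K').injective
    obtain ⟨t2, ht2, ht2'⟩ := ih K' E (fun j => algebraMap K K' (A j)) N (k + 1) V
      (fun i j => algebraMap K K' (g i j))
      (fun i hi l hl => ⟨V' i l, hV' i hi l hl⟩)
      (fun i hi j hj => hG i (by omega) j (by omega))
      (by
        have := hGA
        rw [show k + (r + 1) = k + 1 + r by ring] at this
        exact this)
      (by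
        rw [show k + (r + 1) = k + 1 + r by ring] at htop
        exact IntermediateField.adjoin_eq_top_of_adjoin_eq_top K htop)
    refine ⟨t1 + t2, anis_tower K' ht1 ht2, ?_⟩
    rw [sum_range_succ']
    have h3 : ∑ i ∈ range r, (2 ^ N - (k + 1 + i) - 1) = ∑ i ∈ range r, (2 ^ N - (k + (i + 1)) - 1) := by
      refine sum_congr rfl fun i _ => ?_
      congr 2
      ring
    rw [← h3, add_zero]
    omega


theorem anis_pc_congr {R : Type*} [CommRing R] (b c : ℕ → R) (i : ℕ) (h : ∀ j < i, b j = c j)
    (m : ℕ) : pc b i m = pc c i m := by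
  induction i generalizing m with
  | zero => rfl
  | succ i' ih =>
    rw [pc, pc, ih (fun j hj => h j (by omega)), ih (fun j hj => h j (by omega)), h i' (by omega)]

theorem anis_An_congr {R : Type*} [CommRing R] {b c : ℕ → R} {i : ℕ} (h : ∀ j < i, b j = c j)
    (hb : An b i) : An c i := by
  intro z hz m hm
  refine hb z ?_ m hm
  rw [← hz]
  unfold pq
  exact sum_congr rfl fun m _ => by rw [anis_pc_congr b c i h]

/-- adjoining a variable as the last entry (`Pool.Agent.H901.an_t`) -/
theorem anis_an_t {F : Type*} [Field F] {a : ℕ → F} {i : ℕ} (han : An a i) :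
    An (fun j => if j < i then (RatFunc.C (a j) : RatFunc F) else RatFunc.X) (i + 1) := by
  intro z hz m0 hm0
  by_contra hz0
  rw [pq_succ] at hz
  set φ := algebraMap F[X] (RatFunc F) with hφ
  have hφi : Function.Injective φ := RatFunc.algebraMap_injective F
  obtain ⟨e, w, he, hw⟩ := exists_denom (n := 2 ^ (i + 1)) z
  have hφe : φ e ≠ 0 := by
    rw [Ne, map_eq_zero_iff φ hφi]
    exact he
  have hpow : 2 ^ (i + 1) = 2 ^ i + 2 ^ i := by ring
  have key : ∀ z' : ℕ → RatFunc F, ∀ w' : ℕ → F[X], (∀ m < 2 ^ i, φ e * z' m = φ (w' m)) →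
      φ e ^ 2 * pq (fun j => if j < i then (RatFunc.C (a j) : RatFunc F) else RatFunc.X) i z' =
      φ (pq (fun j => C (a j)) i w') := by
    intro z' w' h
    rw [← pq_map φ (fun j => C (a j)), ← pq_smul]
    unfold pq
    refine sum_congr rfl fun m hm => ?_
    rw [Pi.smul_apply, smul_eq_mul, h m (mem_range.1 hm)]
    congr 1
    apply anis_pc_congr
    intro j hj
    rw [if_pos hj]
    exact (RatFunc.algebraMap_C _).symm
  have k1 := key z w (fun m hm => hw m (by omega))
  have k2 := key (sh i z) (sh i w) (fun m hm => hw (m + 2 ^ i) (by omega))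
  have h1 : pq (fun j => C (a j)) i w = X * pq (fun j => C (a j)) i (sh i w) := by
    apply hφi
    rw [map_mul, ← k1, ← k2, hφ, RatFunc.algebraMap_X]
    rw [if_neg (lt_irrefl i)] at hz
    linear_combination (algebraMap F[X] (RatFunc F) e) ^ 2 * hz
  have hwz : ∀ m < 2 ^ (i + 1), w m = 0 → z m = 0 := by
    intro m hm h
    have := hw m hm
    rw [h, map_zero] at this
    rcases mul_eq_zero.1 this with h2 | h2
    · exact absurd h2 hφe
    · exact h2
  by_cases c1 : ∃ m < 2 ^ i, w m ≠ 0
  · obtain ⟨n, -, -, -, hd, hne, -⟩ := lead_pq han w c1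
    have c2 : ∃ m < 2 ^ i, sh i w m ≠ 0 := by
      by_contra hcon
      push Not at hcon
      apply hne
      rw [h1]
      have : pq (fun j => C (a j)) i (sh i w) = 0 := by
        unfold pq
        refine sum_eq_zero fun m hm => ?_
        rw [hcon m (mem_range.1 hm)]
        ring
      rw [this, mul_zero]
    obtain ⟨n', -, -, -, hd', hne', -⟩ := lead_pq han (sh i w) c2
    rw [h1, natDegree_mul X_ne_zero hne', natDegree_X, hd'] at hd
    omega
  · push Not at c1
    by_cases c2 : ∃ m < 2 ^ i, sh i w m ≠ 0
    · obtain ⟨n', -, -, -, hd', hne', -⟩ := lead_pq han (sh i w) c2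
      have : pq (fun j => C (a j)) i w = 0 := by
        unfold pq
        refine sum_eq_zero fun m hm => ?_
        rw [c1 m (mem_range.1 hm)]
        ring
      rw [this] at h1
      exact mul_ne_zero X_ne_zero hne' h1.symm
    · push Not at c2
      apply hz0
      apply hwz m0 hm0
      by_cases hm : m0 < 2 ^ i
      · exact c1 m0 hm
      · have := c2 (m0 - 2 ^ i) (by omega)
        unfold sh at this
        rwa [Nat.sub_add_cancel (by omega)] at this


theorem anis_map_surj {K E : Type*} [Field K] [Field E] (φ : K →+* E)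
    (hs : Function.Surjective φ) {A : ℕ → K} {i : ℕ} (h : An A i) : An (fun j => φ (A j)) i := by
  intro z hz m hm
  choose z' hz' using fun m => hs (z m)
  have h1 : z = fun m => φ (z' m) := funext fun m => (hz' m).symm
  rw [h1, pq_map] at hz
  have h2 := h z' ((map_eq_zero φ).1 hz) m hm
  rw [← hz', h2, map_zero]

theorem anis_main (h : S_TOW) : ∀ (r : ℕ) (K E : Type) [Field K] [CharZero K] [Field E]
    [Algebra K E] (A : ℕ → K) (N k : ℕ) (V : ℕ → ℕ → E) (g : ℕ → ℕ → K),
    (∀ i < k, ∀ l < 2 ^ N, V i l ∈ (algebraMap K E).range) →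
    (∀ i < k + r, ∀ j < k + r, pb (fun j => algebraMap K E (A j)) N (V i) (V j) =
      algebraMap K E (g i j)) →
    GA (fun i j => algebraMap K E (g i j)) (k + r) →
    IntermediateField.adjoin K {x | ∃ i < k + r, ∃ l < 2 ^ N, x = V i l} = ⊤ →
    (∀ i j, g i j = g j i) → An A N →
    ((∑ i ∈ range r, (2 ^ N - (k + i) - 1) : ℕ) : Cardinal) ≤ Algebra.trdeg K E →
    An (fun j => algebraMap K E (A j)) N := by
  intro r
  induction r with
  | zero =>
    intro K E _ _ _ _ A N k V g hV hG hGA htop hs hAn htr
    refine anis_map_surj (algebraMap K E) (anis_surj ?_ htop) hAn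
    rintro _ ⟨i, hi, l, hl, rfl⟩
    exact hV i (by omega) l hl
  | succ r ih =>
    intro K E _ _ _ _ A N k V g hV hG hGA htop hs hAn htr
    obtain ⟨K', hK'⟩ : ∃ K', K' = IntermediateField.adjoin K ((V k) '' Set.Iio (2 ^ N)) := ⟨_, rfl⟩
    obtain ⟨V', hV', hV1, hV2, hV3, t1, ht1, ht1'⟩ := anis_U1' A N k V g hV
      (fun i hi j hj => hG i (by omega) j (by omega)) (anis_GA_mono (by omega) hGA) K' hK'
    have : CharZero K' := charZero_of_injective_algebraMap (algebraMap K K').injective
    have hGA' : GA (fun i j => algebraMap K E (g i j)) (k + 1 + r) := by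
      rw [show k + (r + 1) = k + 1 + r by ring] at hGA
      exact hGA
    have htop' : IntermediateField.adjoin K' {x | ∃ i < k + 1 + r, ∃ l < 2 ^ N, x = V i l} = ⊤ := by
      rw [show k + (r + 1) = k + 1 + r by ring] at htop
      exact IntermediateField.adjoin_eq_top_of_adjoin_eq_top K htop
    obtain ⟨t2, ht2, ht2'⟩ := anis_UB r K' E (fun j => algebraMap K K' (A j)) N (k + 1) V
      (fun i j => algebraMap K K' (g i j))
      (fun i hi l hl => ⟨V' i l, hV' i hi l hl⟩)
      (fun i hi j hj => hG i (by omega) j (by omega)) hGA' htop'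
    have h3 : ∑ i ∈ range r, (2 ^ N - (k + 1 + i) - 1) = ∑ i ∈ range r, (2 ^ N - (k + (i + 1)) - 1) := by
      refine sum_congr rfl fun i _ => ?_
      congr 2
      ring
    rw [anis_tower K' ht1 ht2, Nat.cast_le, sum_range_succ', ← h3, add_zero] at htr
    -- anisotropic over `K'`
    have hAn' : An (fun j => algebraMap K K' (A j)) N := by
      by_contra hnot
      have hv : ∃ v' : ℕ → ℕ → K, ∀ i < k, ∀ l < 2 ^ N, algebraMap K K' (v' i l) = V' i l := by
        classical
        refine ⟨fun i l => if h : V' i l ∈ (algebraMap K K').range then h.choose else 0,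
          fun i hi l hl => ?_⟩
        show algebraMap K K' (if h : V' i l ∈ (algebraMap K K').range then h.choose else 0) = _
        rw [dif_pos (hV1 i hi l hl)]
        exact (hV1 i hi l hl).choose_spec
      obtain ⟨v', hv'⟩ := hv
      have hinj : Function.Injective (algebraMap K K') := (algebraMap K K').injective
      obtain ⟨c, c0, hne, heq⟩ := h K K' A N k v' (V' k) (fun i => g i k) (g k k) hAn (by omega)
        (fun i hi => by
          rw [← hV2 i (by omega) k (by omega)]
          exact pb_congr _ N (fun l hl => hv' i hi l hl) (fun _ _ => rfl))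
        (by rw [pq_eq_pb, hV2 k (by omega) k (by omega)])
        hV3
        (by rw [ht1, Nat.cast_le]; omega) hnot
      have hgram : ∀ i < k, ∀ j < k, pb A N (v' i) (v' j) = g i j := by
        intro i hi j hj
        apply hinj
        rw [← anis_pb_map, ← hV2 i (by omega) j (by omega)]
        exact pb_congr _ N (fun l hl => hv' i hi l hl) (fun l hl => hv' j hj l hl)
      let z : ℕ → K := fun i => if i < k then c i else c0
      have hz1 : ∀ i < k, z i = c i := fun i hi => if_pos hi
      have hz2 : z k = c0 := if_neg (lt_irrefl k)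
      have hz : gq g (k + 1) z = 0 := by
        rw [← heq]
        unfold gq
        rw [sum_range_succ]
        have e1 : ∀ i ∈ range k, ∑ j ∈ range (k + 1), g i j * (z i * z j) =
            ∑ j ∈ range k, pb A N (v' i) (v' j) * (c i * c j) + c0 * (g i k * c i) := by
          intro i hi
          rw [sum_range_succ, hz2, hz1 i (mem_range.1 hi)]
          congr 1
          · refine sum_congr rfl fun j hj => ?_
            rw [hz1 j (mem_range.1 hj), hgram i (mem_range.1 hi) j (mem_range.1 hj)]
          · ring
        have e2 : ∑ j ∈ range (k + 1), g k j * (z k * z j) =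
            c0 * ∑ j ∈ range k, g j k * c j + c0 ^ 2 * g k k := by
          rw [sum_range_succ, hz2, mul_sum]
          congr 1
          · refine sum_congr rfl fun j hj => ?_
            rw [hz1 j (mem_range.1 hj), hs k j]
            ring
          · ring
        rw [sum_congr rfl e1, e2, sum_add_distrib, ← mul_sum]
        ring
      have hga : GA g (k + 1) :=
        anis_GA_mono (by omega) (anis_GA_of_map (algebraMap K E) (algebraMap K E).injective hGA')
      rcases hne with h0 | ⟨i, hi, h0⟩
      · exact h0 (by rw [← hz2]; exact hga z hz k (by omega))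
      · exact h0 (by rw [← hz1 i hi]; exact hga z hz i (by omega))
    exact ih K' E (fun j => algebraMap K K' (A j)) N (k + 1) V
      (fun i j => algebraMap K K' (g i j))
      (fun i hi l hl => ⟨V' i l, hV' i hi l hl⟩)
      (fun i hi j hj => hG i (by omega) j (by omega)) hGA' htop'
      (fun i j => by rw [hs i j]) hAn' (by rw [ht2, Nat.cast_le]; omega)

theorem anis_base : ∀ (r : ℕ) (K E : Type) [Field K] [Field E] [Algebra K E] (j : ℕ) (A : ℕ → K)
    (b : ℕ → E), An A j → (∀ l < j, algebraMap K E (A l) = b l) →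
    IntermediateField.adjoin K (b '' Set.Ico j (j + r)) = ⊤ →
    (r : Cardinal) ≤ Algebra.trdeg K E → An b (j + r) := by
  intro r
  induction r with
  | zero =>
    intro K E _ _ _ j A b hA hb htop _
    refine anis_An_congr hb (anis_map_surj (algebraMap K E) (anis_surj ?_ htop) hA)
    rintro _ ⟨l, hl, -⟩
    rw [add_zero, Set.Ico_self] at hl
    exact absurd hl (Set.notMem_empty l)
  | succ r ih =>
    intro K E _ _ _ j A b hA hb htop htr
    obtain ⟨K', hK'⟩ : ∃ K', K' = IntermediateField.adjoin K {b j} := ⟨_, rfl⟩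
    have hbj : b j ∈ K' := by
      rw [hK']
      exact IntermediateField.subset_adjoin _ _ rfl
    obtain ⟨t1, ht1, ht1', -⟩ := anis_trdeg_le (K := K) (L := K') 1 (fun _ => ⟨b j, hbj⟩) {0}
      (Set.finite_singleton 0) (by rw [Set.ncard_singleton]) (by
        apply IntermediateField.lift_injective K'
        rw [IntermediateField.lift_adjoin, IntermediateField.lift_top, Set.image_singleton,
          Set.image_singleton]
        exact hK'.symm)
    have htop' : IntermediateField.adjoin K' (b '' Set.Ico (j + 1) (j + 1 + r)) = ⊤ := by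
      have h1 := IntermediateField.adjoin_eq_top_of_adjoin_eq_top (E := K') K htop
      rw [eq_top_iff, ← h1, IntermediateField.adjoin_le_iff]
      rintro _ ⟨l, hl, rfl⟩
      by_cases hlj : l = j
      · rw [hlj]
        exact (IntermediateField.adjoin K' (b '' Set.Ico (j + 1) (j + 1 + r))).algebraMap_mem
          ⟨b j, hbj⟩
      · rw [Set.mem_Ico] at hl
        exact IntermediateField.subset_adjoin _ _ ⟨l, by rw [Set.mem_Ico]; omega, rfl⟩
    obtain ⟨t2, ht2, ht2', -⟩ := anis_trdeg_le (K := K') (L := E) r b (Set.Ico (j + 1) (j + 1 + r))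
      (Set.finite_Ico _ _) (by rw [Set.ncard_eq_toFinset_card']; simp) htop'
    rw [anis_tower K' ht1 ht2, Nat.cast_le] at htr
    have htrans : Transcendental K (b j) := by
      intro halg
      have h1 : Algebra.IsAlgebraic K K' := by
        rw [hK']
        exact IntermediateField.isAlgebraic_adjoin_simple halg.isIntegral
      have h2 : Algebra.trdeg K K' = 0 := trdeg_eq_zero
      rw [ht1] at h2
      have h3 : t1 = 0 := by exact_mod_cast h2
      omega
    have hA' := anis_an_t hA
    subst hK'
    have hAn := anis_map_surj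
      (RatFunc.algEquivOfTranscendental (b j) htrans).toAlgHom.toRingHom
      (fun x => (RatFunc.algEquivOfTranscendental (b j) htrans).surjective x) hA'
    have h4 := ih (IntermediateField.adjoin K {b j}) E (j + 1) _ b hAn (by
      intro l hl
      by_cases hlj : l < j
      · show algebraMap _ E (RatFunc.algEquivOfTranscendental (b j) htrans
          (if l < j then RatFunc.C (A l) else RatFunc.X)) = b l
        rw [if_pos hlj, ← RatFunc.algebraMap_eq_C, AlgEquiv.commutes, ← hb l hlj]
        rfl
      · have hlj' : l = j := by omega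
        show algebraMap _ E (RatFunc.algEquivOfTranscendental (b j) htrans
          (if l < j then RatFunc.C (A l) else RatFunc.X)) = b l
        rw [if_neg hlj, hlj']
        exact RatFunc.algEquivOfTranscendental_X (b j) htrans) htop'
      (by rw [ht2, Nat.cast_le]; omega)
    rw [show j + (r + 1) = j + 1 + r by ring]
    exact h4

theorem anis_arith (n m : ℕ) (hm : m ≤ n) :
    ∑ i ∈ range m, (n - (0 + i) - 1) + MM m = m * n := by
  induction m with
  | zero => simp [MM]
  | succ m ih =>
    have h1 := ih (by omega)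
    have h2 : MM (m + 1) = MM m + (m + 1) := by
      unfold MM
      have : (m + 1) * (m + 1 + 1) = m * (m + 1) + 2 * (m + 1) := by ring
      rw [this, Nat.add_mul_div_left _ _ (by norm_num)]
    rw [sum_range_succ, h2, add_mul, one_mul, ← h1]
    omega

theorem anis (h : S_TOW) : S_ANIS := by
  intro F E _ _ _ _ a N m v g hm hsymm ha hG htop htr hGA
  obtain ⟨K0, hK0⟩ : ∃ K0, K0 = IntermediateField.adjoin F (a '' Set.Iio N) := ⟨_, rfl⟩
  have : CharZero K0 := charZero_of_injective_algebraMap (algebraMap F K0).injective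
  have hmem : ∀ j < N, a j ∈ K0 := fun j hj => by
    rw [hK0]
    exact IntermediateField.subset_adjoin _ _ ⟨j, hj, rfl⟩
  obtain ⟨A, hA⟩ : ∃ A : ℕ → K0, ∀ j < N, algebraMap K0 E (A j) = a j := by
    classical
    refine ⟨fun j => if h : a j ∈ K0 then ⟨a j, h⟩ else 0, fun j hj => ?_⟩
    show algebraMap K0 E (if h : a j ∈ K0 then ⟨a j, h⟩ else 0) = a j
    rw [dif_pos (hmem j hj)]
    rfl
  have hAtop : IntermediateField.adjoin F (A '' Set.Iio N) = ⊤ := by
    apply IntermediateField.lift_injective K0
    rw [IntermediateField.lift_adjoin, IntermediateField.lift_top]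
    have h4 : Subtype.val '' (A '' Set.Iio N) = a '' Set.Iio N := by
      rw [Set.image_image]
      exact Set.image_congr fun l hl => hA l hl
    rw [h4]
    exact hK0.symm
  obtain ⟨t1, ht1, ht1', -⟩ := anis_trdeg_le (K := F) (L := K0) N A (Set.Iio N)
    (Set.finite_Iio _) (by rw [Set.ncard_eq_toFinset_card']; simp) hAtop
  have hG' : ∀ i < 0 + m, ∀ j < 0 + m, pb (fun j => algebraMap K0 E (A j)) N (v i) (v j) =
      algebraMap K0 E (algebraMap F K0 (g i j)) := by
    intro i hi j hj
    rw [← IsScalarTower.algebraMap_apply F K0 E, ← hG i (by omega) j (by omega)]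
    unfold pb
    exact sum_congr rfl fun l _ => by rw [anis_pc_congr _ a N hA]
  have hGA' : GA (fun i j => algebraMap K0 E (algebraMap F K0 (g i j))) (0 + m) := by
    rw [zero_add]
    exact hGA
  have htop' : IntermediateField.adjoin K0 {x | ∃ i < 0 + m, ∃ l < 2 ^ N, x = v i l} = ⊤ := by
    have h1 := IntermediateField.adjoin_eq_top_of_adjoin_eq_top (E := K0) F htop
    rw [eq_top_iff, ← h1, IntermediateField.adjoin_le_iff]
    rintro _ (⟨j, hj, rfl⟩ | ⟨i, hi, l, hl, rfl⟩)
    · exact (IntermediateField.adjoin K0 _).algebraMap_mem ⟨a j, hmem j hj⟩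
    · exact IntermediateField.subset_adjoin _ _ ⟨i, by omega, l, hl, rfl⟩
  obtain ⟨t2, ht2, ht2'⟩ := anis_UB m K0 E A N 0 v (fun i j => algebraMap F K0 (g i j))
    (fun i hi => absurd hi (Nat.not_lt_zero i)) hG' hGA' htop'
  rw [anis_tower K0 ht1 ht2, Nat.cast_le] at htr
  have har := anis_arith (2 ^ N) m hm
  have hAn : An A N := by
    have h1 := anis_base N F K0 0 (fun _ => 0) A (by
      intro z hz l hl
      have : l = 0 := by simpa using hl
      subst this
      simpa [pq, pc] using hz) (fun l hl => absurd hl (Nat.not_lt_zero l)) (by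
      rw [zero_add]
      have : Set.Ico 0 N = Set.Iio N := by
        ext l
        simp
      rw [this]
      exact hAtop) (by rw [ht1, Nat.cast_le]; omega)
    rwa [zero_add] at h1
  exact anis_An_congr hA (anis_main h m K0 E A N 0 v (fun i j => algebraMap F K0 (g i j))
    (fun i hi => absurd hi (Nat.not_lt_zero i)) hG' hGA' htop' (fun i j => by rw [hsymm i j]) hAn
    (by rw [ht2, Nat.cast_le]; omega))

end Pool.Agent.H901.Q
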