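import Pool.Agent.H901.Q.Defs

/-!
Project Q, assembly: the substitution for codes and for polynomials.
-/

set_option autoImplicit false

namespace Pool.Agent.H901.Q.Asm

open Finset Pool.Agent.H901

theorem tri_succ (m : ℕ) : tri (m + 1) = tri m ++ (List.range (m + 1)).map (fun i => (i, m)) := by
  unfold tri
  rw [List.range_succ (n := m), List.flatMap_append, List.flatMap_singleton,
    ← List.range_succ (n := m)]

theorem MM_succ (m : ℕ) : MM (m + 1) = MM m + (m + 1) := by
  unfold MM
  have : (m + 1) * (m + 1 + 1) = m * (m + 1) + 2 * (m + 1) := by ring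
  rw [this, Nat.add_mul_div_left _ _ (by norm_num)]

theorem tri_length (m : ℕ) : (tri m).length = MM m := by
  induction m with
  | zero => rfl
  | succ m ih =>
    rw [tri_succ, List.length_append, ih, List.length_map, List.length_range, MM_succ]

theorem tri_get (m : ℕ) : ∀ l < MM m, ((tri m).getD l (0, 0)).1 ≤ ((tri m).getD l (0, 0)).2 ∧
    ((tri m).getD l (0, 0)).2 < m ∧
    ix ((tri m).getD l (0, 0)).1 ((tri m).getD l (0, 0)).2 = l := by
  induction m with
  | zero =>
    intro l hl
    simp [MM] at hl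
  | succ m ih =>
    intro l hl
    rw [tri_succ]
    by_cases h : l < MM m
    · rw [List.getD_append _ _ _ _ (by rw [tri_length]; exact h)]
      obtain ⟨h1, h2, h3⟩ := ih l h
      exact ⟨h1, by omega, h3⟩
    · have h' : l - MM m < m + 1 := by
        rw [MM_succ] at hl
        omega
      rw [List.getD_append_right _ _ _ _ (by rw [tri_length]; omega), tri_length]
      have h4 : ((List.range (m + 1)).map (fun i => (i, m))).getD (l - MM m) (0, 0) =
          (l - MM m, m) := by
        rw [List.getD_eq_getElem _ _ (by simpa using h')]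
        simp
      rw [h4]
      refine ⟨by simp; omega, by simp, ?_⟩
      show ix (l - MM m) m = l
      unfold ix
      rw [if_pos (by omega)]
      show MM m + (l - MM m) = l
      omega

theorem ix_lt {m i j : ℕ} (hi : i < m) (hj : j < m) : ix i j < MM m := by
  have key : ∀ i j : ℕ, i ≤ j → j < m → j * (j + 1) / 2 + i < MM m := by
    intro i j hij hj
    have h1 : MM (j + 1) ≤ MM m := by
      unfold MM
      exact Nat.div_le_div_right (Nat.mul_le_mul (by omega) (by omega))
    rw [MM_succ] at h1
    have h2 : j * (j + 1) / 2 = MM j := rfl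
    omega
  unfold ix
  split_ifs with h
  · exact key i j h hj
  · exact key j i (by omega) hi

theorem ix_symm (i j : ℕ) : ix i j = ix j i := by
  unfold ix
  split_ifs with h1 h2 h2
  · have : i = j := by omega
    subst this
    rfl
  · rfl
  · rfl
  · omega

theorem pb_map {R S : Type*} [CommRing R] [CommRing S] (φ : R →+* S) (a : ℕ → R) (i : ℕ)
    (z w : ℕ → R) : pb (fun j => φ (a j)) i (fun m => φ (z m)) (fun m => φ (w m)) =
      φ (pb a i z w) := by
  unfold pb
  rw [map_sum]
  refine sum_congr rfl fun m _ => ?_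
  rw [pc_map, map_mul, map_mul]

theorem pb_congr_slots {R : Type*} [CommRing R] {a b : ℕ → R} {N : ℕ} (h : ∀ j < N, a j = b j)
    (z w : ℕ → R) : pb a N z w = pb b N z w := by
  unfold pb
  refine sum_congr rfl fun m _ => ?_
  rw [pc_congr a b N h]

theorem gram_map {R S : Type*} [CommRing R] [CommRing S] (φ : R →+* S) (N : ℕ) (θ : ℕ → R)
    (i j : ℕ) : gram N (fun l => φ (θ l)) i j = φ (gram N θ i j) := by
  unfold gram
  rw [← pb_map]
  simp only [map_neg]

theorem gram_congr {R : Type*} [CommRing R] {N m : ℕ} {θ θ' : ℕ → R}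
    (h : ∀ l < N + m * 2 ^ N, θ l = θ' l) {i j : ℕ} (hi : i < m) (hj : j < m) :
    gram N θ i j = gram N θ' i j := by
  have hb : ∀ i < m, ∀ l < 2 ^ N, N + i * 2 ^ N + l < N + m * 2 ^ N := by
    intro i hi l hl
    have : (i + 1) * 2 ^ N ≤ m * 2 ^ N := Nat.mul_le_mul_right _ hi
    rw [Nat.add_mul, one_mul] at this
    omega
  unfold gram
  rw [pb_congr_slots (a := fun b => -θ b) (b := fun b => -θ' b)
    (fun b hb => by rw [h b (by omega)])]
  exact pb_congr _ _ (fun l hl => h _ (hb i hi l hl)) (fun l hl => h _ (hb j hj l hl))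

theorem sb_map {R S : Type*} [CommRing R] [CommRing S] (φ : R →+* S) (N m : ℕ) (θ : ℕ → R)
    (l : ℕ) : sb N m (fun l => φ (θ l)) l = φ (sb N m θ l) := by
  unfold sb
  split_ifs
  · exact gram_map φ N θ _ _
  · rfl

section

variable {ν : ℕ → Qb} {N m t : ℕ} {p : Poly}

theorem toP_X (n j : ℕ) : toP n (MvPolynomial.X j) =
    if h : j < n then Polynomial.C (MvPolynomial.X ⟨j, h⟩) else if j = n then Polynomial.X else 0 :=
  by
  unfold toP
  rw [MvPolynomial.aeval_X]

theorem toP_X_lt {n j : ℕ} (h : j < n) :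
    toP n (MvPolynomial.X j) = Polynomial.C (xw Qb n j) := by
  rw [toP_X, dif_pos h]
  unfold xw
  rw [dif_pos h]

theorem toP_X_eq (n : ℕ) : toP n (MvPolynomial.X n) = Polynomial.X := by
  rw [toP_X, dif_neg (lt_irrefl n), if_pos rfl]

/-- the substitution for codes is the substitution for polynomials -/
theorem subst_toP (hC : S_CODE) (hp : ∀ q ∈ p, ∀ j ∈ q.2, j < MM m + t + 1) :
    toP (N + m * 2 ^ N + t) (val ν (subst N m p)) =
      (toP (MM m + t) (val ν p)).map
        (Phi Qb N m t : _ →+* MvPolynomial (Fin (N + m * 2 ^ N + t)) Qb) := by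
  set n := MM m + t with hn
  set n' := N + m * 2 ^ N + t with hn'
  have h1 : ∀ (n : ℕ) (f : MvPolynomial ℕ Qb), toP n f =
      MvPolynomial.aeval (fun j => toP n (MvPolynomial.X j)) f := by
    intro n f
    exact DFunLike.congr_fun (MvPolynomial.aeval_unique (toP n)) f
  rw [h1 n', (hC N m).2.1 ν _ _ p]
  let ψ : Polynomial (MvPolynomial (Fin n) Qb) →ₐ[Qb] Polynomial (MvPolynomial (Fin n') Qb) :=
    Polynomial.mapAlgHom (Phi Qb N m t)
  have h2 : ∀ f, f.map (Phi Qb N m t : _ →+* MvPolynomial (Fin n') Qb) = ψ f := fun f => rfl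
  rw [h2]
  have h3 : ψ (toP n (val ν p)) = MvPolynomial.aeval (fun j => ψ (toP n (MvPolynomial.X j)))
      (val ν p) := by
    have := MvPolynomial.aeval_unique (ψ.comp (toP n))
    exact DFunLike.congr_fun this (val ν p)
  rw [h3, aeval_val, aeval_val]
  congr 1
  refine List.map_congr_left fun q hq => ?_
  congr 2
  refine List.map_congr_left fun l hl => ?_
  have hl' := hp q hq l hl
  by_cases h4 : l < n
  · rw [toP_X_lt h4, ← h2, Polynomial.map_C]
    have h5 : (Phi Qb N m t : _ →+* MvPolynomial (Fin n') Qb) (xw Qb n l) =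
        sb N m (xw Qb n') l := by
      unfold xw
      rw [dif_pos h4]
      exact MvPolynomial.aeval_X _ _
    rw [h5]
    unfold sb
    by_cases h6 : l < MM m
    · rw [if_pos h6, if_pos h6, ← gram_map]
      obtain ⟨g1, g2, -⟩ := tri_get m l h6
      refine gram_congr (m := m) (fun j hj => ?_) (by omega) g2
      rw [toP_X_lt (by omega)]
    · rw [if_neg h6, if_neg h6]
      exact toP_X_lt (by omega)
  · have h5 : l = n := by omega
    subst h5
    rw [toP_X_eq, ← h2, Polynomial.map_X]
    unfold sb
    rw [if_neg (by omega), show N + m * 2 ^ N + (n - MM m) = n' by omega]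
    exact toP_X_eq n'

end

end Pool.Agent.H901.Q.Asm
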