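import Pool.Agent.H901.Q.Stm
import Pool.Graph.R_seed8.H918R3.TCP
import Pool.Graph.R_seed8.Y604.Z1.Main

/-!
Project Q, parts CAS and AB: Cassels' second representation theorem and the theorem of Amer and
Brumer, from the library.
-/

set_option autoImplicit false

namespace Pool.Agent.H901.Q

open Finset Polynomial Pool.Agent.H901

theorem cas : S_CAS := by
  intro K _ _ c s d han ⟨z, hz⟩
  have h2 : (2 : K) ≠ 0 := two_ne_zero
  obtain ⟨w, hw⟩ := Pool.Agent.H918R3.diag_cancel (n := s) h2
    (Fin.cons (c s) (fun i : Fin s => c i)) (by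
      intro v hv
      rw [Fin.sum_univ_succ] at hv
      simp only [Fin.cons_zero, Fin.cons_succ] at hv
      have h1 := han (fun m => if h : m < s then v (Fin.succ ⟨m, h⟩) else v 0) (by
        unfold dq
        rw [sum_range_succ]
        beta_reduce
        rw [dif_neg (lt_irrefl s), ← hv, add_comm, Finset.sum_range]
        congr 1
        refine sum_congr rfl fun m _ => ?_
        rw [dif_pos m.2])
      funext i
      refine Fin.cases ?_ (fun m => ?_) i
      · have := h1 s (by omega)
        beta_reduce at this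
        rw [dif_neg (lt_irrefl s)] at this
        exact this
      · have := h1 m (by omega)
        beta_reduce at this
        rw [dif_pos m.2] at this
        exact this) d
    (Fin.cons (z s) (fun i : Fin s => z i)) (by
      rw [Fin.sum_univ_succ]
      simp only [Fin.cons_zero, Fin.cons_succ]
      unfold dq at hz
      rw [sum_range_succ, Finset.sum_range] at hz
      linear_combination hz)
  refine ⟨fun m => if h : m < s then w ⟨m, h⟩ else 0, ?_⟩
  unfold dq
  rw [Finset.sum_range, ← hw]
  refine sum_congr rfl fun m _ => ?_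
  beta_reduce
  rw [dif_pos m.2, Fin.cons_succ]

theorem ab : S_AB := by
  intro F _ _ m A B hA hB ⟨z, ⟨i0, hi0, hz0⟩, hz⟩
  obtain ⟨g, hg, w, hw⟩ := Pool.Agent.H918R3.cp_clear (fun i : Fin m => z i)
  have hinj := Pool.Agent.H918R3.cp_inj (F := F)
  have hg' : algebraMap F[X] (RatFunc F) g ≠ 0 := by
    rw [Ne, map_eq_zero_iff _ hinj]
    exact hg
  have hw0 : w ≠ 0 := by
    intro h
    have h1 := hw ⟨i0, hi0⟩
    rw [h, Pi.zero_apply, map_zero] at h1
    rcases mul_eq_zero.1 h1.symm with h2 | h2
    · exact hg' h2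
    · exact hz0 h2
  obtain ⟨y, hy, hyA, hyB⟩ := Pool.Agent.Y604.Z1.amer_brumer (ι := Fin m)
    (fun i j => A i j) (fun i j => B i j) (fun i j => hA i j) (fun i j => hB i j)
    (Finset.univ.sup fun i => (w i).natDegree) w hw0
    (fun i => Finset.le_sup (f := fun i => (w i).natDegree) (Finset.mem_univ i)) (by
      apply hinj
      rw [map_zero]
      unfold Pool.Agent.Y604.Z1.bf
      have h3 : (algebraMap F[X] (RatFunc F) g) ^ 2 *
          gq (fun i j => RatFunc.C (A i j) + RatFunc.X * RatFunc.C (B i j)) m z = 0 := by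
        rw [hz, mul_zero]
      rw [← h3]
      unfold gq
      rw [map_sum, Finset.sum_range, Finset.mul_sum]
      refine sum_congr rfl fun i _ => ?_
      rw [map_sum, Finset.sum_range, Finset.mul_sum]
      refine sum_congr rfl fun j _ => ?_
      rw [map_mul, map_mul, hw i, hw j, map_add, map_mul, RatFunc.algebraMap_C,
        RatFunc.algebraMap_C, RatFunc.algebraMap_X]
      ring)
  obtain ⟨i, hi⟩ := Function.ne_iff.1 hy
  have key : ∀ C : ℕ → ℕ → F, gq C m (fun l => if h : l < m then y ⟨l, h⟩ else 0) =
      ∑ i : Fin m, ∑ j : Fin m, C i j * y i * y j := by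
    intro C
    unfold gq
    rw [Finset.sum_range]
    refine sum_congr rfl fun i _ => ?_
    rw [Finset.sum_range]
    refine sum_congr rfl fun j _ => ?_
    beta_reduce
    rw [dif_pos i.2, dif_pos j.2]
    ring
  refine ⟨fun l => if h : l < m then y ⟨l, h⟩ else 0, ⟨i, i.2, ?_⟩, ?_, ?_⟩
  · beta_reduce
    rw [dif_pos i.2]
    exact hi
  · rw [key]
    exact hyA
  · rw [key]
    exact hyB

end Pool.Agent.H901.Q
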