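import Pool.Agent.H901.Q.Stm

/-! Project Q (helper901), part CODE: the substitution for codes. -/

set_option autoImplicit false

namespace Pool.Agent.H901.Q

open Finset Pool.Agent.H901

namespace CodeAux

/-! ### primitive recursive -/

theorem prim_mon (N m : ℕ) : Primrec (mon N m) := by
  unfold mon
  refine Primrec.ite ?_ ?_ ?_
  · exact Primrec.nat_lt.comp Primrec.id (Primrec.const _)
  · exact (Primrec.list_getD ([] : List (List ℕ))).comp (Primrec.const _) Primrec.id
  · have h1 : Primrec fun l : ℕ => N + m * 2 ^ N + (l - MM m) :=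
      Primrec.nat_add.comp (Primrec.const _) (Primrec.nat_sub.comp Primrec.id (Primrec.const _))
    have h2 : Primrec fun l : ℕ => [N + m * 2 ^ N + (l - MM m)] :=
      Primrec.list_cons.comp h1 (Primrec.const _)
    exact Primrec.list_cons.comp h2 (Primrec.const _)

theorem prim_expand (N m : ℕ) : Primrec (expand N m) := by
  unfold expand
  have hh : Primrec₂ (fun (_ : List ℕ) (p : ℕ × List (List ℕ)) =>
      (mon N m p.1).flatMap (fun μ => p.2.map (fun ρ => μ ++ ρ))) := by
    have h1 : Primrec fun x : List ℕ × (ℕ × List (List ℕ)) => mon N m x.2.1 :=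
      (prim_mon N m).comp (Primrec.fst.comp Primrec.snd)
    have h2 : Primrec₂ fun (x : List ℕ × (ℕ × List (List ℕ))) (μ : List ℕ) =>
        x.2.2.map (fun ρ => μ ++ ρ) := by
      have h3 : Primrec fun y : (List ℕ × (ℕ × List (List ℕ))) × List ℕ => y.1.2.2 :=
        Primrec.snd.comp (Primrec.snd.comp Primrec.fst)
      have h4 : Primrec₂ fun (y : (List ℕ × (ℕ × List (List ℕ))) × List ℕ) (ρ : List ℕ) =>
          y.2 ++ ρ :=
        Primrec.list_append.comp (Primrec.snd.comp Primrec.fst) Primrec.snd
      exact Primrec.list_map h3 h4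
    exact Primrec.list_flatMap h1 h2
  exact Primrec.list_foldr (f := fun w : List ℕ => w) (g := fun _ => [[]])
    (h := fun (_ : List ℕ) (p : ℕ × List (List ℕ)) =>
      (mon N m p.1).flatMap (fun μ => p.2.map (fun ρ => μ ++ ρ))) Primrec.id (Primrec.const _) hh

theorem prim_subst (N m : ℕ) : Primrec (subst N m) := by
  unfold subst
  have h2 : Primrec₂ fun (_ : Poly) (t : ℕ × List ℕ) =>
      (expand N m t.2).map (fun ρ => (t.1, ρ)) := by
    have h3 : Primrec fun y : Poly × (ℕ × List ℕ) => expand N m y.2.2 :=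
      (prim_expand N m).comp (Primrec.snd.comp Primrec.snd)
    have h4 : Primrec₂ fun (y : Poly × (ℕ × List ℕ)) (ρ : List ℕ) => (y.2.1, ρ) :=
      Primrec.pair (Primrec.fst.comp (Primrec.snd.comp Primrec.fst)) Primrec.snd
    exact Primrec.list_map h3 h4
  exact Primrec.list_flatMap Primrec.id h2

/-! ### the value -/

section Ring

variable {R : Type*} [CommRing R]

/-- the value of a list of monomials -/
def ev (θ : ℕ → R) (L : List (List ℕ)) : R := (L.map (fun w => (w.map θ).prod)).sum

theorem ev_append (θ : ℕ → R) (L L' : List (List ℕ)) : ev θ (L ++ L') = ev θ L + ev θ L' := by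
  unfold ev
  rw [List.map_append, List.sum_append]

theorem ev_cons (θ : ℕ → R) (w : List ℕ) (L : List (List ℕ)) :
    ev θ (w :: L) = (w.map θ).prod + ev θ L := by
  unfold ev
  rw [List.map_cons, List.sum_cons]

theorem ev_nil (θ : ℕ → R) : ev θ [] = 0 := rfl

theorem ev_shift (θ : ℕ → R) (μ : List ℕ) (B : List (List ℕ)) :
    ev θ (B.map (fun ρ => μ ++ ρ)) = (μ.map θ).prod * ev θ B := by
  induction B with
  | nil => rw [List.map_nil, ev_nil, mul_zero]
  | cons b B ih =>
    rw [List.map_cons, ev_cons, ev_cons, ih, List.map_append, List.prod_append]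
    ring

theorem ev_mul (θ : ℕ → R) (A B : List (List ℕ)) :
    ev θ (A.flatMap (fun μ => B.map (fun ρ => μ ++ ρ))) = ev θ A * ev θ B := by
  induction A with
  | nil => rw [List.flatMap_nil, ev_nil, zero_mul]
  | cons a A ih => rw [List.flatMap_cons, ev_append, ih, ev_shift, ev_cons, add_mul]

theorem sum_range_list (f : ℕ → R) (n : ℕ) :
    ((List.range n).map f).sum = ∑ i ∈ range n, f i := by
  induction n with
  | zero => rfl
  | succ n ih =>
    rw [List.range_succ, List.map_append, List.sum_append, ih, Finset.sum_range_succ,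
      List.map_singleton, List.sum_singleton]

theorem pc_pl (θ : ℕ → R) (N : ℕ) : ∀ l, pc (fun b => -θ b) N l = ((pl N l).map θ).prod := by
  induction N with
  | zero =>
    intro l
    simp [pc, pl]
  | succ N ih =>
    intro l
    rw [pc, pl]
    by_cases h : l < 2 ^ N
    · rw [if_pos h, if_pos h, ih]
    · rw [if_neg h, if_neg h, ih, List.map_cons, List.prod_cons, neg_neg]

theorem ev_gm (θ : ℕ → R) (N i j : ℕ) : ev θ (gm N i j) = gram N θ i j := by
  unfold ev gm gram pb
  rw [List.map_map, sum_range_list]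
  refine Finset.sum_congr rfl fun l _ => ?_
  rw [Function.comp_apply, List.map_append, List.prod_append, pc_pl]
  simp

theorem length_tri (m : ℕ) : (tri m).length = MM m := by
  unfold tri MM
  rw [List.length_flatMap]
  simp only [List.length_map, List.length_range]
  induction m with
  | zero => rfl
  | succ m ih =>
    rw [List.range_succ, List.map_append, List.sum_append, ih, List.map_singleton,
      List.sum_singleton]
    have h : (m + 1) * (m + 1 + 1) = m * (m + 1) + 2 * (m + 1) := by ring
    rw [h, Nat.add_mul_div_left _ _ (by norm_num)]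

theorem ev_mon (θ : ℕ → R) (N m l : ℕ) : ev θ (mon N m l) = sb N m θ l := by
  unfold mon sb
  by_cases h : l < MM m
  · rw [if_pos h, if_pos h]
    have hl : l < (tri m).length := by rw [length_tri]; exact h
    have h1 : ((tri m).map (fun q => gm N q.1 q.2)).getD l [] =
        gm N ((tri m).getD l (0, 0)).1 ((tri m).getD l (0, 0)).2 := by
      rw [List.getD_eq_getElem _ _ (by rw [List.length_map]; exact hl),
        List.getD_eq_getElem _ _ hl, List.getElem_map]
    rw [h1, ev_gm]
  · rw [if_neg h, if_neg h]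
    simp [ev]

theorem ev_expand (θ : ℕ → R) (N m : ℕ) (w : List ℕ) :
    ev θ (expand N m w) = (w.map (sb N m θ)).prod := by
  induction w with
  | nil => simp [expand, ev]
  | cons l w ih =>
    have h : expand N m (l :: w) =
        (mon N m l).flatMap (fun μ => (expand N m w).map (fun ρ => μ ++ ρ)) := rfl
    rw [h, ev_mul, ih, ev_mon, List.map_cons, List.prod_cons]

end Ring

theorem aeval_val' {ν : ℕ → Qb} {B : Type*} [CommRing B] [Algebra Qb B] (θ : ℕ → B) (f : Poly) :
    MvPolynomial.aeval θ (val ν f) =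
      (f.map (fun t => algebraMap Qb B (ν t.1) * (t.2.map θ).prod)).sum := by
  unfold val
  rw [map_list_sum, List.map_map]
  congr 1
  refine List.map_congr_left fun t _ => ?_
  simp only [Function.comp, map_mul, MvPolynomial.aeval_C]
  congr 1
  rw [map_list_prod, List.map_map]
  congr 1
  refine List.map_congr_left fun j _ => ?_
  simp

theorem value {ν : ℕ → Qb} {B : Type} [CommRing B] [Algebra Qb B] (N m : ℕ) (θ : ℕ → B)
    (p : Poly) :
    MvPolynomial.aeval θ (val ν (subst N m p)) =
      MvPolynomial.aeval (sb N m θ) (val ν p) := by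
  rw [aeval_val', aeval_val']
  induction p with
  | nil => rfl
  | cons t p ih =>
    have h : subst N m (t :: p) =
        (expand N m t.2).map (fun ρ => (t.1, ρ)) ++ subst N m p := rfl
    rw [h, List.map_append, List.sum_append, ih, List.map_cons, List.sum_cons, List.map_map]
    congr 1
    rw [← ev_expand]
    unfold ev
    rw [← List.sum_map_mul_left]
    rfl

/-! ### the variables -/

theorem mem_pl (N : ℕ) : ∀ l, ∀ j ∈ pl N l, j < N := by
  induction N with
  | zero =>
    intro l j hj
    simp [pl] at hj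
  | succ N ih =>
    intro l j hj
    rw [pl] at hj
    split_ifs at hj with h
    · exact (ih l j hj).trans (Nat.lt_succ_self N)
    · rw [List.mem_cons] at hj
      rcases hj with rfl | hj
      · exact Nat.lt_succ_self _
      · exact (ih _ j hj).trans (Nat.lt_succ_self N)

theorem mem_tri {m : ℕ} {q : ℕ × ℕ} (hq : q ∈ tri m) : q.1 < m ∧ q.2 < m := by
  unfold tri at hq
  rw [List.mem_flatMap] at hq
  obtain ⟨j, hj, hq⟩ := hq
  rw [List.mem_map] at hq
  obtain ⟨i, hi, rfl⟩ := hq
  rw [List.mem_range] at hi hj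
  exact ⟨by show i < m; omega, hj⟩

theorem mem_gm {N m i j : ℕ} (hi : i < m) (hj : j < m) {μ : List ℕ} (hμ : μ ∈ gm N i j) :
    ∀ x ∈ μ, x < N + m * 2 ^ N := by
  intro x hx
  unfold gm at hμ
  rw [List.mem_map] at hμ
  obtain ⟨l, hl, rfl⟩ := hμ
  rw [List.mem_range] at hl
  rw [List.mem_append] at hx
  have key : ∀ i < m, N + i * 2 ^ N + l < N + m * 2 ^ N := by
    intro i hi
    have h1 : (i + 1) * 2 ^ N ≤ m * 2 ^ N := Nat.mul_le_mul_right _ hi
    rw [add_mul, one_mul] at h1
    omega
  rcases hx with hx | hx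
  · have := mem_pl N l x hx
    omega
  · simp only [List.mem_cons, List.not_mem_nil, or_false] at hx
    rcases hx with rfl | rfl
    · exact key i hi
    · exact key j hj

theorem mem_mon {N m t l : ℕ} (hl : l < MM m + t) {μ : List ℕ} (hμ : μ ∈ mon N m l) :
    ∀ x ∈ μ, x < N + m * 2 ^ N + t := by
  intro x hx
  unfold mon at hμ
  by_cases h : l < MM m
  · rw [if_pos h] at hμ
    have hlt : l < (tri m).length := by rw [length_tri]; exact h
    rw [List.getD_eq_getElem _ _ (by rw [List.length_map]; exact hlt), List.getElem_map] at hμ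
    obtain ⟨h1, h2⟩ := mem_tri (List.getElem_mem hlt)
    have := mem_gm h1 h2 hμ x hx
    omega
  · rw [if_neg h] at hμ
    rw [List.mem_singleton] at hμ
    subst hμ
    rw [List.mem_singleton] at hx
    omega

theorem mem_expand {N m t : ℕ} (w : List ℕ) (hw : ∀ l ∈ w, l < MM m + t) :
    ∀ ρ ∈ expand N m w, ∀ x ∈ ρ, x < N + m * 2 ^ N + t := by
  induction w with
  | nil =>
    intro ρ hρ x hx
    have h : expand N m [] = [[]] := rfl
    rw [h, List.mem_singleton] at hρ
    subst hρ
    simp at hx
  | cons l w ih =>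
    intro ρ hρ x hx
    have h : expand N m (l :: w) =
        (mon N m l).flatMap (fun μ => (expand N m w).map (fun ρ => μ ++ ρ)) := rfl
    rw [h, List.mem_flatMap] at hρ
    obtain ⟨μ, hμ, hρ⟩ := hρ
    rw [List.mem_map] at hρ
    obtain ⟨σ, hσ, rfl⟩ := hρ
    rw [List.mem_append] at hx
    rcases hx with hx | hx
    · exact mem_mon (hw l List.mem_cons_self) hμ x hx
    · exact ih (fun l hl => hw l (List.mem_cons_of_mem _ hl)) σ hσ x hx

end CodeAux

open CodeAux

/-- **CODE** -/
theorem code : S_CODE := by
  intro N m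
  refine ⟨prim_subst N m, fun ν B _ _ θ p => value N m θ p, fun t p hp q hq j hj => ?_⟩
  unfold subst at hq
  rw [List.mem_flatMap] at hq
  obtain ⟨s, hs, hq⟩ := hq
  rw [List.mem_map] at hq
  obtain ⟨ρ, hρ, rfl⟩ := hq
  exact mem_expand s.2 (hp s hs) ρ hρ j hj

end Pool.Agent.H901.Q
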