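import Pool.Agent.H901.Q.ASM1
import Pool.Agent.H901.Q.CODE
import Pool.Agent.H901.Q.CAS

/-!
Project Q, assembly: the reduction, and the covering of all pairs of quadratic forms.
-/

set_option autoImplicit false

namespace Pool.Agent.H901.Q.Asm

open Finset Pool.Agent.H901 Algebra

section Deg

theorem natDegree_toP_le (n : ℕ) (r : MvPolynomial ℕ Qb) :
    (toP n r).natDegree ≤ r.degreeOf n := by
  have h1 : toP n r = ∑ s ∈ r.support, toP n (MvPolynomial.monomial s (r.coeff s)) := by
    conv_lhs => rw [r.as_sum]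
    rw [map_sum]
  rw [h1]
  refine Polynomial.natDegree_sum_le_of_forall_le _ _ fun s hs => ?_
  refine le_trans ?_ (MvPolynomial.monomial_le_degreeOf n hs)
  unfold toP
  rw [MvPolynomial.aeval_monomial]
  refine (Polynomial.natDegree_mul_le).trans ?_
  have h2 : (algebraMap Qb (Polynomial (MvPolynomial (Fin n) Qb)) (r.coeff s)).natDegree = 0 :=
    Polynomial.natDegree_C _
  rw [h2, zero_add]
  unfold Finsupp.prod
  refine (Polynomial.natDegree_prod_le _ _).trans ?_
  have h3 : ∀ j ∈ s.support, ((if h : j < n then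
      (Polynomial.C (MvPolynomial.X ⟨j, h⟩) : Polynomial (MvPolynomial (Fin n) Qb))
      else if j = n then Polynomial.X else 0) ^ s j).natDegree ≤ if j = n then s n else 0 := by
    intro j _
    refine (Polynomial.natDegree_pow_le).trans ?_
    by_cases h : j < n
    · rw [dif_pos h, Polynomial.natDegree_C, mul_zero]
      exact Nat.zero_le _
    · rw [dif_neg h]
      by_cases h' : j = n
      · subst h'
        rw [if_pos rfl, if_pos rfl, Polynomial.natDegree_X, mul_one]
      · rw [if_neg h', if_neg h', Polynomial.natDegree_zero, mul_zero]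
  refine (Finset.sum_le_sum h3).trans ?_
  rw [Finset.sum_ite_eq']
  split_ifs
  · exact le_rfl
  · exact Nat.zero_le _

variable {ν : ℕ → Qb} {n : ℕ} {p : Poly}

theorem monic_toP (h : MonicIn ν n p) :
    (toP n (val ν p)).Monic ∧ (toP n (val ν p)).natDegree ≠ 0 := by
  obtain ⟨d, r, hr, hd⟩ := h
  have h1 : toP n (val ν p) = Polynomial.X ^ d + toP n r := by
    rw [hr, map_add, map_pow, toP_X_eq]
  have h2 := natDegree_toP_le n r
  have h3 : (toP n r).degree < d := by
    by_cases h0 : toP n r = 0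
    · rw [h0, Polynomial.degree_zero]
      exact WithBot.bot_lt_coe _
    · rw [Polynomial.degree_eq_natDegree h0]
      exact_mod_cast lt_of_le_of_lt h2 hd
  have h4 : (toP n (val ν p)).natDegree = d := by
    rw [h1, Polynomial.natDegree_add_eq_left_of_degree_lt, Polynomial.natDegree_X_pow]
    rwa [Polynomial.degree_X_pow]
  refine ⟨?_, by omega⟩
  rw [h1]
  exact Polynomial.monic_X_pow_add h3

theorem degreeOf_inc (n : ℕ) (c : MvPolynomial (Fin n) Qb) : (inc n c).degreeOf n = 0 := by
  by_contra h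
  have h1 : n ∈ (inc n c).vars := MvPolynomial.mem_vars_iff_degreeOf_ne_zero.2 h
  have h2 := MvPolynomial.vars_rename (Fin.val : Fin n → ℕ) c
  have h3 := h2 h1
  rw [mem_image] at h3
  obtain ⟨a, -, ha⟩ := h3
  have := a.2
  omega

theorem monicIn_of (hval : ∀ t ∈ p, ∀ j ∈ t.2, j < n + 1) (hP : (toP n (val ν p)).Monic)
    (hd : (toP n (val ν p)).natDegree ≠ 0) : MonicIn ν n p := by
  set P := toP n (val ν p) with hPdef
  set d := P.natDegree with hdd
  have h1 := frP_toP (ν := ν) hval
  rw [← hPdef] at h1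
  have h2 : P = Polynomial.X ^ d + (P - Polynomial.X ^ d) := by ring
  have h3 : (P - Polynomial.X ^ d).natDegree < d := by
    have h4 : (P - Polynomial.X ^ d).degree < P.degree := by
      refine Polynomial.degree_sub_lt_left ?_ hP.ne_zero ?_
      · rw [Polynomial.degree_X_pow, Polynomial.degree_eq_natDegree hP.ne_zero]
      · rw [hP.leadingCoeff, Polynomial.leadingCoeff_X_pow]
    by_cases h0 : P - Polynomial.X ^ d = 0
    · rw [h0, Polynomial.natDegree_zero]
      omega
    · exact Polynomial.natDegree_lt_natDegree h0 h4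
  refine ⟨d, (P - Polynomial.X ^ d).eval₂ (inc n :
      MvPolynomial (Fin n) Qb →+* MvPolynomial ℕ Qb) (MvPolynomial.X n), ?_, ?_⟩
  · rw [← h1]
    conv_lhs => rw [h2]
    rw [Polynomial.eval₂_add, Polynomial.eval₂_pow, Polynomial.eval₂_X]
  · rw [Polynomial.eval₂_eq_sum_range]
    refine lt_of_le_of_lt (MvPolynomial.degreeOf_sum_le _ _ _) ?_
    rw [Finset.sup_lt_iff (by rw [bot_eq_zero]; omega)]
    intro e he
    rw [mem_range] at he
    refine lt_of_le_of_lt (MvPolynomial.degreeOf_mul_le _ _ _) ?_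
    have h5 : ((inc n : MvPolynomial (Fin n) Qb →+* MvPolynomial ℕ Qb)
        ((P - Polynomial.X ^ d).coeff e)).degreeOf n = 0 := degreeOf_inc n _
    rw [h5, zero_add]
    have h6 := MvPolynomial.degreeOf_pow_le n (MvPolynomial.X n : MvPolynomial ℕ Qb) e
    rw [MvPolynomial.degreeOf_X, if_pos rfl] at h6
    omega

end Deg

section Red

variable {ν : ℕ → Qb} {N m n u u' : ℕ} {p : Poly}

/-- the forms over the function field of the variety and of `AdjoinRoot` -/
theorem zeroQ_iff (hn : MM m ≤ n) : ZeroQ ν m n p ↔ IsoG m (toP n (val ν p)) := by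
  obtain ⟨e, he⟩ := iso_hyp ν n p
  obtain ⟨g, hg⟩ := frac_equiv e
  have key : ∀ z : ℕ → FractionRing (CR ν (n + 1, [p])),
      gq (fun i j => algebraMap (AdjoinRoot (toP n (val ν p))) (FractionRing (AdjoinRoot
        (toP n (val ν p)))) (AdjoinRoot.of _ (xw Qb n (ix i j)))) m (fun i => g (z i)) =
      g (gq (fun i j => fx ν (n + 1, [p]) (ix i j)) m z) := by
    intro z
    unfold gq
    rw [map_sum]
    refine sum_congr rfl fun i hi => ?_
    rw [map_sum]
    refine sum_congr rfl fun j hj => ?_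
    rw [map_mul, map_mul]
    congr 1
    show _ = g (algebraMap (CR ν (n + 1, [p])) (FractionRing (CR ν (n + 1, [p])))
      (cls ν (n + 1, [p]) (ix i j)))
    have h1 : ix i j < n := lt_of_lt_of_le (ix_lt (mem_range.1 hi) (mem_range.1 hj)) hn
    rw [hg, he _ h1]
    rfl
  constructor
  · rintro ⟨z, ⟨l, hl, hz⟩, h⟩
    refine ⟨fun l => g (z l), ⟨l, hl, ?_⟩, ?_⟩
    · exact (map_ne_zero_iff g g.injective).2 hz
    · rw [key, h, map_zero]
  · rintro ⟨z, ⟨l, hl, hz⟩, h⟩
    refine ⟨fun l => g.symm (z l), ⟨l, hl, ?_⟩, ?_⟩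
    · exact (map_ne_zero_iff g.symm g.symm.injective).2 hz
    · apply g.injective
      rw [← key, map_zero, ← h]
      congr 1
      funext l
      exact g.apply_symm_apply _

/-- **The reduction.** -/
theorem red (hI : S_IRR) (hE : S_EQV) (hm : 2 ≤ m) (hN : 2 * m ≤ 2 ^ N) (hu : ν u = 1)
    (hu' : ν u' = -1) (hp : Hyp2 ν m n p) :
    IsVar ν (fq m N u u' (n, p)) ∧ Unirational ν (fq m N u u' (n, p)) ∧
      HasDim ν (fq m N u u' (n, p)) (n + (N + m * 2 ^ N + 2 ^ (N + 1)) - MM m) ∧
      [Rational ν (fq m N u u' (n, p)), StablyRational ν (fq m N u u' (n, p)),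
        ZeroQ ν m n p].TFAE := by
  obtain ⟨hMn, hv, hmon⟩ := hp
  obtain ⟨t, rfl⟩ : ∃ t, n = MM m + t := ⟨n - MM m, by omega⟩
  have hN2 : 2 ≤ N := by
    by_contra h
    have h1 : 2 ^ N ≤ 2 ^ 1 := Nat.pow_le_pow_right (by norm_num) (by omega)
    omega
  have hval : ∀ q ∈ p, ∀ j ∈ q.2, j < MM m + t + 1 := hv.1 p (by simp)
  obtain ⟨hPm, hPd⟩ := monic_toP hmon
  have hvar := mem_vars hPd
  obtain ⟨hprime, -⟩ := prime_toP hv hvar
  set P := toP (MM m + t) (val ν p) with hP
  set n' := N + m * 2 ^ N + t with hn'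
  set p' := subst N m p with hp'
  have hPP : toP n' (val ν p') = P.map (Phi Qb N m t : _ →+* MvPolynomial (Fin n') Qb) :=
    subst_toP code hval
  have hirr : Irreducible (toP n' (val ν p')) := by
    rw [hPP]
    exact hI Qb N m t P (by omega) hN hprime.irreducible hPm
  have hd' : (toP n' (val ν p')).natDegree ≠ 0 := by
    rw [hPP, hPm.natDegree_map]
    exact hPd
  have hvar' := mem_vars hd'
  have hv' : IsVar ν (n' + 1, [p']) := by
    refine ⟨?_, ?_⟩
    · intro f hf
      simp only [List.mem_singleton] at hf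
      rw [hf]
      exact (code N m).2.2 (t + 1) p hval
    · obtain ⟨e, -⟩ := iso_hyp ν n' p'
      have hdomA : IsDomain (AdjoinRoot (toP n' (val ν p'))) :=
        AdjoinRoot.isDomain_of_prime hirr.prime
      exact e.toMulEquiv.isDomain
  have hfq : fq m N u u' (MM m + t, p) = fsys N u u' (n', p') := by
    show fsys N u u' (N + m * 2 ^ N + (MM m + t - MM m), subst N m p) = _
    rw [Nat.add_sub_cancel_left]
  rw [hfq]
  obtain ⟨h1, h2, h3, h4⟩ := main_red hN2 (show N ≤ n' by omega) hu hu' hv' hvar'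
  refine ⟨h1, h2, ?_, ?_⟩
  · show Algebra.trdeg Qb _ = _
    rw [h3, Nat.cast_inj]
    omega
  · have h5 : Sect ν N n' p' ↔ ZeroQ ν m (MM m + t) p := by
      rw [sect_iff (show N ≤ n' by omega), zeroQ_iff (by omega), hPP]
      obtain ⟨ι, hι⟩ := IsAlgClosed.exists_pow_nat_eq (-1 : Qb) (show 0 < 2 by norm_num)
      exact hE Qb ι hι N m t P (by omega) hN hprime.irreducible hPm hPd
    rw [← h5]
    exact h4

end Red

section Cov

variable {ν : ℕ → Qb} {m : ℕ}

/-- every irreducible monic polynomial is the polynomial of a hypersurface -/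
theorem exists_hyp2 (hν : Function.Surjective ν) {n : ℕ} (hn : MM m ≤ n)
    {P : Polynomial (MvPolynomial (Fin n) Qb)} (hP : Irreducible P) (hPm : P.Monic)
    (hd : P.natDegree ≠ 0) :
    ∃ p : Poly, Hyp2 ν m n p ∧ (ZeroQ ν m n p ↔ IsoG m P) := by
  obtain ⟨p, hp, hp'⟩ := exists_code hν P
  obtain ⟨e, -⟩ := iso_hyp ν n p
  refine ⟨p, ⟨hn, ⟨?_, ?_⟩, ?_⟩, ?_⟩
  · intro f hf
    simp only [List.mem_singleton] at hf
    rw [hf]
    exact hp
  · have hdomA : IsDomain (AdjoinRoot (toP n (val ν p))) := by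
      rw [hp']
      exact AdjoinRoot.isDomain_of_prime hP.prime
    exact e.toMulEquiv.isDomain
  · exact monicIn_of hp (by rw [hp']; exact hPm) (by rw [hp']; exact hd)
  · rw [zeroQ_iff hn, hp']

theorem covers2 (hM : S_MOD) (hm : 2 ≤ m) (hν : Function.Surjective ν) : Covers2 ν m := by
  intro F _ _ _ A B hA hB
  have h0 : CharZero F := charZero_of_injective_algebraMap (algebraMap Qb F).injective
  have hess1 : Algebra.EssFiniteType F (RatFunc F) := by
    have : Algebra.EssFiniteType (Polynomial F) (RatFunc F) :=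
      Algebra.EssFiniteType.of_isLocalization (RatFunc F) (nonZeroDivisors (Polynomial F))
    exact Algebra.EssFiniteType.comp F (Polynomial F) (RatFunc F)
  have htow : IsScalarTower Qb F (RatFunc F) := inferInstance
  have hess : Algebra.EssFiniteType Qb (RatFunc F) := Algebra.EssFiniteType.comp Qb F (RatFunc F)
  obtain ⟨t, ht, P, hP, hPm, hPd, hiff⟩ := hM Qb (RatFunc F) m
    (fun i j => RatFunc.C (A i j) + RatFunc.X * RatFunc.C (B i j)) hm
    (fun i j => by rw [hA i j, hB i j])
  obtain ⟨p, hp, hz⟩ := exists_hyp2 hν (show MM m ≤ MM m + t by omega) hP hPm hPd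
  refine ⟨MM m + t, p, hp, ?_, ?_⟩
  · have h2 : Algebra.IsAlgebraic (Polynomial F) (RatFunc F) :=
      IsLocalization.isAlgebraic _ (nonZeroDivisors (Polynomial F))
    have h3 := (IsTranscendenceBasis.polynomial Unit F).algebraMap_comp (A := RatFunc F)
    have h1 : Algebra.trdeg F (RatFunc F) = 1 := by
      rw [← h3.cardinalMk_eq_trdeg]
      simp
    have h4 := trdeg_add_eq Qb F (A := RatFunc F)
    rw [Nat.cast_add, ht, ← h4, h1, add_assoc, add_comm (1 : Cardinal)]
  · rw [hz, hiff]
    constructor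
    · exact ab F m A B hA hB
    · rintro ⟨z, ⟨i, hi, hzi⟩, h1, h2⟩
      refine ⟨fun l => RatFunc.C (z l), ⟨i, hi, (map_ne_zero RatFunc.C).2 hzi⟩, ?_⟩
      have h3 : gq (fun i j => RatFunc.C (A i j) + RatFunc.X * RatFunc.C (B i j)) m
          (fun l => RatFunc.C (z l)) = RatFunc.C (gq A m z) + RatFunc.X * RatFunc.C (gq B m z) := by
        unfold gq
        rw [map_sum, map_sum, mul_sum, ← sum_add_distrib]
        refine sum_congr rfl fun i _ => ?_
        rw [map_sum, map_sum, mul_sum, ← sum_add_distrib]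
        refine sum_congr rfl fun j _ => ?_
        simp only [map_mul]
        ring
      rw [h3, h1, h2, map_zero, mul_zero, add_zero]

end Cov

theorem fq_prim (m N u u' : ℕ) : Primrec (fq m N u u') := by
  have h1 : Primrec (fun q : ℕ × Poly => (N + m * 2 ^ N + (q.1 - MM m), subst N m q.2)) :=
    Primrec.pair (Primrec.nat_add.comp (Primrec.const _)
      (Primrec.nat_sub.comp Primrec.fst (Primrec.const _))) ((code N m).1.comp Primrec.snd)
  exact (fsys_prim N u u').comp h1

end Pool.Agent.H901.Q.Asm
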