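import Pool.Agent.H901.Q.Stm
import Pool.Agent.H901.GEN2

/-!
Project Q: the definitions of the final statement.
-/

set_option autoImplicit false

namespace Pool.Agent.H901.Q

open Finset Pool.Agent.H901

/-- The polynomial `p` is monic in the variable `x_n`, of positive degree. -/
def MonicIn (ν : ℕ → Qb) (n : ℕ) (p : Poly) : Prop :=
  ∃ (d : ℕ) (r : MvPolynomial ℕ Qb), val ν p = MvPolynomial.X n ^ d + r ∧ r.degreeOf n < d

/-- The polynomial `p` defines an integral hypersurface in the affine space with the coordinates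
`x_0, …, x_n`, and is monic in `x_n`; here `n` is at least the number `m (m + 1) / 2` of the
coefficients of a quadratic form in `m` variables. -/
def Hyp2 (ν : ℕ → Qb) (m n : ℕ) (p : Poly) : Prop :=
  MM m ≤ n ∧ IsVar ν (n + 1, [p]) ∧ MonicIn ν n p

/-- The quadratic form `∑ x_(ix i j) z_i z_j`, `i, j < m`, has a nontrivial zero over the function
field of the hypersurface `p = 0`. -/
def ZeroQ (ν : ℕ → Qb) (m n : ℕ) (p : Poly) : Prop :=
  ∃ z : ℕ → FractionRing (CR ν (n + 1, [p])), (∃ i < m, z i ≠ 0) ∧
    gq (fun i j => fx ν (n + 1, [p]) (ix i j)) m z = 0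

/-- For all hypersurfaces `p = 0` the system `f (n, p)` defines a unirational variety of dimension
`dim + n`, and it is rational if and only if it is stably rational, if and only if the quadratic form
has a nontrivial zero over the function field of `p = 0`. -/
def Reduces2 (ν : ℕ → Qb) (m D : ℕ) (f : ℕ × Poly → Sys) : Prop :=
  ∀ (n : ℕ) (p : Poly), Hyp2 ν m n p →
    IsVar ν (f (n, p)) ∧ Unirational ν (f (n, p)) ∧ HasDim ν (f (n, p)) (n + D - MM m) ∧
    [Rational ν (f (n, p)), StablyRational ν (f (n, p)), ZeroQ ν m n p].TFAE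

/-- Let `A`, `B` be symmetric `m × m` matrices over a finitely generated extension field `F` of the
field of the algebraic numbers. The quadratic forms with these matrices have a common nontrivial zero
over `F` if and only if the form `∑ x_(ix i j) z_i z_j` has a nontrivial zero over the function field
of `p = 0`, for a suitable hypersurface `p = 0` of dimension `m (m + 1) / 2 + 1 + dim F`. -/
def Covers2 (ν : ℕ → Qb) (m : ℕ) : Prop :=
  ∀ (F : Type) [Field F] [Algebra Qb F] [Algebra.EssFiniteType Qb F] (A B : ℕ → ℕ → F),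
    (∀ i j, A i j = A j i) → (∀ i j, B i j = B j i) → ∃ (n : ℕ) (p : Poly), Hyp2 ν m n p ∧
      (n : Cardinal) = MM m + 1 + Algebra.trdeg Qb F ∧
      (ZeroQ ν m n p ↔ ∃ z : ℕ → F, (∃ i < m, z i ≠ 0) ∧ gq A m z = 0 ∧ gq B m z = 0)

/-- The partial function `ψ` decides whether the quadratic form has a nontrivial zero over the
function field of a hypersurface of dimension `n`. -/
def Decides2 (ν : ℕ → Qb) (m : ℕ) (ψ : ℕ × Poly →. Bool) (n : ℕ) : Prop :=
  ∀ p : Poly, Hyp2 ν m n p → ∃ b ∈ ψ (n, p), (b = true ↔ ZeroQ ν m n p)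

/-- the reduction -/
noncomputable def fq (m N u u' : ℕ) (q : ℕ × Poly) : Sys :=
  fsys N u u' (N + m * 2 ^ N + (q.1 - MM m), subst N m q.2)

end Pool.Agent.H901.Q
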