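import Pool.Agent.H901.Q.EqvD

/-!
# Project Q, part EQV (helper71)
-/

set_option autoImplicit false

namespace Pool.Agent.H901.Q

open Finset Polynomial Pool.Agent.H901 Eqv

namespace Eqv

theorem sb_congr {R : Type*} [CommRing R] (N m t : ℕ) {θ θ' : ℕ → R}
    (h : ∀ j < N + m * 2 ^ N + t, θ j = θ' j) {l : ℕ} (hl : l < MM m + t) :
    sb N m θ l = sb N m θ' l := by
  unfold sb
  split_ifs with hl'
  · obtain ⟨h1, h2, h3⟩ := tri_get m l hl'
    have hi : ((tri m).getD l (0, 0)).1 < m := lt_of_le_of_lt h1 h2
    unfold gram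
    refine pb_congr' _ _ N (fun j hj => by rw [h j (by omega)]) (fun l hl => h _ ?_)
      (fun l hl => h _ ?_)
    · have := vec_lt (N := N) hi hl
      omega
    · have := vec_lt (N := N) h2 hl
      omega
  · exact h _ (by omega)

theorem trdeg_aux {k F E : Type} [Field k] [Field F] [Field E] [Algebra k F] [Algebra k E]
    [Algebra F E] [IsScalarTower k F E] {n s n' : ℕ} (h : n' = s + n)
    (h1 : (n' : Cardinal) ≤ Algebra.trdeg k E) (h2 : Algebra.trdeg k F ≤ n) :
    (s : Cardinal) ≤ Algebra.trdeg F E := by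
  have h3 : Algebra.trdeg k F + Algebra.trdeg F E = Algebra.trdeg k E := trdeg_add_eq k F
  rw [h, ← h3, Nat.cast_add] at h1
  rw [← Cardinal.add_nat_le_add_nat_iff n]
  refine h1.trans ?_
  rw [add_comm]
  gcongr

theorem isot_iff {K : Type} [Field K] (a : ℕ → K) (i : ℕ) : Isot a i ↔ ¬ An a i := by
  constructor
  · rintro ⟨z, ⟨m, hm, hz⟩, h0⟩ h
    exact hz (h z h0 m hm)
  · intro h
    unfold An at h
    push Not at h
    obtain ⟨z, h0, m, hm, hz⟩ := h
    exact ⟨z, ⟨m, hm, hz⟩, h0⟩

end Eqv

/-- part EQV -/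
theorem eqv (h1 : S_HYP) (h2 : S_ANIS) (h3 : S_IRR) : S_EQV := by
  intro k _ _ ι hι N m t P hN hm hP hmon hdeg
  have hm' : m ≤ 2 ^ N := by omega
  obtain ⟨Φ, hΦ⟩ : ∃ Φ : MvPolynomial (Fin (MM m + t)) k →+*
    MvPolynomial (Fin (N + m * 2 ^ N + t)) k, Φ = (Phi k N m t : _ →+* _) := ⟨_, rfl⟩
  rw [← hΦ]
  have hΦ' : ∀ r, Phi k N m t r = Φ r := fun r => by
    rw [hΦ]
    rfl
  have hP' : Irreducible (P.map Φ) := by
    rw [hΦ]
    exact h3 k N m t P hN hm hP hmon
  have hmon' : (P.map Φ).Monic := hmon.map Φ
  have hdeg' : (P.map Φ).natDegree ≠ 0 := by rwa [hmon.natDegree_map]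
  have hdom : IsDomain (AdjoinRoot P) := AdjoinRoot.isDomain_of_prime hP.prime
  have hdom' : IsDomain (AdjoinRoot (P.map Φ)) := AdjoinRoot.isDomain_of_prime hP'.prime
  have hcF : CharZero (FractionRing (AdjoinRoot P)) :=
    charZero_of_injective_algebraMap (algebraMap k (FractionRing (AdjoinRoot P))).injective
  -- the old variables and the new variables
  let y : ℕ → FractionRing (AdjoinRoot P) := fun l => rho P (xw k (MM m + t) l)
  let x' : ℕ → FractionRing (AdjoinRoot (P.map Φ)) :=
    fun j => rho (P.map Φ) (xw k (N + m * 2 ^ N + t) j)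
  obtain ⟨θ, hθ, hθy⟩ := psi h1 N m t hN hm y (rho_indep hdeg) (rho_alg hmon)
  let Ψ : MvPolynomial (Fin (N + m * 2 ^ N + t)) k →ₐ[k] FractionRing (MvPolynomial
    (Fin (N + m * 2 ^ N - MM m)) (FractionRing (AdjoinRoot P))) :=
    MvPolynomial.aeval (fun j : Fin (N + m * 2 ^ N + t) => θ j)
  have hΨ : Function.Injective Ψ := hθ
  have hΨx : ∀ j < N + m * 2 ^ N + t, Ψ (xw k (N + m * 2 ^ N + t) j) = θ j := by
    intro j hj
    unfold xw
    rw [dif_pos hj]
    exact MvPolynomial.aeval_X _ _
  have hΨΦ : ∀ r, Ψ (Φ r) = algebraMap (FractionRing (AdjoinRoot P)) _ (rho P r) := by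
    intro r
    induction r using MvPolynomial.induction_on with
    | C c =>
      have e1 : Φ (MvPolynomial.C c) = MvPolynomial.C c := by
        rw [hΦ]
        exact (Phi k N m t).commutes c
      rw [e1, rho_C]
      exact (Ψ.commutes c).trans (IsScalarTower.algebraMap_apply k (FractionRing (AdjoinRoot P)) _ c)
    | add p q hp hq => rw [map_add, map_add, map_add, map_add, hp, hq]
    | mul_X p l hp =>
      rw [map_mul, map_mul, map_mul, map_mul, hp, ← xw_fin, ← hθy l]
      congr 1
      have e2 := hom_Phi N m t Ψ.toRingHom l l.2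
      rw [hΦ]
      exact e2.trans (sb_congr N m t hΨx l.2)
  have hΦi : Function.Injective Φ := by
    have e1 : Function.Injective (fun r => Ψ (Φ r)) := by
      intro r r' hrr
      simp only [hΨΦ] at hrr
      exact rho_injective hdeg ((algebraMap (FractionRing (AdjoinRoot P)) _).injective hrr)
    exact fun r r' hrr => e1 (congrArg Ψ hrr)
  -- the embeddings of the function fields
  obtain ⟨ψ₁, hψ₁, hψ₁r⟩ := emb_root' hP hdeg ((rho (P.map Φ)).comp Φ)
    ((rho_injective hdeg').comp hΦi) (rt (P.map Φ)) (by rw [← eval₂_map]; exact eval_rt _)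
  obtain ⟨ψ₂, hψ₂, hψ₂r⟩ := emb_root' hP' hdeg' Ψ.toRingHom
    hΨ (algebraMap (FractionRing (AdjoinRoot P)) _ (rt P)) (by
      have e1 : Ψ.toRingHom.comp Φ =
          (algebraMap (FractionRing (AdjoinRoot P)) (FractionRing (MvPolynomial
            (Fin (N + m * 2 ^ N - MM m)) (FractionRing (AdjoinRoot P))))).comp (rho P) :=
        RingHom.ext hΨΦ
      rw [eval₂_map, e1, ← hom_eval₂, eval_rt, map_zero])
  have hψ : ∀ x, ψ₂ (ψ₁ x) = algebraMap (FractionRing (AdjoinRoot P)) _ x := by
    refine hom_unique (ψ₂.comp ψ₁) (algebraMap (FractionRing (AdjoinRoot P)) _) (fun r => ?_) ?_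
    · rw [RingHom.comp_apply, hψ₁]
      exact (hψ₂ (Φ r)).trans (hΨΦ r)
    · rw [RingHom.comp_apply, hψ₁r]
      exact hψ₂r
  have hy : ∀ l < MM m + t, ψ₁ (y l) = sb N m x' l := by
    intro l hl
    have e1 := hom_Phi N m t (rho (P.map Φ)) l hl
    rw [hΦ'] at e1
    exact (hψ₁ _).trans e1
  have hgram : ∀ i < m, ∀ j < m, gram N x' i j = ψ₁ (y (ix i j)) := by
    intro i hi j hj
    rw [hy _ (by have := ix_lt hi hj; omega), sb_ix N m x' hi hj]
  have hι' : (algebraMap k (FractionRing (AdjoinRoot (P.map Φ))) ι) ^ 2 = -1 := by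
    rw [← map_pow, hι, map_neg, map_one]
  constructor
  · intro hiso
    by_contra hno
    have hGA : GA (fun i j => y (ix i j)) m := by
      intro z hz i hi
      by_contra h
      exact hno ⟨z, ⟨i, hi, h⟩, hz⟩
    have hGM := ga_ff hGA (N + m * 2 ^ N - MM m)
    have hGE : GA (fun i j => ψ₁ (y (ix i j))) m := by
      apply ga_of_map ψ₂
      simp only [hψ]
      exact hGM
    let _ : Algebra (FractionRing (AdjoinRoot P)) (FractionRing (AdjoinRoot (P.map Φ))) :=
      ψ₁.toAlgebra
    have htower : IsScalarTower k (FractionRing (AdjoinRoot P))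
        (FractionRing (AdjoinRoot (P.map Φ))) := by
      refine IsScalarTower.of_algebraMap_eq (fun c => ?_)
      have e1 := hψ₁ (MvPolynomial.C c)
      have e2 : Φ (MvPolynomial.C c) = MvPolynomial.C c := by
        rw [hΦ]
        exact (Phi k N m t).commutes c
      rw [RingHom.comp_apply, e2, rho_C] at e1
      rw [← e1, ← rho_C]
      rfl
    have hAn : An (fun j => -x' j) N := by
      refine h2 (FractionRing (AdjoinRoot P)) (FractionRing (AdjoinRoot (P.map Φ)))
        (fun j => -x' j) N m (fun i l => x' (N + i * 2 ^ N + l)) (fun i j => y (ix i j)) hm'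
        (fun i j => by rw [ix_comm]) (fun j hj => ?_) hgram ?_ ?_ hGE
      · have e1 : xw k (N + m * 2 ^ N + t) j = MvPolynomial.X ⟨j, by omega⟩ := by
          unfold xw
          rw [dif_pos (by omega)]
        intro e2
        have e3 : x' j = 0 := neg_eq_zero.1 e2
        have e4 := (map_eq_zero_iff _ (rho_injective hdeg')).1 e3
        rw [e1] at e4
        exact MvPolynomial.X_ne_zero _ e4
      · rw [eq_top_iff]
        intro x _
        have hvar : ∀ j : Fin (N + m * 2 ^ N + t), x' j ∈ (IntermediateField.adjoin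
            (FractionRing (AdjoinRoot P)) (gens (fun j => -x' j)
              (fun i l => x' (N + i * 2 ^ N + l)) N m)).toSubfield := by
          intro j
          rcases lt_or_ge (j : ℕ) N with hj | hj
          · have e1 : -x' j ∈ IntermediateField.adjoin
              (FractionRing (AdjoinRoot P)) (gens (fun j => -x' j)
              (fun i l => x' (N + i * 2 ^ N + l)) N m) :=
              IntermediateField.subset_adjoin _ _ (Or.inl ⟨j, hj, rfl⟩)
            have e2 := neg_mem e1
            rwa [neg_neg] at e2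
          · rcases lt_or_ge (j : ℕ) (N + m * 2 ^ N) with hj' | hj'
            · have hi : (j - N) / 2 ^ N < m := by
                rw [Nat.div_lt_iff_lt_mul (Nat.two_pow_pos N)]
                omega
              have hl : ((j : ℕ) - N) % 2 ^ N < 2 ^ N := Nat.mod_lt _ (Nat.two_pow_pos N)
              have e3 : (j : ℕ) = N + ((j - N) / 2 ^ N) * 2 ^ N + (j - N) % 2 ^ N := by
                have := Nat.div_add_mod' ((j : ℕ) - N) (2 ^ N)
                omega
              exact IntermediateField.subset_adjoin _ _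
                (Or.inr ⟨_, hi, _, hl, congrArg x' e3⟩)
            · obtain ⟨e, he⟩ := Nat.exists_eq_add_of_le hj'
              have hj2 := j.2
              have e4 : x' j = algebraMap (FractionRing (AdjoinRoot P)) _ (y (MM m + e)) := by
                have e5 := hy (MM m + e) (by omega)
                unfold sb at e5
                rw [if_neg (by omega), Nat.add_sub_cancel_left, ← he] at e5
                exact e5.symm
              rw [e4]
              exact IntermediateField.algebraMap_mem _ _
        refine gen_top (IntermediateField.adjoin (FractionRing (AdjoinRoot P))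
          (gens (fun j => -x' j) (fun i l => x' (N + i * 2 ^ N + l)) N m)).toSubfield
          (fun r => ?_) ?_ x
        · refine rho_mem _ (fun c => ?_) hvar r
          rw [IsScalarTower.algebraMap_apply k (FractionRing (AdjoinRoot P))
            (FractionRing (AdjoinRoot (P.map Φ)))]
          exact IntermediateField.algebraMap_mem _ _
        · have e6 : algebraMap (AdjoinRoot (P.map Φ)) (FractionRing (AdjoinRoot (P.map Φ)))
              (AdjoinRoot.root (P.map Φ)) =
              algebraMap (FractionRing (AdjoinRoot P)) (FractionRing (AdjoinRoot (P.map Φ)))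
                (rt P) := hψ₁r.symm
          rw [e6]
          exact IntermediateField.algebraMap_mem _ _
      · have e1 : ((N + m * 2 ^ N + t : ℕ) : Cardinal) ≤
            Algebra.trdeg k (FractionRing (AdjoinRoot (P.map Φ))) := by
          have h := (rho_indep (P := P.map Φ) hdeg').cardinalMk_le_trdeg
          rwa [Cardinal.mk_fin] at h
        exact trdeg_aux (by have := MM_le hm; omega) e1 (rho_trdeg hmon)
    exact (isot_iff _ _).1 (isot_neg hι' (a := fun j => -x' j) (by
      simp only [neg_neg]
      exact hiso)) hAn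
  · rintro ⟨z, ⟨i, hi, hz⟩, h0⟩
    have h4 : Isot (fun j => -x' j) N := by
      refine isot_of_gram N m x' hm' (det_ne N m t hm' (rho (P.map Φ)) (rho_injective hdeg'))
        (fun i => ψ₁ (z i)) ⟨i, hi, (map_ne_zero ψ₁).2 hz⟩ ?_
      have e1 : gq (fun i j => gram N x' i j) m (fun i => ψ₁ (z i)) =
          gq (fun i j => ψ₁ (y (ix i j))) m (fun i => ψ₁ (z i)) := by
        unfold gq
        refine sum_congr rfl fun i hi => sum_congr rfl fun j hj => ?_
        beta_reduce
        rw [hgram i (mem_range.1 hi) j (mem_range.1 hj)]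
      have h0' : gq (fun i j => y (ix i j)) m z = 0 := h0
      rw [e1, ← gq_map, h0', map_zero]
    exact isot_neg hι' h4

end Pool.Agent.H901.Q
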