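import Pool.Agent.H901.Q.Stm

/-!
# Project Q, part EQV (helper71): combinatorics of the substitution, generation, anisotropy
-/

set_option autoImplicit false

namespace Pool.Agent.H901.Q.Eqv

open Finset Polynomial Pool.Agent.H901 Pool.Agent.H901.Q

/-! ### the list of the pairs -/

theorem MM_succ (m : ℕ) : MM (m + 1) = MM m + (m + 1) := by
  show (m + 1) * (m + 1 + 1) / 2 = m * (m + 1) / 2 + (m + 1)
  have h : (m + 1) * (m + 1 + 1) = m * (m + 1) + 2 * (m + 1) := by ring
  rw [h, Nat.add_mul_div_left _ _ (by norm_num : 0 < 2)]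

theorem tri_succ (m : ℕ) : tri (m + 1) = tri m ++ (List.range (m + 1)).map (fun i => (i, m)) := by
  unfold tri
  conv_lhs => rw [List.range_succ]
  rw [List.flatMap_append, List.flatMap_singleton]

theorem tri_length (m : ℕ) : (tri m).length = MM m := by
  induction m with
  | zero => rfl
  | succ m ih => rw [tri_succ, List.length_append, ih, List.length_map, List.length_range, MM_succ]

theorem tri_get_lt (m : ℕ) {l : ℕ} (hl : l < MM m) :
    (tri (m + 1)).getD l (0, 0) = (tri m).getD l (0, 0) := by
  rw [tri_succ, List.getD_append _ _ _ _ (by rw [tri_length]; exact hl)]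

theorem tri_get_new (m : ℕ) {i : ℕ} (hi : i < m + 1) :
    (tri (m + 1)).getD (MM m + i) (0, 0) = (i, m) := by
  rw [tri_succ, List.getD_append_right _ _ _ _ (by rw [tri_length]; omega), tri_length,
    Nat.add_sub_cancel_left, List.getD_eq_getElem _ _ (by simpa using hi)]
  simp

theorem tri_get (m : ℕ) : ∀ l < MM m, ((tri m).getD l (0, 0)).1 ≤ ((tri m).getD l (0, 0)).2 ∧
    ((tri m).getD l (0, 0)).2 < m ∧
    ix ((tri m).getD l (0, 0)).1 ((tri m).getD l (0, 0)).2 = l := by
  induction m with
  | zero => intro l hl; exact absurd hl (by simp [MM])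
  | succ m ih =>
    intro l hl
    rcases lt_or_ge l (MM m) with h | h
    · rw [tri_get_lt m h]
      obtain ⟨h1, h2, h3⟩ := ih l h
      exact ⟨h1, by omega, h3⟩
    · obtain ⟨i, rfl⟩ := Nat.exists_eq_add_of_le h
      rw [MM_succ] at hl
      have hi : i < m + 1 := by omega
      rw [tri_get_new m hi]
      refine ⟨by simpa using (by omega : i ≤ m), by simp, ?_⟩
      show ix i m = MM m + i
      unfold ix
      rw [if_pos (by omega)]

theorem tri_ix (m : ℕ) : ∀ i j, i ≤ j → j < m → ix i j < MM m ∧
    (tri m).getD (ix i j) (0, 0) = (i, j) := by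
  induction m with
  | zero => intro i j _ hj; omega
  | succ m ih =>
    intro i j hij hj
    rcases Nat.lt_or_ge j m with h | h
    · obtain ⟨h1, h2⟩ := ih i j hij h
      refine ⟨by rw [MM_succ]; omega, ?_⟩
      rw [tri_get_lt m h1, h2]
    · have hjm : j = m := by omega
      subst hjm
      have e : ix i j = MM j + i := by
        unfold ix
        rw [if_pos hij]
      rw [e]
      exact ⟨by rw [MM_succ]; omega, tri_get_new j (by omega)⟩

theorem ix_comm (i j : ℕ) : ix i j = ix j i := by
  unfold ix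
  split_ifs with h1 h2 h2
  · have : i = j := by omega
    rw [this]
  · rfl
  · rfl
  · omega

theorem ix_lt {m i j : ℕ} (hi : i < m) (hj : j < m) : ix i j < MM m := by
  rcases le_total i j with h | h
  · exact (tri_ix m i j h hj).1
  · rw [ix_comm]
    exact (tri_ix m j i h hi).1

/-! ### the Gram matrix -/

theorem pb_map {R S : Type*} [CommRing R] [CommRing S] (φ : R →+* S) (a : ℕ → R) (i : ℕ)
    (z w : ℕ → R) : φ (pb a i z w) = pb (fun j => φ (a j)) i (fun m => φ (z m)) (fun m => φ (w m)) := by
  unfold pb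
  rw [map_sum]
  refine sum_congr rfl fun m _ => ?_
  rw [map_mul, map_mul, pc_map φ]

theorem pc_congr' {R : Type*} [CommRing R] (a b : ℕ → R) (i : ℕ) (h : ∀ j < i, a j = b j) :
    ∀ m, pc a i m = pc b i m := by
  induction i with
  | zero => intro m; rfl
  | succ i ih =>
    intro m
    rw [pc, pc, ih (fun j hj => h j (by omega)), ih (fun j hj => h j (by omega)),
      h i (by omega)]

theorem pb_congr' {R : Type*} [CommRing R] (a b : ℕ → R) (i : ℕ) (h : ∀ j < i, a j = b j)
    {z z' w w' : ℕ → R} (hz : ∀ m < 2 ^ i, z m = z' m) (hw : ∀ m < 2 ^ i, w m = w' m) :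
    pb a i z w = pb b i z' w' := by
  unfold pb
  refine sum_congr rfl fun m hm => ?_
  rw [pc_congr' a b i h, hz m (mem_range.1 hm), hw m (mem_range.1 hm)]

theorem gram_map {R S : Type*} [CommRing R] [CommRing S] (φ : R →+* S) (N : ℕ) (θ : ℕ → R)
    (i j : ℕ) : φ (gram N θ i j) = gram N (fun l => φ (θ l)) i j := by
  unfold gram
  rw [pb_map]
  simp only [map_neg]

theorem gram_symm {R : Type*} [CommRing R] (N : ℕ) (θ : ℕ → R) (i j : ℕ) :
    gram N θ i j = gram N θ j i := pb_symm _ _ _ _

theorem sb_map {R S : Type*} [CommRing R] [CommRing S] (φ : R →+* S) (N m : ℕ) (θ : ℕ → R)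
    (l : ℕ) : φ (sb N m θ l) = sb N m (fun l => φ (θ l)) l := by
  unfold sb
  split_ifs
  · exact gram_map φ N θ _ _
  · rfl

/-- the substitution gives the Gram matrix -/
theorem sb_ix {R : Type*} [CommRing R] (N m : ℕ) (θ : ℕ → R) {i j : ℕ} (hi : i < m) (hj : j < m) :
    sb N m θ (ix i j) = gram N θ i j := by
  have key : ∀ i j, i ≤ j → j < m → sb N m θ (ix i j) = gram N θ i j := by
    intro i j hij hj
    obtain ⟨h1, h2⟩ := tri_ix m i j hij hj
    unfold sb
    rw [if_pos h1, h2]
  rcases le_total i j with h | h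
  · exact key i j h hj
  · rw [ix_comm, gram_symm]
    exact key j i h hi

/-- homomorphisms and `Phi` -/
theorem hom_Phi {k : Type} [Field k] {S : Type*} [CommRing S] (N m t : ℕ)
    (χ : MvPolynomial (Fin (N + m * 2 ^ N + t)) k →+* S) (l : ℕ) (hl : l < MM m + t) :
    χ (Phi k N m t (xw k (MM m + t) l)) =
      sb N m (fun j => χ (xw k (N + m * 2 ^ N + t) j)) l := by
  have h1 : xw k (MM m + t) l = MvPolynomial.X ⟨l, hl⟩ := by
    unfold xw
    rw [dif_pos hl]
  rw [h1]
  unfold Phi
  rw [MvPolynomial.aeval_X, sb_map]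

/-! ### scaling -/

/-- the product of the `y j` over the binary digits `1` of `m` -/
def wy {R : Type*} [CommRing R] (y : ℕ → R) : ℕ → ℕ → R
  | 0, _ => 1
  | i + 1, m => if m < 2 ^ i then wy y i m else y i * wy y i (m - 2 ^ i)

theorem pc_scale {R : Type*} [CommRing R] (a y : ℕ → R) (i m : ℕ) :
    pc (fun j => a j * y j ^ 2) i m = pc a i m * wy y i m ^ 2 := by
  induction i generalizing m with
  | zero =>
    rw [pc, pc, wy]
    ring
  | succ i ih =>
    rw [pc, pc, wy]
    split_ifs with h
    · exact ih m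
    · rw [ih]
      ring

theorem wy_ne {K : Type*} [Field K] {y : ℕ → K} (h : ∀ j, y j ≠ 0) (i m : ℕ) :
    wy y i m ≠ 0 := by
  induction i generalizing m with
  | zero =>
    rw [wy]
    exact one_ne_zero
  | succ i ih =>
    rw [wy]
    split_ifs with h'
    · exact ih m
    · exact mul_ne_zero (h i) (ih _)

/-- the signs of the slots do not matter if `-1` is a square -/
theorem isot_neg {K : Type} [Field K] {ι : K} (hι : ι ^ 2 = -1) {a : ℕ → K} {i : ℕ}
    (h : Isot (fun j => -a j) i) : Isot a i := by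
  have hι0 : ι ≠ 0 := by
    rintro rfl
    norm_num at hι
  obtain ⟨z, ⟨m, hm, hz⟩, h0⟩ := h
  refine ⟨fun m => wy (fun _ => ι) i m * z m, ⟨m, hm, mul_ne_zero (wy_ne (fun _ => hι0) i m) hz⟩, ?_⟩
  rw [← h0]
  unfold pq
  refine sum_congr rfl fun m _ => ?_
  have h1 : (fun j => -a j) = fun j => a j * (fun _ => ι) j ^ 2 := by
    funext j
    show -a j = a j * ι ^ 2
    rw [hι]
    ring
  rw [h1, pc_scale]
  ring

/-! ### anisotropic forms over rational function fields -/

theorem gq_map {R S : Type*} [CommRing R] [CommRing S] (φ : R →+* S) (g : ℕ → ℕ → R) (m : ℕ)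
    (z : ℕ → R) : φ (gq g m z) = gq (fun i j => φ (g i j)) m (fun i => φ (z i)) := by
  unfold gq
  simp only [map_sum, map_mul]

theorem gq_smul {R : Type*} [CommRing R] (g : ℕ → ℕ → R) (m : ℕ) (c : R) (z : ℕ → R) :
    gq g m (fun i => c * z i) = c ^ 2 * gq g m z := by
  unfold gq
  rw [mul_sum]
  refine sum_congr rfl fun i _ => ?_
  rw [mul_sum]
  refine sum_congr rfl fun j _ => ?_
  ring

theorem ga_ff {F : Type} [Field F] [CharZero F] {g : ℕ → ℕ → F} {m : ℕ} (h : GA g m) (s : ℕ) :
    GA (fun i j => algebraMap F (FractionRing (MvPolynomial (Fin s) F)) (g i j)) m := by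
  classical
  intro z hz
  by_contra hcon
  push Not at hcon
  obtain ⟨i₀, hi₀, hzi⟩ := hcon
  let R := MvPolynomial (Fin s) F
  let M := FractionRing R
  obtain ⟨e, he⟩ := IsLocalization.exist_integer_multiples_of_finset (nonZeroDivisors R)
    ((range m).image z)
  have he' : ∀ i < m, ∃ w : R, algebraMap R M w = algebraMap R M e * z i := by
    intro i hi
    obtain ⟨w, hw⟩ := he (z i) (mem_image_of_mem z (mem_range.2 hi))
    refine ⟨w, ?_⟩
    rw [hw, Algebra.smul_def]
  choose! w hw using he'
  have he0 : algebraMap R M e ≠ 0 := by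
    intro h0
    have := (IsFractionRing.to_map_eq_zero_iff (K := M)).1 h0
    exact nonZeroDivisors.ne_zero e.2 this
  have hw0 : w i₀ ≠ 0 := by
    intro h0
    have h1 := hw i₀ hi₀
    rw [h0, map_zero] at h1
    exact mul_ne_zero he0 hzi h1.symm
  -- the relation for polynomials
  have hrel : gq (fun i j => (MvPolynomial.C (g i j) : R)) m w = 0 := by
    apply IsFractionRing.injective R M
    rw [gq_map, map_zero]
    have h1 : gq (fun i j => algebraMap R M (MvPolynomial.C (g i j))) m (fun i => algebraMap R M (w i)) =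
        gq (fun i j => algebraMap F M (g i j)) m (fun i => algebraMap R M e * z i) := by
      unfold gq
      refine sum_congr rfl fun i hi => sum_congr rfl fun j hj => ?_
      beta_reduce
      rw [hw i (mem_range.1 hi), hw j (mem_range.1 hj)]
      rfl
    rw [h1, gq_smul]
    have h2 : gq (fun i j => algebraMap F M (g i j)) m z = 0 := hz
    rw [h2, mul_zero]
  -- evaluation at a point
  obtain ⟨x, hx⟩ : ∃ x : Fin s → F, MvPolynomial.eval x (w i₀) ≠ 0 := by
    by_contra hcon
    push Not at hcon
    exact hw0 (MvPolynomial.funext fun x => by rw [hcon x, map_zero])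
  have h3 := congrArg (MvPolynomial.eval x) hrel
  rw [gq_map, map_zero] at h3
  simp only [MvPolynomial.eval_C] at h3
  exact hx (h _ h3 i₀ hi₀)

/-- anisotropy is inherited by subfields -/
theorem ga_of_map {E M : Type} [Field E] [Field M] (ψ : E →+* M) {g : ℕ → ℕ → E} {m : ℕ}
    (h : GA (fun i j => ψ (g i j)) m) : GA g m := by
  intro z hz i hi
  have h1 := h (fun i => ψ (z i)) (by rw [← gq_map, hz, map_zero]) i hi
  exact (map_eq_zero ψ).1 h1

end Pool.Agent.H901.Q.Eqv
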