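import Pool.Agent.H901.Q.EqvA

/-!
# Project Q, part EQV (helper71): function fields, the substitution and transcendence degrees
-/

set_option autoImplicit false

namespace Pool.Agent.H901.Q.Eqv

open Finset Polynomial Pool.Agent.H901 Pool.Agent.H901.Q

/-! ### function fields of hypersurfaces -/

/-- homomorphisms from the function field of `p = 0` (as in `Pool.Agent.H901.SHF`) -/
theorem emb_root' {R L : Type} [CommRing R] [IsDomain R] [UniqueFactorizationMonoid R] [Field L]
    {p : R[X]} (hp : Irreducible p) (hd : p.natDegree ≠ 0) (φ : R →+* L)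
    (hφ : Function.Injective φ) (η : L) (hη : p.eval₂ φ η = 0) :
    ∃ ψ : FractionRing (AdjoinRoot p) →+* L,
      (∀ r, ψ (algebraMap (AdjoinRoot p) _ (AdjoinRoot.of p r)) = φ r) ∧
      ψ (algebraMap (AdjoinRoot p) _ (AdjoinRoot.root p)) = η := by
  have hprim : p.IsPrimitive := hp.isPrimitive hd
  let φE : FractionRing R →+* L := IsFractionRing.lift hφ
  have hφE : ∀ r, φE (algebraMap R _ r) = φ r := fun r => IsFractionRing.lift_algebraMap hφ r
  have hcomp : φE.comp (algebraMap R (FractionRing R)) = φ := RingHom.ext hφE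
  let _ : Algebra (FractionRing R) L := φE.toAlgebra
  have hirr : Irreducible (p.map (algebraMap R (FractionRing R))) :=
    (hprim.irreducible_iff_irreducible_map_fraction_map (K := FractionRing R)).1 hp
  have haev : ∀ f : R[X], aeval η (f.map (algebraMap R (FractionRing R))) = f.eval₂ φ η := by
    intro f
    rw [aeval_def, eval₂_map]
    congr 1
  let μ : AdjoinRoot p →+* L := AdjoinRoot.lift φ η hη
  have hμi : Function.Injective μ := by
    rw [injective_iff_map_eq_zero]
    intro x
    obtain ⟨f, rfl⟩ := AdjoinRoot.mk_surjective x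
    intro hx
    have hx' : f.eval₂ φ η = 0 := by
      rw [← hx]
      exact (AdjoinRoot.lift_mk hη f).symm
    rw [AdjoinRoot.mk_eq_zero]
    apply (hprim.dvd_iff_fraction_map_dvd_fraction_map (FractionRing R)).2
    have h1 := minpoly.dvd (FractionRing R) η ((haev f).trans hx')
    rw [← minpoly.eq_of_irreducible hirr ((haev p).trans hη)] at h1
    exact dvd_of_mul_right_dvd h1
  have hdom : IsDomain (AdjoinRoot p) := AdjoinRoot.isDomain_of_prime hp.prime
  refine ⟨IsFractionRing.lift hμi, fun r => ?_, ?_⟩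
  · rw [IsFractionRing.lift_algebraMap]
    exact AdjoinRoot.lift_of hη
  · rw [IsFractionRing.lift_algebraMap]
    exact AdjoinRoot.lift_root hη

/-- The function field of `p = 0` is generated by the coordinate functions and the root. -/
theorem gen_top {R : Type} [CommRing R] {p : R[X]} [IsDomain (AdjoinRoot p)]
    (T : Subfield (FractionRing (AdjoinRoot p)))
    (h1 : ∀ r, algebraMap (AdjoinRoot p) (FractionRing (AdjoinRoot p)) (AdjoinRoot.of p r) ∈ T)
    (h2 : algebraMap (AdjoinRoot p) (FractionRing (AdjoinRoot p)) (AdjoinRoot.root p) ∈ T)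
    (x : FractionRing (AdjoinRoot p)) : x ∈ T := by
  have h3 : ∀ q : R[X], algebraMap (AdjoinRoot p) (FractionRing (AdjoinRoot p))
      (AdjoinRoot.mk p q) ∈ T := by
    intro q
    induction q using Polynomial.induction_on' with
    | add q r hq hr =>
      rw [map_add, map_add]
      exact T.add_mem hq hr
    | monomial n a =>
      rw [← C_mul_X_pow_eq_monomial, map_mul, map_pow, map_mul, map_pow]
      exact T.mul_mem (h1 a) (T.pow_mem h2 n)
  obtain ⟨a, b, _, rfl⟩ := IsFractionRing.div_surjective (A := AdjoinRoot p) x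
  obtain ⟨f, rfl⟩ := AdjoinRoot.mk_surjective a
  obtain ⟨g, rfl⟩ := AdjoinRoot.mk_surjective b
  exact T.div_mem (h3 f) (h3 g)

theorem hom_unique {R L : Type} [CommRing R] {p : R[X]} [IsDomain (AdjoinRoot p)] [Field L]
    (φ ψ : FractionRing (AdjoinRoot p) →+* L)
    (h1 : ∀ r, φ (algebraMap (AdjoinRoot p) _ (AdjoinRoot.of p r)) =
      ψ (algebraMap (AdjoinRoot p) _ (AdjoinRoot.of p r)))
    (h2 : φ (algebraMap (AdjoinRoot p) _ (AdjoinRoot.root p)) =
      ψ (algebraMap (AdjoinRoot p) _ (AdjoinRoot.root p))) (x : FractionRing (AdjoinRoot p)) :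
    φ x = ψ x :=
  gen_top (φ.eqLocusField ψ) h1 h2 x

/-! ### the slots, the vectors and the other variables -/

/-- the values of the new variables -/
def th {M : Type} [Field M] (a : ℕ → M) (v : ℕ → ℕ → M) (y : ℕ → M) (N m : ℕ) (j : ℕ) : M :=
  if j < N then -a j
  else if j < N + m * 2 ^ N then v ((j - N) / 2 ^ N) ((j - N) % 2 ^ N)
  else y (MM m + (j - (N + m * 2 ^ N)))

theorem th_slot {M : Type} [Field M] (a : ℕ → M) (v : ℕ → ℕ → M) (y : ℕ → M) {N m j : ℕ}
    (hj : j < N) : th a v y N m j = -a j := by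
  unfold th
  rw [if_pos hj]

theorem vec_lt {N m i l : ℕ} (hi : i < m) (hl : l < 2 ^ N) : N + i * 2 ^ N + l < N + m * 2 ^ N := by
  have h1 : i + 1 ≤ m := hi
  have h2 := Nat.mul_le_mul_right (2 ^ N) h1
  rw [Nat.add_mul, one_mul] at h2
  omega

theorem th_vec {M : Type} [Field M] (a : ℕ → M) (v : ℕ → ℕ → M) (y : ℕ → M) {N m i l : ℕ}
    (hi : i < m) (hl : l < 2 ^ N) : th a v y N m (N + i * 2 ^ N + l) = v i l := by
  unfold th
  have h1 := vec_lt (N := N) hi hl
  have h2 : N + i * 2 ^ N + l - N = l + i * 2 ^ N := by omega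
  rw [if_neg (by omega), if_pos h1, h2, Nat.add_mul_div_right _ _ (by positivity),
    Nat.div_eq_of_lt hl, Nat.add_mul_mod_self_right, Nat.mod_eq_of_lt hl, Nat.zero_add]

theorem th_rest {M : Type} [Field M] (a : ℕ → M) (v : ℕ → ℕ → M) (y : ℕ → M) (N m e : ℕ) :
    th a v y N m (N + m * 2 ^ N + e) = y (MM m + e) := by
  unfold th
  rw [if_neg (by omega), if_neg (by omega), Nat.add_sub_cancel_left]

/-- the substitution gives back the old variables -/
theorem sb_th {M : Type} [Field M] (a : ℕ → M) (v : ℕ → ℕ → M) (y : ℕ → M) (N m : ℕ)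
    (h : ∀ i < m, ∀ j < m, pb a N (v i) (v j) = y (ix i j)) (l : ℕ) :
    sb N m (th a v y N m) l = y l := by
  unfold sb
  split_ifs with hl
  · obtain ⟨h1, h2, h3⟩ := tri_get m l hl
    set i := ((tri m).getD l (0, 0)).1
    set j := ((tri m).getD l (0, 0)).2
    have hi : i < m := lt_of_le_of_lt h1 h2
    unfold gram
    rw [pb_congr' (fun b => -th a v y N m b) a N (fun b hb => by rw [th_slot _ _ _ hb, neg_neg])
      (z' := v i) (w' := v j) (fun l hl => th_vec _ _ _ hi hl)
      (fun l hl => th_vec _ _ _ h2 hl), h i hi j h2, h3]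
  · rw [th_rest]
    congr 1
    omega

end Pool.Agent.H901.Q.Eqv
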