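import Pool.Agent.H901.Q.EqvB

/-!
# Project Q, part EQV (helper71): the values of the new variables are algebraically independent
-/

set_option autoImplicit false

namespace Pool.Agent.H901.Q.Eqv

open Finset Polynomial Pool.Agent.H901 Pool.Agent.H901.Q

theorem pc_mem {K : Type} [Field K] (T : Subfield K) (a : ℕ → K) (i : ℕ) (h : ∀ j < i, a j ∈ T) :
    ∀ l, pc a i l ∈ T := by
  induction i with
  | zero => intro l; exact T.one_mem
  | succ i ih =>
    intro l
    rw [pc]
    split_ifs
    · exact ih (fun j hj => h j (by omega)) l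
    · exact T.mul_mem (T.neg_mem (h i (by omega))) (ih (fun j hj => h j (by omega)) _)

theorem pb_mem {K : Type} [Field K] (T : Subfield K) (a : ℕ → K) (i : ℕ) (h : ∀ j < i, a j ∈ T)
    (z w : ℕ → K) (hz : ∀ l < 2 ^ i, z l ∈ T) (hw : ∀ l < 2 ^ i, w l ∈ T) : pb a i z w ∈ T := by
  unfold pb
  exact T.sum_mem fun l hl => T.mul_mem (pc_mem T a i h l)
    (T.mul_mem (hz l (mem_range.1 hl)) (hw l (mem_range.1 hl)))

theorem MM_le {N m : ℕ} (hm : 2 * m ≤ 2 ^ N) : MM m ≤ N + m * 2 ^ N := by
  have h1 : m + 1 ≤ 2 ^ N := by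
    have := Nat.one_le_two_pow (n := N)
    omega
  have h2 : m * (m + 1) ≤ m * 2 ^ N := Nat.mul_le_mul_left m h1
  have h3 : MM m ≤ m * (m + 1) := Nat.div_le_self _ _
  omega

/-- the field generated by the values of the new variables: everything is algebraic over it -/
theorem psi_alg {k F M : Type} [Field k] [Field F] [Field M] [Algebra k F] [Algebra k M]
    [Algebra F M] [IsScalarTower k F M] (N m t : ℕ) (y : ℕ → F)
    (halg : Algebra.IsAlgebraic
      (IntermediateField.adjoin k (Set.range (fun l : Fin (MM m + t) => y l))) F)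
    (a : ℕ → M) (v : ℕ → ℕ → M)
    (hg : ∀ i < m, ∀ j < m, pb a N (v i) (v j) = algebraMap F M (y (ix i j)))
    (hal : Algebra.IsAlgebraic (IntermediateField.adjoin F (gens a v N m)) M) :
    Algebra.IsAlgebraic (IntermediateField.adjoin k (Set.range
      (fun j : Fin (N + m * 2 ^ N + t) => th a v (fun l => algebraMap F M (y l)) N m j))) M := by
  set θ' : Fin (N + m * 2 ^ N + t) → M :=
    fun j => th a v (fun l => algebraMap F M (y l)) N m j with hθ'
  let T₀ := IntermediateField.adjoin k (Set.range θ')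
  show Algebra.IsAlgebraic T₀ M
  have hθ : ∀ j < N + m * 2 ^ N + t, th a v (fun l => algebraMap F M (y l)) N m j ∈ T₀ :=
    fun j hj => IntermediateField.subset_adjoin _ _ ⟨⟨j, hj⟩, rfl⟩
  have ha' : ∀ j < N, a j ∈ T₀ := fun j hj => by
    have h := T₀.neg_mem (hθ j (by omega))
    rwa [th_slot _ _ _ hj, neg_neg] at h
  have hv' : ∀ i < m, ∀ l < 2 ^ N, v i l ∈ T₀ := fun i hi l hl => by
    have h := hθ (N + i * 2 ^ N + l) (by have := vec_lt (N := N) hi hl; omega)
    rwa [th_vec _ _ _ hi hl] at h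
  have hy' : ∀ l < MM m + t, algebraMap F M (y l) ∈ T₀ := by
    intro l hl
    rcases lt_or_ge l (MM m) with h | h
    · obtain ⟨h1, h2, h3⟩ := tri_get m l h
      have hi : ((tri m).getD l (0, 0)).1 < m := lt_of_le_of_lt h1 h2
      rw [← h3, ← hg _ hi _ h2]
      exact pb_mem T₀.toSubfield a N ha' _ _ (hv' _ hi) (hv' _ h2)
    · obtain ⟨e, rfl⟩ := Nat.exists_eq_add_of_le h
      have h4 := hθ (N + m * 2 ^ N + e) (by omega)
      rwa [th_rest] at h4
  -- the elements of `F`
  let L₀ := IntermediateField.adjoin k (Set.range (fun l : Fin (MM m + t) => y l))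
  have hL : ∀ x : L₀, algebraMap F M x ∈ T₀ := by
    intro x
    have h : L₀ ≤ T₀.comap (IsScalarTower.toAlgHom k F M) := by
      rw [IntermediateField.adjoin_le_iff]
      rintro _ ⟨l, rfl⟩
      exact hy' l l.2
    exact h x.2
  let f : L₀ →+* T₀ := RingHom.codRestrict ((algebraMap F M).comp (algebraMap L₀ F)) T₀ hL
  have hF : ∀ x : F, algebraMap F M x ∈ (algebraicClosure T₀ M).toSubfield := by
    intro x
    have h : IsAlgebraic T₀ (algebraMap F M x) :=
      (halg.isAlgebraic x).ringHom_of_comp_eq f (algebraMap F M) f.injective rfl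
    exact mem_algebraicClosure_iff.2 h
  let C' : IntermediateField F M := (algebraicClosure T₀ M).toSubfield.toIntermediateField hF
  have hle : IntermediateField.adjoin F (gens a v N m) ≤ C' := by
    rw [IntermediateField.adjoin_le_iff]
    rintro x (⟨j, hj, rfl⟩ | ⟨i, hi, l, hl, rfl⟩)
    · exact (algebraicClosure T₀ M).algebraMap_mem ⟨a j, ha' j hj⟩
    · exact (algebraicClosure T₀ M).algebraMap_mem ⟨v i l, hv' i hi l hl⟩
  let g : IntermediateField.adjoin F (gens a v N m) →+* algebraicClosure T₀ M :=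
    RingHom.codRestrict (algebraMap (IntermediateField.adjoin F (gens a v N m)) M)
      (algebraicClosure T₀ M) (fun x => hle x.2)
  refine ⟨fun x => ?_⟩
  have h1 : IsAlgebraic (algebraicClosure T₀ M) x :=
    (hal.isAlgebraic x).ringHom_of_comp_eq g (RingHom.id M) g.injective rfl
  exact h1.restrictScalars T₀

/-- the new variables are sent to algebraically independent elements -/
theorem psi (h1 : S_HYP) {k F : Type} [Field k] [Field F] [CharZero F] [Algebra k F]
    (N m t : ℕ) (hN : 1 ≤ N) (hm : 2 * m ≤ 2 ^ N) (y : ℕ → F)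
    (hy : AlgebraicIndependent k (fun l : Fin (MM m + t) => y l))
    (halg : Algebra.IsAlgebraic
      (IntermediateField.adjoin k (Set.range (fun l : Fin (MM m + t) => y l))) F) :
    ∃ θ : ℕ → FractionRing (MvPolynomial (Fin (N + m * 2 ^ N - MM m)) F),
      AlgebraicIndependent k (fun j : Fin (N + m * 2 ^ N + t) => θ j) ∧
      ∀ l, sb N m θ l = algebraMap F _ (y l) := by
  obtain ⟨a, v, ha, hg, hal⟩ := h1 F N m (fun i j => y (ix i j)) hN hm
    (fun i j => by rw [ix_comm])
  let M := FractionRing (MvPolynomial (Fin (N + m * 2 ^ N - MM m)) F)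
  refine ⟨th a v (fun l => algebraMap F M (y l)) N m, ?_, fun l => sb_th a v _ N m hg l⟩
  have halgM := psi_alg (k := k) (M := M) N m t y halg a v hg hal
  have halgM' := IntermediateField.isAlgebraic_adjoin_iff_top.1 halgM
  have hs' : AlgebraicIndependent F (fun j : Fin (N + m * 2 ^ N - MM m) =>
      (algebraMap (MvPolynomial (Fin (N + m * 2 ^ N - MM m)) F) M (MvPolynomial.X j))) :=
    (MvPolynomial.algebraicIndependent_X (Fin (N + m * 2 ^ N - MM m)) F).map'
      (f := IsScalarTower.toAlgHom F _ M) (IsFractionRing.injective _ _)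
  have hd1 : ((MM m + t : ℕ) : Cardinal) ≤ Algebra.trdeg k F := by
    have h := hy.cardinalMk_le_trdeg
    rwa [Cardinal.mk_fin] at h
  have hd2 : ((N + m * 2 ^ N - MM m : ℕ) : Cardinal) ≤ Algebra.trdeg F M := by
    have h := hs'.cardinalMk_le_trdeg
    rwa [Cardinal.mk_fin] at h
  have hd3 : Algebra.trdeg k F + Algebra.trdeg F M = Algebra.trdeg k M := trdeg_add_eq k F
  have hle : Cardinal.mk (Fin (N + m * 2 ^ N + t)) ≤ Algebra.trdeg k M := by
    rw [Cardinal.mk_fin, ← hd3]
    have h4 : N + m * 2 ^ N + t = (MM m + t) + (N + m * 2 ^ N - MM m) := by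
      have := MM_le hm
      omega
    rw [h4, Nat.cast_add]
    exact add_le_add hd1 hd2
  exact (Algebra.IsAlgebraic.isTranscendenceBasis_of_le_trdeg_of_finite k _ hle).1

end Pool.Agent.H901.Q.Eqv
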