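import Pool.Agent.H901.Q.EqvC

/-!
# Project Q, part EQV (helper71): the function fields `F`, `E` and zeros of the Gram form
-/

set_option autoImplicit false

namespace Pool.Agent.H901.Q.Eqv

open Finset Polynomial Pool.Agent.H901 Pool.Agent.H901.Q

/-! ### zeros of the Gram form -/

theorem pq_comb {R : Type*} [CommRing R] (a : ℕ → R) (N m : ℕ) (V : ℕ → ℕ → R) (z : ℕ → R) :
    pq a N (fun l => ∑ i ∈ range m, z i * V i l) = gq (fun i j => pb a N (V i) (V j)) m z := by
  unfold pq gq pb
  simp only [sq, mul_sum, sum_mul]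
  rw [sum_comm]
  refine sum_congr rfl fun i _ => ?_
  rw [sum_comm]
  refine sum_congr rfl fun j _ => ?_
  refine sum_congr rfl fun l _ => ?_
  ring

theorem isot_of_gram {E : Type} [Field E] (N m : ℕ) (x' : ℕ → E) (hm : m ≤ 2 ^ N)
    (hdet : (Matrix.of (fun l i : Fin m => x' (N + i * 2 ^ N + l))).det ≠ 0)
    (z : ℕ → E) (hz : ∃ i < m, z i ≠ 0) (h0 : gq (fun i j => gram N x' i j) m z = 0) :
    Isot (fun j => -x' j) N := by
  obtain ⟨i₀, hi₀, hzi⟩ := hz
  refine ⟨fun l => ∑ i ∈ range m, z i * x' (N + i * 2 ^ N + l), ?_, ?_⟩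
  · by_contra hcon
    push Not at hcon
    have h1 : Matrix.mulVec (Matrix.of (fun l i : Fin m => x' (N + i * 2 ^ N + l)))
        (fun i : Fin m => z i) = 0 := by
      funext l
      have h2 := hcon l (by have := l.2; omega)
      rw [← Fin.sum_univ_eq_sum_range (fun i => z i * x' (N + i * 2 ^ N + l)) m] at h2
      show ∑ i : Fin m, x' (N + i * 2 ^ N + l) * z i = 0
      rw [← h2]
      exact sum_congr rfl fun i _ => mul_comm _ _
    have h3 := Matrix.eq_zero_of_mulVec_eq_zero hdet h1
    exact hzi (congrFun h3 ⟨i₀, hi₀⟩)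
  · rw [pq_comb (fun j => -x' j) N m (fun i l => x' (N + i * 2 ^ N + l)) z]
    exact h0

theorem det_ne {k E : Type} [Field k] [Field E] (N m t : ℕ) (hm : m ≤ 2 ^ N)
    (χ : MvPolynomial (Fin (N + m * 2 ^ N + t)) k →+* E) (hχ : Function.Injective χ) :
    (Matrix.of (fun l i : Fin m => χ (xw k (N + m * 2 ^ N + t) (N + i * 2 ^ N + l)))).det ≠ 0 := by
  have hlt : ∀ l i : Fin m, N + i * 2 ^ N + l < N + m * 2 ^ N + t := by
    intro l i
    have := vec_lt (N := N) i.2 (lt_of_lt_of_le l.2 hm)
    omega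
  let f : Fin m × Fin m → Fin (N + m * 2 ^ N + t) := fun q => ⟨N + q.2 * 2 ^ N + q.1, hlt q.1 q.2⟩
  have hf : Function.Injective f := by
    rintro ⟨l, i⟩ ⟨l', i'⟩ h
    have h1 : N + i * 2 ^ N + l = N + i' * 2 ^ N + l' := congrArg Fin.val h
    have h2 : (l : ℕ) + i * 2 ^ N = l' + i' * 2 ^ N := by omega
    have h3 := congrArg (fun e => e / 2 ^ N) h2
    have h4 := congrArg (fun e => e % 2 ^ N) h2
    have hl := lt_of_lt_of_le l.2 hm
    have hl' := lt_of_lt_of_le l'.2 hm
    simp only [Nat.add_mul_div_right _ _ (Nat.two_pow_pos N), Nat.div_eq_of_lt hl,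
      Nat.div_eq_of_lt hl', Nat.zero_add, Nat.add_mul_mod_self_right, Nat.mod_eq_of_lt hl,
      Nat.mod_eq_of_lt hl'] at h3 h4
    rw [Prod.mk.injEq]
    exact ⟨Fin.ext h4, Fin.ext h3⟩
  have h5 : Matrix.of (fun l i : Fin m => χ (xw k (N + m * 2 ^ N + t) (N + i * 2 ^ N + l))) =
      (χ.comp (MvPolynomial.rename (R := k) f).toRingHom).mapMatrix
        (Matrix.mvPolynomialX (Fin m) (Fin m) k) := by
    ext l i
    simp only [Matrix.of_apply, RingHom.mapMatrix_apply, Matrix.map_apply,
      Matrix.mvPolynomialX_apply, RingHom.comp_apply, AlgHom.toRingHom_eq_coe, RingHom.coe_coe,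
      MvPolynomial.rename_X]
    unfold xw
    rw [dif_pos (hlt l i)]
  rw [h5, ← RingHom.map_det]
  intro h6
  have h7 : Function.Injective
      (χ.comp (MvPolynomial.rename (R := k) f).toRingHom) :=
    hχ.comp (MvPolynomial.rename_injective f hf)
  exact Matrix.det_mvPolynomialX_ne_zero (Fin m) k ((map_eq_zero_iff _ h7).1 h6)

/-! ### the function field of `P = 0` -/

section

variable {k : Type} [Field k] {n : ℕ} (P : (MvPolynomial (Fin n) k)[X])

/-- the polynomials as elements of the function field -/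
noncomputable def rho : MvPolynomial (Fin n) k →+* FractionRing (AdjoinRoot P) :=
  (algebraMap (AdjoinRoot P) (FractionRing (AdjoinRoot P))).comp (AdjoinRoot.of P)

theorem rho_apply (r : MvPolynomial (Fin n) k) :
    rho P r = algebraMap (AdjoinRoot P) (FractionRing (AdjoinRoot P)) (AdjoinRoot.of P r) := rfl

/-- the root -/
noncomputable def rt : FractionRing (AdjoinRoot P) :=
  algebraMap (AdjoinRoot P) (FractionRing (AdjoinRoot P)) (AdjoinRoot.root P)

theorem eval_rt : P.eval₂ (rho P) (rt P) = 0 := by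
  unfold rho rt
  rw [← hom_eval₂, AdjoinRoot.eval₂_root, map_zero]

theorem rho_C (c : k) : rho P (MvPolynomial.C c) = algebraMap k (FractionRing (AdjoinRoot P)) c := by
  rw [IsScalarTower.algebraMap_apply k (AdjoinRoot P) (FractionRing (AdjoinRoot P))]
  rfl

/-- the polynomials as elements of the function field: homomorphism of `k`-algebras -/
noncomputable def rhoA : MvPolynomial (Fin n) k →ₐ[k] FractionRing (AdjoinRoot P) :=
  { rho P with commutes' := fun c => rho_C P c }

theorem rhoA_apply (r : MvPolynomial (Fin n) k) : rhoA P r = rho P r := rfl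

variable {P}

theorem rho_injective [IsDomain (AdjoinRoot P)] (hd : P.natDegree ≠ 0) :
    Function.Injective (rho P) := by
  have h1 : Function.Injective (AdjoinRoot.of P) :=
    AdjoinRoot.of.injective_of_degree_ne_zero (fun h => hd (natDegree_eq_of_degree_eq_some h))
  exact (IsFractionRing.injective (AdjoinRoot P) (FractionRing (AdjoinRoot P))).comp h1

theorem xw_fin (l : Fin n) : xw k n l = MvPolynomial.X l := by
  unfold xw
  rw [dif_pos l.2]

theorem rho_indep [IsDomain (AdjoinRoot P)] (hd : P.natDegree ≠ 0) :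
    AlgebraicIndependent k (fun l : Fin n => rho P (xw k n l)) := by
  have h := (MvPolynomial.algebraicIndependent_X (Fin n) k).map' (f := rhoA P)
    (rho_injective hd)
  have h1 : (fun l : Fin n => rho P (xw k n l)) = (rhoA P) ∘ MvPolynomial.X := by
    funext l
    rw [xw_fin]
    rfl
  rw [h1]
  exact h

theorem rho_mem [IsDomain (AdjoinRoot P)] (T : Subfield (FractionRing (AdjoinRoot P)))
    (h1 : ∀ c : k, algebraMap k _ c ∈ T) (h2 : ∀ l : Fin n, rho P (xw k n l) ∈ T)
    (r : MvPolynomial (Fin n) k) : rho P r ∈ T := by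
  induction r using MvPolynomial.induction_on with
  | C a => rw [rho_C]; exact h1 a
  | add p q hp hq => rw [map_add]; exact T.add_mem hp hq
  | mul_X p l hp =>
    rw [map_mul]
    refine T.mul_mem hp ?_
    rw [← xw_fin]
    exact h2 l

theorem rho_alg [IsDomain (AdjoinRoot P)] (hP : P.Monic) :
    Algebra.IsAlgebraic (IntermediateField.adjoin k (Set.range (fun l : Fin n => rho P (xw k n l))))
      (FractionRing (AdjoinRoot P)) := by
  let L₀ := IntermediateField.adjoin k (Set.range (fun l : Fin n => rho P (xw k n l)))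
  show Algebra.IsAlgebraic L₀ (FractionRing (AdjoinRoot P))
  have h1 : ∀ r, rho P r ∈ L₀ := rho_mem L₀.toSubfield (fun c => L₀.algebraMap_mem c)
    (fun l => IntermediateField.subset_adjoin _ _ ⟨l, rfl⟩)
  let f : MvPolynomial (Fin n) k →+* L₀ := RingHom.codRestrict (rho P) L₀ h1
  have hf : (algebraMap L₀ (FractionRing (AdjoinRoot P))).comp f = rho P := rfl
  have h2 : IsAlgebraic L₀ (rt P) := by
    refine ⟨P.map f, (hP.map f).ne_zero, ?_⟩
    rw [aeval_def, eval₂_map, hf]
    exact eval_rt P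
  refine ⟨fun x => ?_⟩
  apply mem_algebraicClosure_iff.1
  exact gen_top (algebraicClosure L₀ (FractionRing (AdjoinRoot P))).toSubfield
    (fun r => (algebraicClosure L₀ (FractionRing (AdjoinRoot P))).algebraMap_mem ⟨rho P r, h1 r⟩)
    (mem_algebraicClosure_iff.2 h2) x

theorem rho_trdeg [IsDomain (AdjoinRoot P)] (hP : P.Monic) :
    Algebra.trdeg k (FractionRing (AdjoinRoot P)) ≤ (n : Cardinal) := by
  have h1 := IntermediateField.isAlgebraic_adjoin_iff_top.1 (rho_alg hP)
  have h2 := Algebra.IsAlgebraic.trdeg_le_cardinalMk k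
    (Set.range (fun l : Fin n => rho P (xw k n l)))
  refine h2.trans (Cardinal.mk_range_le.trans ?_)
  rw [Cardinal.mk_fin]

end

end Pool.Agent.H901.Q.Eqv
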