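import Pool.Agent.H901.Q.Stm

/-!
# Part HYP of the project Q (helper337)
-/

set_option autoImplicit false

namespace Pool.Agent.H901.Q

open Finset Polynomial Pool.Agent.H901

namespace Hyp

/-- the variables: `ζ`, `a j`, `α i l`, `β j l` with `j < l` -/
abbrev T (n m : ℕ) : Type :=
  Unit ⊕ Fin n ⊕ (Fin m × Fin (2 ^ n)) ⊕ (Σ j : Fin m, Fin (2 ^ n - 1 - j))

theorem card_aux (q m : ℕ) (h : m ≤ q) :
    ∑ j ∈ range m, (q - 1 - j) + MM m = m * q := by
  induction m with
  | zero => simp [MM]
  | succ m ih =>
    have h1 : MM (m + 1) = MM m + (m + 1) := by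
      unfold MM
      have e : (m + 1) * (m + 1 + 1) = m * (m + 1) + 2 * (m + 1) := by ring
      rw [e, Nat.add_mul_div_left _ _ (by norm_num)]
    have h2 := ih (by omega)
    rw [sum_range_succ, h1, add_mul, one_mul]
    omega

theorem card_T (n m : ℕ) (h : m ≤ 2 ^ n) :
    Fintype.card (T n m) = (n + 1) + m * 2 ^ (n + 1) - MM m := by
  have h1 : Fintype.card (T n m) = 1 + (n + (m * 2 ^ n + ∑ j ∈ range m, (2 ^ n - 1 - j))) := by
    simp only [Fintype.card_sum, Fintype.card_sigma, Fintype.card_prod, Fintype.card_unit,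
      Fintype.card_fin]
    rw [Fin.sum_univ_eq_sum_range (fun j => 2 ^ n - 1 - j) m]
  have h2 := card_aux (2 ^ n) m h
  rw [h1, pow_succ]
  have h3 : m * (2 ^ n * 2) = m * 2 ^ n + m * 2 ^ n := by ring
  omega

section defs

variable {R : Type*} [CommRing R] {n m : ℕ} (x : T n m → R)

/-- the slots -/
def aa (j : ℕ) : R := if h : j < n then x (.inr (.inl ⟨j, h⟩)) else x (.inl ()) ^ 2

/-- `α` -/
def al (i l : ℕ) : R :=
  if h : i < m ∧ l < 2 ^ n then x (.inr (.inr (.inl (⟨i, h.1⟩, ⟨l, h.2⟩)))) else 0

/-- the given part of `β` -/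
def bb (j l : ℕ) : R :=
  if h : j < m ∧ j < l ∧ l < 2 ^ n then
    x (.inr (.inr (.inr ⟨⟨j, h.1⟩, ⟨l - j - 1, by simp only; omega⟩⟩))) else 0

theorem aa_map {S : Type*} [CommRing S] (φ : R →+* S) (j : ℕ) :
    aa (fun t => φ (x t)) j = φ (aa x j) := by
  unfold aa
  split_ifs
  · rfl
  · rw [map_pow]

theorem al_map {S : Type*} [CommRing S] (φ : R →+* S) (i l : ℕ) :
    al (fun t => φ (x t)) i l = φ (al x i l) := by
  unfold al
  split_ifs
  · rfl
  · rw [map_zero]

/-- the matrix -/
def mt (k : ℕ) : Matrix (Fin (k + 1)) (Fin (k + 1)) R :=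
  Matrix.of fun i l => pc (aa x) n l * al x i l

theorem mt_map {S : Type*} [CommRing S] (φ : R →+* S) (k : ℕ) :
    mt (fun t => φ (x t)) k = φ.mapMatrix (mt x k) := by
  ext i l
  rw [RingHom.mapMatrix_apply, Matrix.map_apply]
  unfold mt
  rw [Matrix.of_apply, Matrix.of_apply, al_map, map_mul, ← pc_map]
  congr 2
  funext j
  rw [aa_map]

end defs

theorem pc_congr {R : Type*} [CommRing R] (a b : ℕ → R) (i l : ℕ) (h : ∀ j < i, a j = b j) :
    pc a i l = pc b i l := by
  induction i generalizing l with
  | zero => rfl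
  | succ i ih =>
    rw [pc, pc, h i (Nat.lt_succ_self i), ih _ (fun j hj => h j (Nat.lt_succ_of_lt hj)),
      ih _ (fun j hj => h j (Nat.lt_succ_of_lt hj))]

theorem pc_neg_one {R : Type*} [CommRing R] (i l : ℕ) : pc (fun _ => (-1 : R)) i l = 1 := by
  induction i generalizing l with
  | zero => rfl
  | succ i ih =>
    rw [pc, ih, ih]
    simp

/-- the special point -/
def pt (R : Type*) [CommRing R] (n m : ℕ) : T n m → R
  | .inl _ => 0
  | .inr (.inl _) => -1
  | .inr (.inr (.inl (i, l))) => if (i : ℕ) = l then 1 else 0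
  | .inr (.inr (.inr _)) => 0

theorem mt_pt (R : Type*) [CommRing R] (n m k : ℕ) (hk : k < m) (hm : m ≤ 2 ^ n) :
    mt (pt R n m) k = 1 := by
  ext i l
  unfold mt
  rw [Matrix.of_apply, pc_congr (aa (pt R n m)) (fun _ => -1) n l, pc_neg_one, one_mul]
  · unfold al
    rw [dif_pos ⟨by omega, by omega⟩, Matrix.one_apply]
    show (if (i : ℕ) = l then (1 : R) else 0) = _
    by_cases h : i = l
    · rw [if_pos h, if_pos (congrArg _ h)]
    · rw [if_neg h, if_neg (fun h2 => h (Fin.ext h2))]
  · intro j hj
    unfold aa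
    rw [dif_pos hj]
    rfl

variable {F M : Type} [Field F] [Field M] [Algebra F M]

theorem det_ne {n m : ℕ} (x : T n m → M) (hx : AlgebraicIndependent F x) (k : ℕ) (hk : k < m)
    (hm : m ≤ 2 ^ n) : (mt x k).det ≠ 0 := by
  have h1 : mt x k = (MvPolynomial.aeval x : _ →ₐ[F] M).toRingHom.mapMatrix
      (mt (fun t => (MvPolynomial.X t : MvPolynomial (T n m) F)) k) := by
    rw [← mt_map]
    congr 1
    funext t
    exact (MvPolynomial.aeval_X x t).symm
  rw [h1, ← RingHom.map_det]
  intro h0
  have h2 : (mt (fun t => (MvPolynomial.X t : MvPolynomial (T n m) F)) k).det = 0 := by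
    apply hx
    rw [map_zero]
    exact h0
  have h3 := congrArg (MvPolynomial.eval (pt F n m)) h2
  rw [map_zero, RingHom.map_det, ← mt_map] at h3
  have h4 : (fun t => MvPolynomial.eval (pt F n m) (MvPolynomial.X t)) = pt F n m := by
    funext t
    exact MvPolynomial.eval_X t
  rw [h4, mt_pt F n m k hk hm, Matrix.det_one] at h3
  exact one_ne_zero h3

theorem exists_beta {n m : ℕ} (x : T n m → M) (hx : AlgebraicIndependent F x)
    (hm : m ≤ 2 ^ n) (g : ℕ → ℕ → M) (k : ℕ) (hk : k ≤ m) :
    ∃ β : ℕ → ℕ → M, (∀ j < k, ∀ l, j < l → β j l = bb x j l) ∧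
      ∀ j < k, ∀ i ≤ j, pb (aa x) n (al x i) (β j) + pb (aa x) n (al x j) (β i) =
        2 * g i j := by
  induction k with
  | zero => exact ⟨0, fun j hj => absurd hj (Nat.not_lt_zero j),
      fun j hj => absurd hj (Nat.not_lt_zero j)⟩
  | succ k ih =>
    obtain ⟨β, h1, h2⟩ := ih (by omega)
    have hdet := det_ne (F := F) x hx k (by omega) hm
    have hunit : IsUnit (mt x k).det := isUnit_iff_ne_zero.2 hdet
    set r : ℕ → M := fun i => if i = k then g k k else 2 * g i k - pb (aa x) n (al x k) (β i)
      with hr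
    set b : Fin (k + 1) → M := fun i => r i -
      ∑ l ∈ Ico (k + 1) (2 ^ n), pc (aa x) n l * (al x i l * bb x k l) with hb
    set y : Fin (k + 1) → M := (mt x k)⁻¹.mulVec b with hy
    have hy2 : (mt x k).mulVec y = b := by
      rw [hy, Matrix.mulVec_mulVec, Matrix.mul_nonsing_inv _ hunit, Matrix.one_mulVec]
    set ρ : ℕ → M := fun l => if h : l < k + 1 then y ⟨l, h⟩ else bb x k l with hρ
    have hkey : ∀ i ≤ k, pb (aa x) n (al x i) ρ = r i := by
      intro i hi
      have h3 := congrFun hy2 ⟨i, by omega⟩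
      rw [hb] at h3
      simp only [Matrix.mulVec, dotProduct, mt, Matrix.of_apply] at h3
      unfold pb
      rw [Finset.range_eq_Ico, ← Finset.sum_Ico_consecutive _ (Nat.zero_le (k + 1))
        (by omega : k + 1 ≤ 2 ^ n), ← Finset.range_eq_Ico]
      have h4 : ∑ l ∈ range (k + 1), pc (aa x) n l * (al x i l * ρ l) =
          ∑ l : Fin (k + 1), pc (aa x) n l * al x i l * y l := by
        rw [Finset.sum_range]
        refine Finset.sum_congr rfl fun l _ => ?_
        rw [hρ]
        simp only [l.2, dif_pos]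
        ring
      have h5 : ∑ l ∈ Ico (k + 1) (2 ^ n), pc (aa x) n l * (al x i l * ρ l) =
          ∑ l ∈ Ico (k + 1) (2 ^ n), pc (aa x) n l * (al x i l * bb x k l) := by
        refine Finset.sum_congr rfl fun l hl => ?_
        rw [Finset.mem_Ico] at hl
        rw [hρ]
        simp only
        rw [dif_neg (by omega)]
      rw [h4, h5, h3]
      ring
    refine ⟨fun j => if j = k then ρ else β j, ?_, ?_⟩
    · intro j hj l hl
      by_cases hjk : j = k
      · simp only [hjk, if_true]
        rw [hρ]
        simp only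
        rw [dif_neg (by omega)]
      · simp only [hjk, if_false]
        exact h1 j (by omega) l hl
    · intro j hj i hi
      by_cases hjk : j = k
      · subst hjk
        simp only [if_true]
        rw [hkey i hi]
        by_cases hij : i = j
        · subst hij
          simp only [if_true]
          rw [hkey i le_rfl, hr]
          simp only [if_true]
          ring
        · simp only [hij, if_false]
          rw [hr]
          simp only [hij, if_false]
          ring
      · have hik : i ≠ k := by omega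
        simp only [hjk, hik, if_false]
        exact h2 j (by omega) i hi

theorem main [CharZero M] {n m : ℕ} (x : T n m → M) (hx : AlgebraicIndependent F x)
    (htop : IntermediateField.adjoin F (Set.range x) = ⊤)
    (hm : m ≤ 2 ^ n) (g : ℕ → ℕ → F) (hg : ∀ i j, g i j = g j i) :
    ∃ (a : ℕ → M) (v : ℕ → ℕ → M), (∀ j < n + 1, a j ≠ 0) ∧
      (∀ i < m, ∀ j < m, pb a (n + 1) (v i) (v j) = algebraMap F _ (g i j)) ∧
      Algebra.IsAlgebraic (IntermediateField.adjoin F (gens a v (n + 1) m)) M := by
  obtain ⟨β, h1, h2⟩ := exists_beta (F := F) x hx hm (fun i j => algebraMap F M (g i j)) m le_rfl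
  set ζ : M := x (.inl ()) with hζ
  have hζ0 : ζ ≠ 0 := hx.ne_zero _
  have h20 : (2 : M) ≠ 0 := two_ne_zero
  set v : ℕ → ℕ → M := fun i => gl n (fun l => (al x i l + β i l) / 2)
    (fun l => (β i l - al x i l) / (2 * ζ)) with hv
  have han : aa x n = ζ ^ 2 := by
    unfold aa
    rw [dif_neg (lt_irrefl n)]
  have hform : ∀ i j, 2 * pb (aa x) (n + 1) (v i) (v j) =
      pb (aa x) n (al x i) (β j) + pb (aa x) n (al x j) (β i) := by
    intro i j
    rw [hv]
    simp only
    rw [pb_gl, han]
    unfold pb
    rw [mul_sum, ← sum_sub_distrib, mul_sum, ← sum_add_distrib]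
    refine sum_congr rfl fun l _ => ?_
    field_simp
    ring
  refine ⟨aa x, v, ?_, ?_, ?_⟩
  · intro j hj
    unfold aa
    split_ifs
    · exact hx.ne_zero _
    · exact pow_ne_zero _ hζ0
  · have hle : ∀ j < m, ∀ i ≤ j, pb (aa x) (n + 1) (v i) (v j) = algebraMap F _ (g i j) := by
      intro j hj i hi
      apply mul_left_cancel₀ h20
      rw [hform, h2 j hj i hi]
    intro i hi j hj
    rcases le_total i j with h | h
    · exact hle j hj i h
    · rw [pb_symm, hle i hi j h, hg]
  · set L := IntermediateField.adjoin F (gens (aa x) v (n + 1) m) with hL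
    set K' := (algebraicClosure L M).restrictScalars F with hK'
    have hmem : ∀ y ∈ gens (aa x) v (n + 1) m, y ∈ K' := by
      intro y hy
      have hyL : y ∈ L := IntermediateField.subset_adjoin F _ hy
      rw [hK', IntermediateField.mem_restrictScalars]
      exact (algebraicClosure L M).algebraMap_mem ⟨y, hyL⟩
    have hζK : ζ ∈ K' := by
      have h3 : ζ ^ 2 ∈ K' := hmem _ (Or.inl ⟨n, Nat.lt_succ_self n, han.symm⟩)
      rw [hK', IntermediateField.mem_restrictScalars, mem_algebraicClosure_iff] at h3 ⊢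
      exact h3.of_pow (by norm_num)
    have hvK : ∀ i < m, ∀ l < 2 ^ (n + 1), v i l ∈ K' := fun i hi l hl =>
      hmem _ (Or.inr ⟨i, hi, l, hl, rfl⟩)
    have e1 : ∀ i, ∀ l < 2 ^ n, v i l = (al x i l + β i l) / 2 := by
      intro i l hl
      rw [hv]
      unfold gl
      simp only
      rw [if_pos hl]
    have e2 : ∀ i, ∀ l < 2 ^ n, v i (l + 2 ^ n) = (β i l - al x i l) / (2 * ζ) := by
      intro i l hl
      rw [hv]
      unfold gl
      simp only
      rw [if_neg (by omega), Nat.add_sub_cancel]
    have hpow : 2 ^ (n + 1) = 2 ^ n + 2 ^ n := by rw [pow_succ]; ring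
    have hal : ∀ i < m, ∀ l < 2 ^ n, al x i l ∈ K' := by
      intro i hi l hl
      have h3 : al x i l = v i l - ζ * v i (l + 2 ^ n) := by
        rw [e1 i l hl, e2 i l hl]
        field_simp
        ring
      rw [h3]
      exact sub_mem (hvK i hi l (by omega)) (mul_mem hζK (hvK i hi _ (by omega)))
    have hbe : ∀ i < m, ∀ l < 2 ^ n, β i l ∈ K' := by
      intro i hi l hl
      have h3 : β i l = v i l + ζ * v i (l + 2 ^ n) := by
        rw [e1 i l hl, e2 i l hl]
        field_simp
        ring
      rw [h3]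
      exact add_mem (hvK i hi l (by omega)) (mul_mem hζK (hvK i hi _ (by omega)))
    have hrange : Set.range x ⊆ K' := by
      rintro _ ⟨t, rfl⟩
      rcases t with t | t | t | t
      · exact hζK
      · obtain ⟨j, hj⟩ := t
        have h3 : aa x j = x (.inr (.inl ⟨j, hj⟩)) := by
          unfold aa
          rw [dif_pos hj]
        rw [← h3]
        exact hmem _ (Or.inl ⟨j, by omega, rfl⟩)
      · obtain ⟨⟨i, hi⟩, ⟨l, hl⟩⟩ := t
        have h3 : al x i l = x (.inr (.inr (.inl (⟨i, hi⟩, ⟨l, hl⟩)))) := by
          unfold al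
          rw [dif_pos ⟨hi, hl⟩]
        rw [← h3]
        exact hal i hi l hl
      · obtain ⟨⟨j, hj⟩, ⟨k, hk⟩⟩ := t
        simp only at hk
        have h3 : bb x j (k + j + 1) = x (.inr (.inr (.inr ⟨⟨j, hj⟩, ⟨k, hk⟩⟩))) := by
          unfold bb
          rw [dif_pos ⟨hj, by omega, by omega⟩]
          have e : k + j + 1 - j - 1 = k := by omega
          simp only [e]
        rw [← h3, ← h1 j hj (k + j + 1) (by omega)]
        exact hbe j hj _ (by omega)
    have htop2 : K' = ⊤ := by
      rw [eq_top_iff, ← htop]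
      exact IntermediateField.adjoin_le_iff.2 hrange
    refine ⟨fun y => ?_⟩
    have h3 : y ∈ K' := by rw [htop2]; exact IntermediateField.mem_top
    rw [hK', IntermediateField.mem_restrictScalars, mem_algebraicClosure_iff] at h3
    exact h3

end Hyp

theorem hyp : S_HYP := by
  intro F _ _ N m g hN hm hg
  obtain ⟨n, rfl⟩ : ∃ n, N = n + 1 := ⟨N - 1, by omega⟩
  have hm2 : m ≤ 2 ^ n := by
    rw [pow_succ] at hm
    omega
  set s := (n + 1) + m * 2 ^ (n + 1) - MM m with hs
  have hcard : Fintype.card (Hyp.T n m) = s := Hyp.card_T n m hm2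
  set e : Hyp.T n m ≃ Fin s := Fintype.equivFinOfCardEq hcard with he
  set x : Hyp.T n m → FractionRing (MvPolynomial (Fin s) F) := fun t =>
    algebraMap (MvPolynomial (Fin s) F) _ (MvPolynomial.X (e t)) with hx
  have hinj : Function.Injective (algebraMap (MvPolynomial (Fin s) F)
      (FractionRing (MvPolynomial (Fin s) F))) := IsFractionRing.injective _ _
  have hind : AlgebraicIndependent F x := by
    have h1 : AlgebraicIndependent F (fun i : Fin s => (MvPolynomial.X i : MvPolynomial (Fin s) F)) :=
      MvPolynomial.algebraicIndependent_X (Fin s) F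
    have h2 := h1.map' (f := IsScalarTower.toAlgHom F (MvPolynomial (Fin s) F)
      (FractionRing (MvPolynomial (Fin s) F))) hinj
    exact h2.comp e e.injective
  have htop : IntermediateField.adjoin F (Set.range x) = ⊤ := by
    rw [eq_top_iff]
    intro y _
    obtain ⟨p, q, hq, rfl⟩ := IsFractionRing.div_surjective (A := MvPolynomial (Fin s) F) y
    have hp : ∀ p : MvPolynomial (Fin s) F, algebraMap _ (FractionRing (MvPolynomial (Fin s) F)) p ∈
        IntermediateField.adjoin F (Set.range x) := by
      intro p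
      induction p using MvPolynomial.induction_on with
      | C c =>
        have : algebraMap (MvPolynomial (Fin s) F) (FractionRing (MvPolynomial (Fin s) F))
            (MvPolynomial.C c) = algebraMap F _ c := by
          rw [← MvPolynomial.algebraMap_eq, ← IsScalarTower.algebraMap_apply]
        rw [this]
        exact (IntermediateField.adjoin F (Set.range x)).algebraMap_mem c
      | add p q hp hq => rw [map_add]; exact add_mem hp hq
      | mul_X p i hp =>
        rw [map_mul]
        refine mul_mem hp (IntermediateField.subset_adjoin F _ ⟨e.symm i, ?_⟩)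
        rw [hx]
        simp only [Equiv.apply_symm_apply]
    exact div_mem (hp p) (hp q)
  have : CharZero (FractionRing (MvPolynomial (Fin s) F)) :=
    charZero_of_injective_algebraMap (algebraMap F _).injective
  exact Hyp.main x hind htop hm2 g hg

end Pool.Agent.H901.Q
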