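import Pool.Agent.H901.Q.Stm

/-!
Project Q (owner helper901, MP_1dc56d_ag), part IRR: monic irreducible polynomials remain
irreducible after the substitution `Phi`. The substitution has a retraction: with `a j = -1` for
`j < N - 1`, `a (N - 1) = 1` the form `pb a N` is hyperbolic, and the vectors
`v i = e i + ∑ (g i j / 2) f j` have the Gram matrix `g`.
-/

set_option autoImplicit false

namespace Pool.Agent.H901.Q

open Finset Polynomial Pool.Agent.H901

namespace IrrAux

theorem tri_succ (m : ℕ) : tri (m + 1) = tri m ++ (List.range (m + 1)).map (fun i => (i, m)) := by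
  unfold tri
  rw [List.range_succ (n := m), List.flatMap_append, List.flatMap_singleton,
    ← List.range_succ (n := m)]

theorem MM_succ (m : ℕ) : MM (m + 1) = MM m + (m + 1) := by
  unfold MM
  have : (m + 1) * (m + 1 + 1) = m * (m + 1) + 2 * (m + 1) := by ring
  rw [this, Nat.add_mul_div_left _ _ (by norm_num)]

theorem tri_length (m : ℕ) : (tri m).length = MM m := by
  induction m with
  | zero => rfl
  | succ m ih =>
    rw [tri_succ, List.length_append, ih, List.length_map, List.length_range, MM_succ]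

theorem tri_get (m : ℕ) : ∀ l < MM m, ((tri m).getD l (0, 0)).1 ≤ ((tri m).getD l (0, 0)).2 ∧
    ((tri m).getD l (0, 0)).2 < m ∧
    ix ((tri m).getD l (0, 0)).1 ((tri m).getD l (0, 0)).2 = l := by
  induction m with
  | zero =>
    intro l hl
    simp [MM] at hl
  | succ m ih =>
    intro l hl
    rw [tri_succ]
    by_cases h : l < MM m
    · rw [List.getD_append _ _ _ _ (by rw [tri_length]; exact h)]
      obtain ⟨h1, h2, h3⟩ := ih l h
      exact ⟨h1, by omega, h3⟩
    · have h' : l - MM m < m + 1 := by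
        rw [MM_succ] at hl
        omega
      rw [List.getD_append_right _ _ _ _ (by rw [tri_length]; omega), tri_length]
      have h4 : ((List.range (m + 1)).map (fun i => (i, m))).getD (l - MM m) (0, 0) =
          (l - MM m, m) := by
        rw [List.getD_eq_getElem _ _ (by simpa using h')]
        simp
      rw [h4]
      refine ⟨by simp; omega, by simp, ?_⟩
      show ix (l - MM m) m = l
      unfold ix
      rw [if_pos (by omega)]
      show MM m + (l - MM m) = l
      omega

theorem ix_symm (i j : ℕ) : ix i j = ix j i := by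
  unfold ix
  split_ifs with h1 h2 h2
  · have : i = j := by omega
    subst this
    rfl
  · rfl
  · rfl
  · omega

theorem pb_map {R S : Type*} [CommRing R] [CommRing S] (φ : R →+* S) (a : ℕ → R) (i : ℕ)
    (z w : ℕ → R) : pb (fun j => φ (a j)) i (fun m => φ (z m)) (fun m => φ (w m)) =
      φ (pb a i z w) := by
  unfold pb
  rw [map_sum]
  refine sum_congr rfl fun m _ => ?_
  rw [pc_map, map_mul, map_mul]

theorem pc_congr {R : Type*} [CommRing R] (a b : ℕ → R) : ∀ N : ℕ, (∀ j < N, a j = b j) →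
    ∀ m, pc a N m = pc b N m := by
  intro N
  induction N with
  | zero => intro _ m; rfl
  | succ N ih =>
    intro h m
    rw [pc, pc, ih (fun j hj => h j (by omega)), ih (fun j hj => h j (by omega)), h N (by omega)]

theorem pb_congr_slots {R : Type*} [CommRing R] {a b : ℕ → R} {N : ℕ} (h : ∀ j < N, a j = b j)
    (z w : ℕ → R) : pb a N z w = pb b N z w := by
  unfold pb
  refine sum_congr rfl fun m _ => ?_
  rw [pc_congr a b N h]

theorem gram_map {R S : Type*} [CommRing R] [CommRing S] (φ : R →+* S) (N : ℕ) (θ : ℕ → R)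
    (i j : ℕ) : gram N (fun l => φ (θ l)) i j = φ (gram N θ i j) := by
  unfold gram
  rw [← pb_map]
  simp only [map_neg]

theorem sb_map {R S : Type*} [CommRing R] [CommRing S] (φ : R →+* S) (N m : ℕ) (θ : ℕ → R)
    (l : ℕ) : sb N m (fun l => φ (θ l)) l = φ (sb N m θ l) := by
  unfold sb
  split_ifs
  · exact gram_map φ N θ _ _
  · rfl

section Hyp

variable {R : Type*} [CommRing R]

/-- the slots of the hyperbolic form -/
def sl (R : Type*) [CommRing R] (M j : ℕ) : R := if j = M then 1 else -1

theorem pc_sl (M : ℕ) : ∀ i ≤ M, ∀ l, pc (sl R M) i l = 1 := by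
  intro i
  induction i with
  | zero => intro _ l; rfl
  | succ i ih =>
    intro hi l
    rw [pc, ih (by omega), ih (by omega)]
    have h1 : sl R M i = -1 := if_neg (by omega)
    rw [h1]
    simp

theorem pb_sl (M : ℕ) (f f' g g' : ℕ → R) :
    pb (sl R M) (M + 1) (gl M f g) (gl M f' g') =
      ∑ l ∈ range (2 ^ M), (f l * f' l - g l * g' l) := by
  rw [pb_gl]
  have h1 : sl R M M = 1 := if_pos rfl
  rw [h1, one_mul, sum_sub_distrib]
  unfold pb
  congr 1 <;> refine sum_congr rfl fun l _ => ?_ <;> rw [pc_sl M M le_rfl, one_mul]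

/-- the vector `v i` -/
def vv (M m : ℕ) (h : R) (g : ℕ → ℕ → R) (i : ℕ) : ℕ → R :=
  gl M (fun l => if l < m then h * ((if l = i then 1 else 0) + g i l) else 0)
    (fun l => if l < m then h * ((if l = i then 1 else 0) - g i l) else 0)

theorem pb_vv (M m : ℕ) (h : R) (hh : 2 * h = 1) (g : ℕ → ℕ → R) (hg : ∀ i j, g i j = g j i)
    (hm : m ≤ 2 ^ M) {i j : ℕ} (hi : i < m) (hj : j < m) :
    pb (sl R M) (M + 1) (vv M m h g i) (vv M m h g j) = g i j := by
  unfold vv
  rw [pb_sl]
  have h1 : ∀ l ∈ range (2 ^ M),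
      ((if l < m then h * ((if l = i then 1 else 0) + g i l) else 0) *
        (if l < m then h * ((if l = j then 1 else 0) + g j l) else 0) -
      (if l < m then h * ((if l = i then 1 else 0) - g i l) else 0) *
        (if l < m then h * ((if l = j then 1 else 0) - g j l) else 0)) =
      (if l = i then h * g j i else 0) + (if l = j then h * g i j else 0) := by
    intro l _
    have hi' : l < m ∨ ¬ l < m := em _
    rcases hi' with hl | hl
    · rw [if_pos hl, if_pos hl, if_pos hl, if_pos hl]
      by_cases h2 : l = i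
      · by_cases h3 : l = j
        · rw [if_pos h2, if_pos h3, if_pos h2, if_pos h3, ← h2, ← h3]
          linear_combination (2 * h * g l l) * hh
        · rw [if_pos h2, if_neg h3, if_pos h2, if_neg h3, ← h2]
          linear_combination (h * g j l) * hh
      · by_cases h3 : l = j
        · rw [if_neg h2, if_pos h3, if_neg h2, if_pos h3, ← h3]
          linear_combination (h * g i l) * hh
        · rw [if_neg h2, if_neg h3, if_neg h2, if_neg h3]
          ring
    · rw [if_neg hl, if_neg hl, if_neg hl, if_neg hl, if_neg (by omega), if_neg (by omega)]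
      ring
  rw [sum_congr rfl h1, sum_add_distrib, sum_ite_eq', sum_ite_eq',
    if_pos (mem_range.2 (by omega)), if_pos (mem_range.2 (by omega)), hg j i]
  linear_combination (g i j) * hh

/-- the values of the new variables -/
def th (M m : ℕ) (h : R) (g : ℕ → ℕ → R) (x : ℕ → R) (b : ℕ) : R :=
  if b < M + 1 then -sl R M b
  else if b < M + 1 + m * 2 ^ (M + 1) then
    vv M m h g ((b - (M + 1)) / 2 ^ (M + 1)) ((b - (M + 1)) % 2 ^ (M + 1))
  else x (MM m + (b - (M + 1 + m * 2 ^ (M + 1))))

theorem gram_th (M m : ℕ) (h : R) (hh : 2 * h = 1) (g : ℕ → ℕ → R) (hg : ∀ i j, g i j = g j i)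
    (hm : m ≤ 2 ^ M) (x : ℕ → R) {i j : ℕ} (hi : i < m) (hj : j < m) :
    gram (M + 1) (th M m h g x) i j = g i j := by
  have key : ∀ i < m, ∀ l < 2 ^ (M + 1), th M m h g x (M + 1 + i * 2 ^ (M + 1) + l) =
      vv M m h g i l := by
    intro i hi l hl
    have h1 : (i + 1) * 2 ^ (M + 1) ≤ m * 2 ^ (M + 1) := Nat.mul_le_mul_right _ hi
    rw [Nat.add_mul, one_mul] at h1
    unfold th
    rw [if_neg (by omega), if_pos (by omega)]
    have h2 : M + 1 + i * 2 ^ (M + 1) + l - (M + 1) = l + i * 2 ^ (M + 1) := by omega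
    rw [h2, Nat.add_mul_div_right _ _ (by positivity), Nat.div_eq_of_lt hl, zero_add,
      Nat.add_mul_mod_self_right, Nat.mod_eq_of_lt hl]
  unfold gram
  rw [pb_congr_slots (b := sl R M) (fun b hb => by
    unfold th
    rw [if_pos hb, neg_neg]), pb_congr _ _ (key i hi) (key j hj)]
  exact pb_vv M m h hh g hg hm hi hj

theorem sb_th (M m : ℕ) (h : R) (hh : 2 * h = 1) (x : ℕ → R) (hm : m ≤ 2 ^ M) (l : ℕ) :
    sb (M + 1) m (th M m h (fun i j => x (ix i j)) x) l = x l := by
  unfold sb
  split_ifs with hl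
  · obtain ⟨h1, h2, h3⟩ := tri_get m l hl
    rw [gram_th M m h hh _ (fun i j => by rw [ix_symm]) hm x (lt_of_le_of_lt h1 h2) h2, h3]
  · unfold th
    rw [if_neg (by omega), if_neg (by omega)]
    congr 1
    omega

end Hyp

/-- The substitution has a retraction. -/
theorem exists_retraction (k : Type) [Field k] [CharZero k] (N m t : ℕ) (hN : 1 ≤ N)
    (hm : 2 * m ≤ 2 ^ N) :
    ∃ Ψ : MvPolynomial (Fin (N + m * 2 ^ N + t)) k →ₐ[k] MvPolynomial (Fin (MM m + t)) k,
      Ψ.comp (Phi k N m t) = AlgHom.id k _ := by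
  obtain ⟨M, rfl⟩ : ∃ M, N = M + 1 := ⟨N - 1, by omega⟩
  have hm' : m ≤ 2 ^ M := by
    rw [pow_succ] at hm
    omega
  set R := MvPolynomial (Fin (MM m + t)) k with hR
  set h : R := MvPolynomial.C (1 / 2 : k) with hh
  have hh2 : 2 * h = 1 := by
    have h1 : (2 : R) = MvPolynomial.C (2 : k) := (map_ofNat MvPolynomial.C 2).symm
    rw [hh, h1, ← MvPolynomial.C_mul]
    norm_num
  set x : ℕ → R := xw k (MM m + t) with hx
  set θ : ℕ → R := th M m h (fun i j => x (ix i j)) x with hθ
  refine ⟨MvPolynomial.aeval (fun j => θ j), ?_⟩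
  have h1 : ∀ b, MvPolynomial.aeval (fun j : Fin (M + 1 + m * 2 ^ (M + 1) + t) => θ j)
      (xw k (M + 1 + m * 2 ^ (M + 1) + t) b) = θ b := by
    intro b
    unfold xw
    split_ifs with hb
    · rw [MvPolynomial.aeval_X]
    · rw [map_zero, hθ]
      unfold th
      rw [if_neg (by omega), if_neg (by omega), hx]
      unfold xw
      rw [dif_neg (by omega)]
  refine MvPolynomial.algHom_ext fun l => ?_
  rw [AlgHom.comp_apply, AlgHom.id_apply]
  unfold Phi
  rw [MvPolynomial.aeval_X]
  have h2 := sb_map ((MvPolynomial.aeval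
      (fun j : Fin (M + 1 + m * 2 ^ (M + 1) + t) => θ j) :
        MvPolynomial (Fin (M + 1 + m * 2 ^ (M + 1) + t)) k →ₐ[k] R) :
        MvPolynomial (Fin (M + 1 + m * 2 ^ (M + 1) + t)) k →+* R) (M + 1) m
      (xw k (M + 1 + m * 2 ^ (M + 1) + t)) l
  refine Eq.trans h2.symm ?_
  have h3 : (fun b => ((MvPolynomial.aeval
      (fun j : Fin (M + 1 + m * 2 ^ (M + 1) + t) => θ j) :
        MvPolynomial (Fin (M + 1 + m * 2 ^ (M + 1) + t)) k →ₐ[k] R) :
        MvPolynomial (Fin (M + 1 + m * 2 ^ (M + 1) + t)) k →+* R)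
      (xw k (M + 1 + m * 2 ^ (M + 1) + t) b)) = θ := funext h1
  rw [h3, hθ, sb_th M m h hh2 x hm' l, hx]
  unfold xw
  rw [dif_pos l.2]

end IrrAux

/-- Part IRR, without any hypothesis. -/
theorem irr : S_IRR := by
  intro k _ _ N m t P hN hm hP hPm
  obtain ⟨Ψ, hΨ⟩ := IrrAux.exists_retraction k N m t hN hm
  refine hPm.map _ |>.irreducible_of_irreducible_map
    (Ψ : MvPolynomial (Fin (N + m * 2 ^ N + t)) k →+* MvPolynomial (Fin (MM m + t)) k) _ ?_
  rw [Polynomial.map_map]
  have h1 : (Ψ : MvPolynomial (Fin (N + m * 2 ^ N + t)) k →+*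
      MvPolynomial (Fin (MM m + t)) k).comp
      (Phi k N m t : _ →+* MvPolynomial (Fin (N + m * 2 ^ N + t)) k) = RingHom.id _ := by
    refine RingHom.ext fun x => ?_
    exact DFunLike.congr_fun hΨ x
  rw [h1, Polynomial.map_id]
  exact hP

end Pool.Agent.H901.Q
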