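import Pool.Agent.H901.LAM

/-!
# Project Q (owner helper901, MP_1dc56d_ag): quadratic forms and intersections of two quadrics

Statements of the self-contained parts. Notation of `Pool.Agent.H901.BAS`, `Pool.Agent.H901.PF`:
`pc a N m`, `m < 2 ^ N`, are the diagonal coefficients of the Pfister form
`<1, -a 0> ⊗ … ⊗ <1, -a (N - 1)>`, `pb a N` is its bilinear form, `pq a N` its quadratic form
(only the coordinates `m < 2 ^ N` of the vectors `ℕ → K` matter), and `An a N`
(`Pool.Agent.H901.LAM`) says that it is anisotropic.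
-/

set_option autoImplicit false

namespace Pool.Agent.H901.Q

open Finset Polynomial Pool.Agent.H901

/-! ### forms -/

/-- the diagonal form `<c 0, …, c (s - 1)>` -/
def dq {R : Type*} [CommRing R] (c : ℕ → R) (s : ℕ) (z : ℕ → R) : R :=
  ∑ m ∈ range s, c m * z m ^ 2

/-- the diagonal form is anisotropic -/
def DA {R : Type*} [CommRing R] (c : ℕ → R) (s : ℕ) : Prop :=
  ∀ z : ℕ → R, dq c s z = 0 → ∀ m < s, z m = 0

/-- the quadratic form with the Gram matrix `g` in the variables `z 0, …, z (m - 1)` -/
def gq {R : Type*} [CommRing R] (g : ℕ → ℕ → R) (m : ℕ) (z : ℕ → R) : R :=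
  ∑ i ∈ range m, ∑ j ∈ range m, g i j * (z i * z j)

/-- the form with the Gram matrix `g` is anisotropic -/
def GA {R : Type*} [CommRing R] (g : ℕ → ℕ → R) (m : ℕ) : Prop :=
  ∀ z : ℕ → R, gq g m z = 0 → ∀ i < m, z i = 0

/-! ### part CAS: Cassels' second representation theorem -/

/-- If the anisotropic form `<c 0, …, c s>` represents `c s * X ^ 2 + d` over `K(X)`, then
`<c 0, …, c (s - 1)>` represents `d` over `K`. -/
def S_CAS : Prop :=
  ∀ (K : Type) [Field K] [CharZero K] (c : ℕ → K) (s : ℕ) (d : K), DA c (s + 1) →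
    (∃ z : ℕ → RatFunc K, dq (fun m => RatFunc.C (c m)) (s + 1) z =
      RatFunc.C (c s) * RatFunc.X ^ 2 + RatFunc.C d) →
    ∃ w : ℕ → K, dq c s w = d

/-! ### part STEP: the function field of the quadric `c k u_0² + … + c (k+r-1) u_(r-1)² = d` -/

/-- Let `<c 0, …, c (k + r - 1)>` be anisotropic, with a multiplicatively closed set of values over
all extension fields. If it becomes isotropic over the function field `K'` of the affine quadric
`∑ c (k + m) u_m² = d`, then `<c 0, …, c (k - 1)>` represents `-d`. -/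
def S_STEP : Prop :=
  ∀ (K : Type) [Field K] [CharZero K] (c : ℕ → K) (k r : ℕ), 1 ≤ r → DA c (k + r) →
    (∀ (L : Type) [Field L] (φ : K →+* L) (x y : ℕ → L), ∃ z : ℕ → L,
      dq (fun m => φ (c m)) (k + r) z =
        dq (fun m => φ (c m)) (k + r) x * dq (fun m => φ (c m)) (k + r) y) →
    ∀ (K' : Type) [Field K'] [Algebra K K'] (u : ℕ → K') (d : K),
      ∑ m ∈ range r, algebraMap K K' (c (k + m)) * u m ^ 2 = algebraMap K K' d →
      AlgebraicIndependent K (fun m : Fin (r - 1) => u (m + 1)) →
      IntermediateField.adjoin K (u '' Set.Iio r) = ⊤ →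
      ¬ DA (fun m => algebraMap K K' (c m)) (k + r) →
      ∃ w : ℕ → K, dq c k w = -d

/-! ### part TOW: one more vector -/

/-- Let the Pfister form `pq a N` be anisotropic over `K`, `v 0, …, v (k - 1)` vectors over `K`, and
`E = K(w)` generated by the coordinates of a vector `w` whose products with the `v i` and with itself
are in `K`, and which is generic with these products (transcendence degree at least `2 ^ N - k - 1`).
If the Pfister form is isotropic over `E`, then the form with the Gram matrix of
`v 0, …, v (k - 1), w` is isotropic over `K`. -/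
def S_TOW : Prop :=
  ∀ (K E : Type) [Field K] [CharZero K] [Field E] [Algebra K E] (a : ℕ → K) (N k : ℕ)
    (v : ℕ → ℕ → K) (w : ℕ → E) (h : ℕ → K) (g : K),
    An a N → k < 2 ^ N →
    (∀ i < k, pb (fun j => algebraMap K E (a j)) N (fun l => algebraMap K E (v i l)) w =
      algebraMap K E (h i)) →
    pq (fun j => algebraMap K E (a j)) N w = algebraMap K E g →
    IntermediateField.adjoin K (w '' Set.Iio (2 ^ N)) = ⊤ →
    ((2 ^ N - k - 1 : ℕ) : Cardinal) ≤ Algebra.trdeg K E →
    ¬ An (fun j => algebraMap K E (a j)) N →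
    ∃ (c : ℕ → K) (c0 : K), (c0 ≠ 0 ∨ ∃ i < k, c i ≠ 0) ∧
      gq (fun i j => pb a N (v i) (v j)) k c + 2 * c0 * ∑ i ∈ range k, h i * c i +
        c0 ^ 2 * g = 0

/-! ### part ANIS: generic frames -/

/-- the number of the entries `g i j` with `i ≤ j < m` -/
abbrev MM (m : ℕ) : ℕ := m * (m + 1) / 2

/-- the elements `a j`, `j < N`, and `v i l`, `i < m`, `l < 2 ^ N` -/
def gens {E : Type*} (a : ℕ → E) (v : ℕ → ℕ → E) (N m : ℕ) : Set E :=
  {x | (∃ j < N, x = a j) ∨ ∃ i < m, ∃ l < 2 ^ N, x = v i l}

/-- Let `E` be generated over `F` by the `a j` and the coordinates of the vectors `v 0, …, v (m - 1)`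
with the Gram matrix `g` over `F` with respect to `pb a N`, generic with this property. If the form
with the Gram matrix `g` is anisotropic over `E`, then so is the Pfister form `pq a N`. -/
def S_ANIS : Prop :=
  ∀ (F E : Type) [Field F] [CharZero F] [Field E] [Algebra F E] (a : ℕ → E) (N m : ℕ)
    (v : ℕ → ℕ → E) (g : ℕ → ℕ → F),
    m ≤ 2 ^ N → (∀ i j, g i j = g j i) → (∀ j < N, a j ≠ 0) →
    (∀ i < m, ∀ j < m, pb a N (v i) (v j) = algebraMap F E (g i j)) →
    IntermediateField.adjoin F (gens a v N m) = ⊤ →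
    ((N + m * 2 ^ N - MM m : ℕ) : Cardinal) ≤ Algebra.trdeg F E →
    GA (fun i j => algebraMap F E (g i j)) m →
    An a N

/-! ### part HYP: the purely transcendental field -/

/-- For every symmetric `m × m` matrix `g` over `F` with `2 * m ≤ 2 ^ N` there are, over the rational
function field in `N + m * 2 ^ N - MM m` variables, slots `a j` and vectors `v i` with the Gram
matrix `g` with respect to `pb a N`, such that the rational function field is algebraic over the
field generated by the `a j` and `v i l`. (With `a (N - 1) = ζ ^ 2` the form `pb a N` is hyperbolic,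
and the equations become linear in half of the unknowns.) -/
def S_HYP : Prop :=
  ∀ (F : Type) [Field F] [CharZero F] (N m : ℕ) (g : ℕ → ℕ → F), 1 ≤ N → 2 * m ≤ 2 ^ N →
    (∀ i j, g i j = g j i) →
    ∃ (a : ℕ → FractionRing (MvPolynomial (Fin (N + m * 2 ^ N - MM m)) F))
      (v : ℕ → ℕ → FractionRing (MvPolynomial (Fin (N + m * 2 ^ N - MM m)) F)),
      (∀ j < N, a j ≠ 0) ∧
      (∀ i < m, ∀ j < m, pb a N (v i) (v j) = algebraMap F _ (g i j)) ∧
      Algebra.IsAlgebraic (IntermediateField.adjoin F (gens a v N m))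
        (FractionRing (MvPolynomial (Fin (N + m * 2 ^ N - MM m)) F))

/-! ### the substitution -/

/-- the number of the entry `(i, j)` of a symmetric matrix: `j (j + 1) / 2 + i` for `i ≤ j` -/
def ix (i j : ℕ) : ℕ := if i ≤ j then j * (j + 1) / 2 + i else i * (i + 1) / 2 + j

/-- the pairs `(i, j)` with `i ≤ j < m`, in the order of the numbers `ix i j` -/
def tri (m : ℕ) : List (ℕ × ℕ) :=
  (List.range m).flatMap (fun j => (List.range (j + 1)).map (fun i => (i, j)))

/-- the product of the vectors number `i` and `j` with respect to the Pfister form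
`<1, θ 0> ⊗ … ⊗ <1, θ (N - 1)>`; the coordinate `l` of the vector number `i` is
`θ (N + i * 2 ^ N + l)` -/
def gram {R : Type*} [CommRing R] (N : ℕ) (θ : ℕ → R) (i j : ℕ) : R :=
  pb (fun b => -θ b) N (fun l => θ (N + i * 2 ^ N + l)) (fun l => θ (N + j * 2 ^ N + l))

/-- the substitution: the first `MM m` variables are replaced by the products `gram N θ i j`, the
others are renumbered -/
def sb {R : Type*} [CommRing R] (N m : ℕ) (θ : ℕ → R) (l : ℕ) : R :=
  if l < MM m then gram N θ ((tri m).getD l (0, 0)).1 ((tri m).getD l (0, 0)).2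
  else θ (N + m * 2 ^ N + (l - MM m))

/-- the variables `x_j`, `j < n` (this is `Pool.Agent.H901.xv`) -/
noncomputable def xw (k : Type) [Field k] (n : ℕ) (j : ℕ) : MvPolynomial (Fin n) k :=
  if h : j < n then MvPolynomial.X ⟨j, h⟩ else 0

/-- the substitution for polynomials: `n = MM m + t` old variables, `N + m * 2 ^ N + t` new ones -/
noncomputable def Phi (k : Type) [Field k] (N m t : ℕ) :
    MvPolynomial (Fin (MM m + t)) k →ₐ[k] MvPolynomial (Fin (N + m * 2 ^ N + t)) k :=
  MvPolynomial.aeval (fun l => sb N m (xw k (N + m * 2 ^ N + t)) l)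

/-! ### parts IRR and EQV -/

/-- Monic irreducible polynomials remain irreducible. (Use HYP for the function field `B` of the old
variables and `g i j = x_(ix i j)`: the new variables are sent to algebraically independent elements
of a purely transcendental extension of `B`, over which the polynomial is irreducible.) -/
def S_IRR : Prop :=
  ∀ (k : Type) [Field k] [CharZero k] (N m t : ℕ) (P : (MvPolynomial (Fin (MM m + t)) k)[X]),
    1 ≤ N → 2 * m ≤ 2 ^ N → Irreducible P → P.Monic →
    Irreducible (P.map (Phi k N m t : _ →+* MvPolynomial (Fin (N + m * 2 ^ N + t)) k))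

/-- The Pfister form `<<x_0, …, x_(N-1)>>` has a nontrivial zero over the function field of the
hypersurface `P = 0` (this is `Pool.Agent.H901.IsoPf`). -/
def IsoP {k : Type} [Field k] {n : ℕ} (N : ℕ) (P : (MvPolynomial (Fin n) k)[X]) : Prop :=
  ∃ z : ℕ → FractionRing (AdjoinRoot P), (∃ m < 2 ^ N, z m ≠ 0) ∧
    pq (fun j => algebraMap (AdjoinRoot P) (FractionRing (AdjoinRoot P))
      (AdjoinRoot.of P (xw k n j))) N z = 0

/-- The quadratic form with the Gram matrix `x_(ix i j)`, `i, j < m`, has a nontrivial zero over the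
function field of the hypersurface `P = 0`. -/
def IsoG {k : Type} [Field k] {n : ℕ} (m : ℕ) (P : (MvPolynomial (Fin n) k)[X]) : Prop :=
  ∃ z : ℕ → FractionRing (AdjoinRoot P), (∃ i < m, z i ≠ 0) ∧
    gq (fun i j => algebraMap (AdjoinRoot P) (FractionRing (AdjoinRoot P))
      (AdjoinRoot.of P (xw k n (ix i j)))) m z = 0

/-- The main equivalence. -/
def S_EQV : Prop :=
  ∀ (k : Type) [Field k] [CharZero k] (ι : k), ι ^ 2 = -1 →
    ∀ (N m t : ℕ) (P : (MvPolynomial (Fin (MM m + t)) k)[X]),
    1 ≤ N → 2 * m ≤ 2 ^ N → Irreducible P → P.Monic → P.natDegree ≠ 0 →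
    (IsoP N (P.map (Phi k N m t : _ →+* MvPolynomial (Fin (N + m * 2 ^ N + t)) k)) ↔ IsoG m P)

/-! ### part CODE: the substitution for codes -/

/-- the binary digits `1` of `l`, as in `pc` -/
def pl : ℕ → ℕ → List ℕ
  | 0, _ => []
  | i + 1, l => if l < 2 ^ i then pl i l else i :: pl i (l - 2 ^ i)

/-- the monomials of `gram N θ i j` -/
def gm (N i j : ℕ) : List (List ℕ) :=
  (List.range (2 ^ N)).map (fun l => pl N l ++ [N + i * 2 ^ N + l, N + j * 2 ^ N + l])

/-- the monomials of `sb N m θ l` -/
def mon (N m l : ℕ) : List (List ℕ) :=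
  if l < MM m then ((tri m).map (fun q => gm N q.1 q.2)).getD l []
  else [[N + m * 2 ^ N + (l - MM m)]]

/-- the monomials of the product over a list of variables -/
def expand (N m : ℕ) (w : List ℕ) : List (List ℕ) :=
  w.foldr (fun l acc => (mon N m l).flatMap (fun μ => acc.map (fun ρ => μ ++ ρ))) [[]]

/-- the substitution for codes of polynomials -/
def subst (N m : ℕ) (p : Poly) : Poly :=
  p.flatMap (fun t => (expand N m t.2).map (fun ρ => (t.1, ρ)))

/-- The substitution for codes is primitive recursive, gives the right polynomial, and the right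
variables occur. -/
def S_CODE : Prop :=
  ∀ N m : ℕ, Primrec (subst N m) ∧
    (∀ (ν : ℕ → Qb) (B : Type) [CommRing B] [Algebra Qb B] (θ : ℕ → B) (p : Poly),
      MvPolynomial.aeval θ (val ν (subst N m p)) = MvPolynomial.aeval (sb N m θ) (val ν p)) ∧
    ∀ (t : ℕ) (p : Poly), (∀ q ∈ p, ∀ j ∈ q.2, j < MM m + t) →
      ∀ q ∈ subst N m p, ∀ j ∈ q.2, j < N + m * 2 ^ N + t

/-! ### parts AB and MOD: all quadratic forms and all pairs of forms are covered -/

/-- The theorem of Amer and Brumer: if `A + X B` is isotropic over `F(X)`, then `A` and `B` have a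
common nontrivial zero over `F`. -/
def S_AB : Prop :=
  ∀ (F : Type) [Field F] [CharZero F] (m : ℕ) (A B : ℕ → ℕ → F),
    (∀ i j, A i j = A j i) → (∀ i j, B i j = B j i) →
    (∃ z : ℕ → RatFunc F, (∃ i < m, z i ≠ 0) ∧
      gq (fun i j => RatFunc.C (A i j) + RatFunc.X * RatFunc.C (B i j)) m z = 0) →
    ∃ z : ℕ → F, (∃ i < m, z i ≠ 0) ∧ gq A m z = 0 ∧ gq B m z = 0

/-- Every quadratic form in `m ≥ 2` variables over a finitely generated extension of `k` is covered
by a hypersurface: after a generic triangular change of the basis the entries of the Gram matrix are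
algebraically independent. (If `g` is degenerate, replace it by `<1, -1, 1, …, 1>`.) -/
def S_MOD : Prop :=
  ∀ (k F : Type) [Field k] [CharZero k] [Field F] [Algebra k F] [Algebra.EssFiniteType k F]
    (m : ℕ) (g : ℕ → ℕ → F), 2 ≤ m → (∀ i j, g i j = g j i) →
    ∃ t : ℕ, (t : Cardinal) = Algebra.trdeg k F ∧ ∃ P : (MvPolynomial (Fin (MM m + t)) k)[X],
      Irreducible P ∧ P.Monic ∧ P.natDegree ≠ 0 ∧
      (IsoG m P ↔ ∃ z : ℕ → F, (∃ i < m, z i ≠ 0) ∧ gq g m z = 0)

end Pool.Agent.H901.Q
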