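import Pool.Agent.H901.GEN
import Pool.Agent.H901.Q.Stm

/-!
# Project Q, part MOD (MP_1dc56d_ag): every quadratic form over a finitely generated field is covered
by a monic hypersurface

After diagonalisation (a degenerate form is isotropic, and is replaced by `<1, -1, 1, …, 1>`) the form
is changed by the generic triangular matrix `T`: the entries of `Tᵀ diag(d) T` are algebraically
independent, because the rational function field in the entries of `T` is algebraic over the field
which they generate.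
-/

set_option autoImplicit false

namespace Pool.Agent.H901.Q

open Finset Polynomial Pool.Agent.H901

section Forms

variable {K : Type} [Field K]

/-- the form as a sum over `Fin m` -/
theorem gq_fin (g : ℕ → ℕ → K) (m : ℕ) (z : ℕ → K) :
    gq g m z = ∑ i : Fin m, ∑ j : Fin m, g i j * (z i * z j) := by
  unfold gq
  rw [← Fin.sum_univ_eq_sum_range (fun i => ∑ j ∈ range m, g i j * (z i * z j))]
  refine sum_congr rfl fun i _ => ?_
  rw [← Fin.sum_univ_eq_sum_range (fun j => g i j * (z i * z j))]

/-- isotropy in terms of vectors indexed by `Fin m` -/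
theorem iso_fin (g : ℕ → ℕ → K) (m : ℕ) :
    (∃ z : ℕ → K, (∃ i < m, z i ≠ 0) ∧ gq g m z = 0) ↔
      ∃ v : Fin m → K, v ≠ 0 ∧ ∑ i : Fin m, ∑ j : Fin m, g i j * (v i * v j) = 0 := by
  constructor
  · rintro ⟨z, ⟨i, hi, hz⟩, h0⟩
    refine ⟨fun i => z i, fun h => hz (congrFun h ⟨i, hi⟩), ?_⟩
    rw [← gq_fin]
    exact h0
  · rintro ⟨v, hv, h0⟩
    obtain ⟨i, hi⟩ := Function.ne_iff.1 hv
    let z : ℕ → K := fun i => if h : i < m then v ⟨i, h⟩ else 0
    have hz : ∀ i : Fin m, z i = v i := fun i => dif_pos i.2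
    refine ⟨z, ⟨i, i.2, by rw [hz]; exact hi⟩, ?_⟩
    rw [gq_fin]
    simp only [hz]
    exact h0

/-- diagonalisation, up to isotropy -/
theorem exists_diag (h2 : (2 : K) ≠ 0) (g : ℕ → ℕ → K) (m : ℕ) (hm : 2 ≤ m) :
    ∃ d : Fin m → K, (∀ i, d i ≠ 0) ∧
      ((∃ z : ℕ → K, (∃ i < m, z i ≠ 0) ∧ gq g m z = 0) ↔
        ∃ v : Fin m → K, v ≠ 0 ∧ ∑ i, d i * v i ^ 2 = 0) := by
  have : Invertible (2 : K) := invertibleOfNonzero h2
  let B : LinearMap.BilinMap K (Fin m → K) K := Matrix.toLinearMap₂' K (Matrix.of fun i j : Fin m => g i j)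
  let Q : QuadraticForm K (Fin m → K) := B.toQuadraticMap
  have hQ : ∀ v, Q v = ∑ i : Fin m, ∑ j : Fin m, g i j * (v i * v j) := by
    intro v
    show B v v = _
    rw [Matrix.toLinearMap₂'_apply]
    refine sum_congr rfl fun i _ => sum_congr rfl fun j _ => ?_
    simp only [Matrix.of_apply, smul_eq_mul]
    ring
  obtain ⟨w, ⟨e⟩⟩ := QuadraticForm.equivalent_weightedSumSquares Q
  have hfr : Module.finrank K (Fin m → K) = m := Module.finrank_fin_fun K
  have hiso : (∃ z : ℕ → K, (∃ i < m, z i ≠ 0) ∧ gq g m z = 0) ↔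
      ∃ v : Fin m → K, v ≠ 0 ∧ ∑ i, w (Fin.cast hfr.symm i) * v i ^ 2 = 0 := by
    rw [iso_fin]
    have hw : ∀ v : Fin (Module.finrank K (Fin m → K)) → K, QuadraticMap.weightedSumSquares K w v =
        ∑ i : Fin m, w (Fin.cast hfr.symm i) * (v (Fin.cast hfr.symm i)) ^ 2 := by
      intro v
      rw [QuadraticMap.weightedSumSquares_apply]
      refine (Fintype.sum_equiv (finCongr hfr.symm) _ _ fun i => ?_).symm
      rw [smul_eq_mul, sq]
      rfl
    constructor
    · rintro ⟨v, hv, h0⟩
      rw [← hQ, ← e.map_app, hw] at h0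
      refine ⟨fun i => e v (Fin.cast hfr.symm i), fun h => hv ?_, h0⟩
      have h1 : e v = 0 := by
        funext i
        exact congrFun h (Fin.cast hfr i)
      have h2 : e.toLinearEquiv v = 0 := h1
      exact (LinearEquiv.map_eq_zero_iff e.toLinearEquiv).1 h2
    · rintro ⟨v, hv, h0⟩
      let v' : Fin (Module.finrank K (Fin m → K)) → K := fun i => v (Fin.cast hfr i)
      refine ⟨e.toLinearEquiv.symm v', fun h => hv ?_, ?_⟩
      · have h1 : v' = 0 := (LinearEquiv.map_eq_zero_iff e.toLinearEquiv.symm).1 h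
        funext i
        exact congrFun h1 (Fin.cast hfr.symm i)
      · rw [← hQ, ← e.map_app]
        have h1 : e (e.toLinearEquiv.symm v') = v' := e.toLinearEquiv.apply_symm_apply v'
        rw [h1, hw]
        exact h0
  by_cases hw0 : ∀ i, w (Fin.cast hfr.symm i) ≠ 0
  · exact ⟨fun i => w (Fin.cast hfr.symm i), hw0, hiso⟩
  · push Not at hw0
    obtain ⟨i0, hi0⟩ := hw0
    refine ⟨fun i => if i = ⟨1, hm⟩ then -1 else 1, fun i => ?_, ?_⟩
    · dsimp only
      split_ifs
      · exact neg_ne_zero.2 one_ne_zero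
      · exact one_ne_zero
    · rw [hiso]
      refine iff_of_true ⟨Pi.single i0 1, ?_, ?_⟩ ⟨fun i => if (i : ℕ) ≤ 1 then 1 else 0, ?_, ?_⟩
      · intro h
        have := congrFun h i0
        simp at this
      · rw [sum_eq_single i0]
        · rw [hi0, zero_mul]
        · intro b _ hb
          rw [Pi.single_eq_of_ne hb]
          ring
        · intro h
          exact absurd (mem_univ _) h
      · intro h
        have := congrFun h ⟨1, hm⟩
        simp at this
      · have h0 : (⟨0, by omega⟩ : Fin m) ≠ ⟨1, hm⟩ := by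
          intro h
          have := congrArg Fin.val h
          simp at this
        rw [← sum_subset (s₁ := {⟨0, by omega⟩, ⟨1, hm⟩}) (subset_univ _)]
        · rw [sum_pair h0]
          simp
        · intro i _ hi
          have h1 : ¬ (i : ℕ) ≤ 1 := by
            intro h
            apply hi
            rw [mem_insert, mem_singleton]
            rcases Nat.le_one_iff_eq_zero_or_eq_one.1 h with h | h
            · left
              exact Fin.ext h
            · right
              exact Fin.ext h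
          dsimp only
          rw [if_neg h1]
          ring

/-- change of the basis: isotropy of `Tᵀ diag(d) T` for an invertible matrix `T` -/
theorem iso_tri {m : ℕ} (d : Fin m → K) (T : Matrix (Fin m) (Fin m) K) (hT : IsUnit T.det) :
    (∃ v : Fin m → K, v ≠ 0 ∧
      ∑ i : Fin m, ∑ j : Fin m, (∑ l, d l * (T l i * T l j)) * (v i * v j) = 0) ↔
      ∃ v : Fin m → K, v ≠ 0 ∧ ∑ i, d i * v i ^ 2 = 0 := by
  have key : ∀ v : Fin m → K,
      ∑ i : Fin m, ∑ j : Fin m, (∑ l, d l * (T l i * T l j)) * (v i * v j) =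
        ∑ l, d l * (T.mulVec v l) ^ 2 := by
    intro v
    have h1 : ∀ l, d l * (T.mulVec v l) ^ 2 =
        ∑ i : Fin m, ∑ j : Fin m, d l * (T l i * T l j) * (v i * v j) := by
      intro l
      have h2 : T.mulVec v l = ∑ i, T l i * v i := rfl
      rw [h2, sq, sum_mul_sum, mul_sum]
      refine sum_congr rfl fun i _ => ?_
      rw [mul_sum]
      refine sum_congr rfl fun j _ => ?_
      ring
    rw [sum_congr rfl fun l _ => h1 l]
    simp only [sum_mul]
    symm
    rw [sum_comm]
    refine sum_congr rfl fun i _ => ?_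
    rw [sum_comm]
  have hTinv : IsUnit T := (Matrix.isUnit_iff_isUnit_det T).2 hT
  constructor
  · rintro ⟨v, hv, h0⟩
    refine ⟨T.mulVec v, fun h => hv ?_, by rw [← key]; exact h0⟩
    have h1 := Matrix.mulVec_injective_of_isUnit hTinv
    apply h1
    rw [h, Matrix.mulVec_zero]
  · rintro ⟨v, hv, h0⟩
    have h1 : T.mulVec (T⁻¹.mulVec v) = v := by
      rw [Matrix.mulVec_mulVec, Matrix.mul_nonsing_inv T hT, Matrix.one_mulVec]
    refine ⟨T⁻¹.mulVec v, fun h => hv ?_, ?_⟩
    · rw [← h1, h, Matrix.mulVec_zero]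
    · rw [key, h1]
      exact h0

end Forms

/-! ### the numbering -/

theorem MM_succ (m : ℕ) : MM (m + 1) = MM m + (m + 1) := by
  unfold MM
  have h : (m + 1) * (m + 1 + 1) = m * (m + 1) + (m + 1) * 2 := by ring
  rw [h, Nat.add_mul_div_right _ _ (by norm_num)]

theorem MM_mono {a b : ℕ} (h : a ≤ b) : MM a ≤ MM b := by
  induction b, h using Nat.le_induction with
  | base => exact le_rfl
  | succ b _ ih => rw [MM_succ]; omega

theorem ix_le {i j : ℕ} (h : i ≤ j) : ix i j = MM j + i := if_pos h

theorem ix_symm (i j : ℕ) : ix i j = ix j i := by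
  unfold ix
  rcases lt_trichotomy i j with h | h | h
  · rw [if_pos h.le, if_neg (by omega)]
  · rw [h]
  · rw [if_neg (by omega), if_pos h.le]

theorem ix_lt {i j m : ℕ} (h : i ≤ j) (hj : j < m) : ix i j < MM m := by
  rw [ix_le h]
  have h1 := MM_succ j
  have h2 : MM (j + 1) ≤ MM m := MM_mono hj
  omega

theorem ix_inj {i j i' j' : ℕ} (h : i ≤ j) (h' : i' ≤ j') (he : ix i j = ix i' j') :
    i = i' ∧ j = j' := by
  rw [ix_le h, ix_le h'] at he
  have hj : j = j' := by
    rcases lt_trichotomy j j' with hlt | heq | hlt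
    · have h1 := MM_succ j
      have h2 : MM (j + 1) ≤ MM j' := MM_mono hlt
      omega
    · exact heq
    · have h1 := MM_succ j'
      have h2 : MM (j' + 1) ≤ MM j := MM_mono hlt
      omega
  subst hj
  exact ⟨by omega, rfl⟩

theorem ix_surj {m l : ℕ} (hl : l < MM m) : ∃ i j, i ≤ j ∧ j < m ∧ ix i j = l := by
  induction m with
  | zero =>
    exact absurd hl (by unfold MM; simp)
  | succ m ih =>
    by_cases h : l < MM m
    · obtain ⟨i, j, h1, h2, h3⟩ := ih h
      exact ⟨i, j, h1, by omega, h3⟩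
    · rw [MM_succ] at hl
      refine ⟨l - MM m, m, by omega, by omega, ?_⟩
      rw [ix_le (by omega)]
      omega

/-! ### the generic triangular matrix -/

section Gen

variable (F : Type) [Field F] (m : ℕ)

/-- the generic upper triangular matrix -/
noncomputable def TT : Matrix (Fin m) (Fin m) (FF F (MM m)) :=
  fun i j => if h : i ≤ j then xx F ⟨ix i j, ix_lt h j.2⟩ else 0

theorem TT_diag (i : Fin m) : TT F m i i ≠ 0 := by
  unfold TT
  rw [dif_pos le_rfl]
  unfold xx
  rw [Ne, map_eq_zero_iff _ (IsFractionRing.injective _ _)]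
  exact MvPolynomial.X_ne_zero _

theorem TT_det : IsUnit (TT F m).det := by
  rw [Matrix.det_of_isUpperTriangular (by
    intro i j hij
    exact dif_neg (not_le.2 hij))]
  rw [isUnit_iff_ne_zero, prod_ne_zero_iff]
  intro i _
  exact TT_diag F m i

variable {F m}

/-- the entries of `Tᵀ diag(d) T` -/
noncomputable def YY (d : Fin m → F) (i j : Fin m) : FF F (MM m) :=
  ∑ l, algebraMap F (FF F (MM m)) (d l) * (TT F m l i * TT F m l j)

theorem YY_symm (d : Fin m → F) (i j : Fin m) : YY d i j = YY d j i := by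
  unfold YY
  refine sum_congr rfl fun l _ => ?_
  rw [mul_comm (TT F m l i)]

/-- the transcendence basis -/
noncomputable def bb (d : Fin m → F) (l : Fin (MM m)) : FF F (MM m) :=
  YY d ⟨(ix_surj l.2).choose, lt_of_le_of_lt (ix_surj l.2).choose_spec.choose_spec.1
    (ix_surj l.2).choose_spec.choose_spec.2.1⟩
    ⟨(ix_surj l.2).choose_spec.choose, (ix_surj l.2).choose_spec.choose_spec.2.1⟩

theorem bb_ix (d : Fin m → F) {i j : Fin m} (h : i ≤ j) : bb d ⟨ix i j, ix_lt h j.2⟩ = YY d i j := by
  unfold bb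
  have hs := ix_surj (m := m) (l := ix i j) (ix_lt h j.2)
  have h1 := hs.choose_spec.choose_spec
  obtain ⟨h2, h3⟩ := ix_inj h1.1 h h1.2.2
  congr 1
  · exact Fin.ext h2
  · exact Fin.ext h3

theorem TT_alg (d : Fin m → F) (hd : ∀ i, d i ≠ 0)
    (A : IntermediateField F (FF F (MM m))) (hA : ∀ i j, YY d i j ∈ A)
    (hA' : ∀ x : FF F (MM m), x ^ 2 ∈ A → x ∈ A) : ∀ i j, TT F m i j ∈ A := by
  have hz : ∀ i j : Fin m, j < i → TT F m i j = 0 := fun i j h => dif_neg (not_le.2 h)
  have main : ∀ n : ℕ, ∀ i : Fin m, (i : ℕ) = n → ∀ j, TT F m i j ∈ A := by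
    intro n
    induction n using Nat.strong_induction_on with
    | _ n ih =>
      intro i hi
      have hsum : ∀ j, i ≤ j → YY d i j = algebraMap F (FF F (MM m)) (d i) *
          (TT F m i i * TT F m i j) + ∑ l ∈ univ.filter (· < i),
            algebraMap F (FF F (MM m)) (d l) * (TT F m l i * TT F m l j) := by
        intro j hj
        unfold YY
        rw [← sum_filter_add_sum_filter_not univ (· < i), add_comm]
        congr 1
        rw [sum_eq_single i]
        · intro l hl hne
          have h1 : i < l := by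
            have h2 := (mem_filter.1 hl).2
            rcases lt_trichotomy l i with h | h | h
            · exact absurd h h2
            · exact absurd h hne
            · exact h
          rw [hz l i h1]
          ring
        · intro h
          apply absurd _ h
          rw [mem_filter]
          exact ⟨mem_univ _, lt_irrefl i⟩
      have hrest : ∀ j, ∑ l ∈ univ.filter (· < i),
            algebraMap F (FF F (MM m)) (d l) * (TT F m l i * TT F m l j) ∈ A := by
        intro j
        refine sum_mem fun l hl => ?_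
        have h1 : (l : ℕ) < n := by
          rw [← hi]
          exact (mem_filter.1 hl).2
        exact mul_mem (A.algebraMap_mem _) (mul_mem (ih l h1 l rfl i) (ih l h1 l rfl j))
      have hprod : ∀ j, i ≤ j → TT F m i i * TT F m i j ∈ A := by
        intro j hj
        have h1 : algebraMap F (FF F (MM m)) (d i) * (TT F m i i * TT F m i j) ∈ A := by
          have h2 := sub_mem (hA i j) (hrest j)
          rw [hsum j hj, add_sub_cancel_right] at h2
          exact h2
        have h2 : algebraMap F (FF F (MM m)) (d i) ≠ 0 := (_root_.map_ne_zero _).2 (hd i)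
        have h3 := mul_mem (inv_mem (A.algebraMap_mem (d i))) h1
        rwa [inv_mul_cancel_left₀ h2] at h3
      have hii : TT F m i i ∈ A := by
        apply hA'
        rw [sq]
        exact hprod i le_rfl
      intro j
      rcases lt_or_ge j i with h | h
      · rw [hz i j h]
        exact zero_mem _
      · have h3 := mul_mem (inv_mem hii) (hprod j h)
        rwa [inv_mul_cancel_left₀ (TT_diag F m i)] at h3
  exact fun i j => main i i rfl j

theorem bb_basis (d : Fin m → F) (hd : ∀ i, d i ≠ 0) : IsTranscendenceBasis F (bb d) := by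
  have hX : IsTranscendenceBasis F (fun j : Fin (MM m) => xx F j) := by
    have h1 : IsTranscendenceBasis F (MvPolynomial.X : Fin (MM m) → MvPolynomial (Fin (MM m)) F) :=
      IsTranscendenceBasis.mvPolynomial (Fin (MM m)) F
    have h2 : Algebra.IsAlgebraic (MvPolynomial (Fin (MM m)) F) (FF F (MM m)) :=
      IsLocalization.isAlgebraic _ (nonZeroDivisors (MvPolynomial (Fin (MM m)) F))
    exact h1.algebraMap_comp
  let K0 : IntermediateField F (FF F (MM m)) := IntermediateField.adjoin F (Set.range (bb d))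
  let A : IntermediateField F (FF F (MM m)) :=
    (algebraicClosure K0 (FF F (MM m))).restrictScalars F
  have hmem : ∀ x, x ∈ A ↔ IsAlgebraic K0 x := fun x => mem_algebraicClosure_iff
  have hK0 : ∀ x ∈ K0, x ∈ A := by
    intro x hx
    rw [hmem]
    exact isAlgebraic_algebraMap (⟨x, hx⟩ : K0)
  have hYA' : ∀ i j : Fin m, i ≤ j → YY d i j ∈ A := by
    intro i j h
    apply hK0
    rw [← bb_ix d h]
    exact IntermediateField.subset_adjoin _ _ ⟨_, rfl⟩
  have hYA : ∀ i j, YY d i j ∈ A := by
    intro i j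
    rcases le_total i j with h | h
    · exact hYA' i j h
    · rw [YY_symm]
      exact hYA' j i h
  have hTA := TT_alg d hd A hYA (by
    intro x hx
    rw [hmem] at hx ⊢
    exact hx.of_pow (by norm_num))
  have hXA : ∀ l : Fin (MM m), xx F l ∈ A := by
    intro l
    obtain ⟨i, j, h1, h2, h3⟩ := ix_surj l.2
    have h4 := hTA ⟨i, by omega⟩ ⟨j, h2⟩
    have h5 : TT F m ⟨i, by omega⟩ ⟨j, h2⟩ = xx F l := by
      unfold TT
      rw [dif_pos (show (⟨i, by omega⟩ : Fin m) ≤ ⟨j, h2⟩ from h1)]
      congr 1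
      exact Fin.ext h3
    rwa [h5] at h4
  have htop : A = ⊤ := by
    rw [eq_top_iff]
    intro x _
    have hring : ∀ p : MvPolynomial (Fin (MM m)) F, algebraMap _ (FF F (MM m)) p ∈ A := by
      intro p
      induction p using MvPolynomial.induction_on with
      | C a =>
        have h1 : algebraMap (MvPolynomial (Fin (MM m)) F) (FF F (MM m)) (MvPolynomial.C a) =
            algebraMap F (FF F (MM m)) a := by
          rw [IsScalarTower.algebraMap_apply F (MvPolynomial (Fin (MM m)) F) (FF F (MM m))]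
          rfl
        rw [h1]
        exact A.algebraMap_mem a
      | add p q hp hq =>
        rw [map_add]
        exact add_mem hp hq
      | mul_X p i hp =>
        rw [map_mul]
        exact mul_mem hp (hXA i)
    obtain ⟨p, q, hq, rfl⟩ := IsFractionRing.div_surjective (A := MvPolynomial (Fin (MM m)) F) x
    exact div_mem (hring p) (hring q)
  have halg : Algebra.IsAlgebraic K0 (FF F (MM m)) := by
    refine ⟨fun x => ?_⟩
    rw [← hmem, htop]
    exact IntermediateField.mem_top
  have halg' : Algebra.IsAlgebraic (Algebra.adjoin F (Set.range (bb d))) (FF F (MM m)) := by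
    rw [← IntermediateField.isAlgebraic_adjoin_iff_top]
    exact halg
  refine Algebra.IsAlgebraic.isTranscendenceBasis_of_le_trdeg_of_finite F (bb d) ?_
  rw [← hX.cardinalMk_eq_trdeg]

end Gen

/-- a finitely generated extension with a transcendence basis is the function field of a
hypersurface given by a monic polynomial -/
theorem prim_model_monic {k L : Type} [Field k] [CharZero k] [Field L] [Algebra k L]
    [Algebra.EssFiniteType k L] {n : ℕ} {x : Fin n → L} (hx : IsTranscendenceBasis k x) :
    ∃ P : (MvPolynomial (Fin n) k)[X], Irreducible P ∧ P.Monic ∧ P.natDegree ≠ 0 ∧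
      ∃ e : FractionRing (AdjoinRoot P) →+* L, Function.Bijective e ∧
        ∀ r, e (algebraMap (AdjoinRoot P) _ (AdjoinRoot.of P r)) = MvPolynomial.aeval x r := by
  have hind := hx.1
  have hφ : Function.Injective (MvPolynomial.aeval x : MvPolynomial (Fin n) k →ₐ[k] L) := hind
  set E := IntermediateField.adjoin k (Set.range x) with hE
  have h1 : Algebra.IsAlgebraic E L := hx.isAlgebraic_field
  have h2 : Algebra.EssFiniteType E L := Algebra.EssFiniteType.of_comp k E L
  have h3 : Module.Finite E L := Algebra.finite_of_essFiniteType_of_isAlgebraic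
  have h4 : CharZero E := charZero_of_injective_algebraMap (algebraMap k E).injective
  obtain ⟨θ0, hθ0⟩ := Field.exists_primitive_element E L
  -- an integral multiple
  let _ : Algebra (MvPolynomial (Fin n) k) L :=
    (MvPolynomial.aeval x : MvPolynomial (Fin n) k →ₐ[k] L).toRingHom.toAlgebra
  have hmap : ∀ r, algebraMap (MvPolynomial (Fin n) k) L r = MvPolynomial.aeval x r := fun r => rfl
  have hinj : Function.Injective (algebraMap (MvPolynomial (Fin n) k) L) := hφ
  have hfs : FaithfulSMul (MvPolynomial (Fin n) k) L :=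
    (faithfulSMul_iff_algebraMap_injective _ _).2 hinj
  have halg0 : IsAlgebraic (MvPolynomial (Fin n) k) θ0 := by
    have h5 := hx.isAlgebraic
    obtain ⟨g, hg0, hg⟩ := h5.isAlgebraic θ0
    let ε := hind.aevalEquiv
    refine ⟨g.map (ε.symm : _ →+* MvPolynomial (Fin n) k), ?_, ?_⟩
    · rw [Ne, Polynomial.map_eq_zero_iff ε.symm.injective]
      exact hg0
    · rw [aeval_def, eval₂_map, ← hg, aeval_def]
      congr 1
      ext c
      obtain ⟨c, rfl⟩ := ε.surjective c
      show MvPolynomial.aeval x (ε.symm (ε c)) = ((ε c : Algebra.adjoin k (Set.range x)) : L)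
      rw [AlgEquiv.symm_apply_apply]
      exact (hind.algebraMap_aevalEquiv c).symm
  obtain ⟨c, hc0, hc⟩ := halg0.exists_integral_multiple
  set θ := c • θ0 with hθdef
  have hcE : (MvPolynomial.aeval x c : L) ∈ E := by
    have h5 : (MvPolynomial.aeval x c : L) ∈ Algebra.adjoin k (Set.range x) := by
      rw [Algebra.adjoin_range_eq_range_aeval]
      exact ⟨c, rfl⟩
    exact IntermediateField.algebra_adjoin_le_adjoin _ _ h5
  have hcne : (MvPolynomial.aeval x c : L) ≠ 0 := by
    rw [Ne, map_eq_zero_iff _ hφ]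
    exact hc0
  have hθ : IntermediateField.adjoin E {θ} = ⊤ := by
    rw [eq_top_iff, ← hθ0, IntermediateField.adjoin_le_iff, Set.singleton_subset_iff]
    have h5 : θ ∈ IntermediateField.adjoin E {θ} :=
      IntermediateField.mem_adjoin_simple_self E θ
    have h6 : (algebraMap E L ⟨_, hcE⟩ : L) ∈ IntermediateField.adjoin E {θ} :=
      IntermediateField.algebraMap_mem _ _
    have h7 := mul_mem (inv_mem h6) h5
    have h8 : θ = MvPolynomial.aeval x c * θ0 := by
      rw [hθdef, Algebra.smul_def]
      rfl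
    have h9 : (algebraMap E L ⟨_, hcE⟩ : L) = MvPolynomial.aeval x c := rfl
    rw [h9, h8, inv_mul_cancel_left₀ hcne] at h7
    rw [h8]
    exact h7
  let P := minpoly (MvPolynomial (Fin n) k) θ
  have hP : Irreducible P := minpoly.irreducible hc
  have hmon : P.Monic := minpoly.monic hc
  have hd : P.natDegree ≠ 0 := (minpoly.natDegree_pos hc).ne'
  have hPθ : P.eval₂ (MvPolynomial.aeval x : MvPolynomial (Fin n) k →ₐ[k] L) θ = 0 :=
    minpoly.aeval (MvPolynomial (Fin n) k) θ
  obtain ⟨ψ, hψ, hψr⟩ := emb_root hP hd (MvPolynomial.aeval x : MvPolynomial (Fin n) k →ₐ[k] L)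
    hφ θ hPθ
  refine ⟨P, hP, hmon, hd, ψ, ?_, hψ⟩
  have hdomA : IsDomain (AdjoinRoot P) := AdjoinRoot.isDomain_of_prime hP.prime
  refine ⟨ψ.injective, ?_⟩
  let N : IntermediateField k L :=
    { ψ.fieldRange with
      algebraMap_mem' := fun c => ⟨algebraMap (AdjoinRoot P) _ (AdjoinRoot.of P
        (MvPolynomial.C c)), by rw [hψ]; exact MvPolynomial.aeval_C _ _⟩ }
  have hN : ∀ y, y ∈ N ↔ y ∈ ψ.fieldRange := fun y => Iff.rfl
  have hEN : E ≤ N := by
    rw [hE, IntermediateField.adjoin_le_iff]
    rintro _ ⟨j, rfl⟩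
    exact ⟨algebraMap (AdjoinRoot P) _ (AdjoinRoot.of P (MvPolynomial.X j)), by
      rw [hψ]; exact MvPolynomial.aeval_X _ _⟩
  let N' : IntermediateField E L :=
    { ψ.fieldRange with
      algebraMap_mem' := fun c => hEN c.2 }
  have hN' : IntermediateField.adjoin E {θ} ≤ N' := by
    rw [IntermediateField.adjoin_le_iff, Set.singleton_subset_iff]
    exact ⟨_, hψr⟩
  intro y
  have hy : y ∈ IntermediateField.adjoin E {θ} := by
    rw [hθ]
    exact IntermediateField.mem_top
  exact hN' hy


/-! ### the theorem -/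

theorem gq_map {R S : Type*} [CommRing R] [CommRing S] (φ : R →+* S) (g : ℕ → ℕ → R) (m : ℕ)
    (z : ℕ → R) : gq (fun i j => φ (g i j)) m (fun i => φ (z i)) = φ (gq g m z) := by
  unfold gq
  rw [map_sum]
  refine sum_congr rfl fun i _ => ?_
  rw [map_sum]
  refine sum_congr rfl fun j _ => ?_
  rw [map_mul, map_mul]

theorem gq_congr {R : Type*} [CommRing R] {g h : ℕ → ℕ → R} {m : ℕ}
    (hgh : ∀ i < m, ∀ j < m, g i j = h i j) (z : ℕ → R) : gq g m z = gq h m z := by
  unfold gq
  refine sum_congr rfl fun i hi => sum_congr rfl fun j hj => ?_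
  rw [hgh i (mem_range.1 hi) j (mem_range.1 hj)]

theorem isog_map {K L : Type} [Field K] [Field L] (φ : K →+* L) {g : ℕ → ℕ → K} {m : ℕ}
    (h : ∃ z : ℕ → K, (∃ i < m, z i ≠ 0) ∧ gq g m z = 0) :
    ∃ z : ℕ → L, (∃ i < m, z i ≠ 0) ∧ gq (fun i j => φ (g i j)) m z = 0 := by
  obtain ⟨z, ⟨i, hi, hz⟩, h0⟩ := h
  refine ⟨fun i => φ (z i), ⟨i, hi, (_root_.map_ne_zero φ).2 hz⟩, ?_⟩
  rw [gq_map, h0, map_zero]

theorem isog_congr {R : Type*} [CommRing R] {g h : ℕ → ℕ → R} {m : ℕ}
    (hgh : ∀ i < m, ∀ j < m, g i j = h i j) :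
    (∃ z : ℕ → R, (∃ i < m, z i ≠ 0) ∧ gq g m z = 0) ↔
      ∃ z : ℕ → R, (∃ i < m, z i ≠ 0) ∧ gq h m z = 0 := by
  simp only [gq_congr hgh]

/-- part MOD of project Q -/
theorem md : S_MOD := by
  intro k F _ _ _ _ _ m g hm _
  have hF : CharZero F := charZero_of_injective_algebraMap (algebraMap k F).injective
  obtain ⟨d, hd, hiff⟩ := exists_diag (K := F) two_ne_zero g m hm
  have hb := bb_basis d hd
  obtain ⟨s, hs⟩ := exists_finset_isTranscendenceBasis k F
  have hxs := hs.sumElim_comp hb
  let ε : Fin (MM m + s.card) ≃ Fin (MM m) ⊕ s :=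
    finSumFinEquiv.symm.trans (Equiv.sumCongr (Equiv.refl _) s.equivFin.symm)
  have hx := hxs.comp_equiv ε
  set x : Fin (MM m + s.card) → FF F (MM m) :=
    (Sum.elim (bb d) (algebraMap F (FF F (MM m)) ∘ fun c : s => (c : F))) ∘ ε with hxdef
  have hess : Algebra.EssFiniteType k (FF F (MM m)) := Algebra.EssFiniteType.comp k F (FF F (MM m))
  obtain ⟨P, hP, hmon, hdeg, e, he, hr⟩ := prim_model_monic hx
  refine ⟨s.card, ?_, P, hP, hmon, hdeg, ?_⟩
  · rw [← hs.cardinalMk_eq_trdeg, Cardinal.mk_coe_finset]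
  have hdomA : IsDomain (AdjoinRoot P) := AdjoinRoot.isDomain_of_prime hP.prime
  -- the entries of the Gram matrix
  let G : ℕ → ℕ → FF F (MM m) := fun i j =>
    if h : i < m ∧ j < m then YY d ⟨i, h.1⟩ ⟨j, h.2⟩ else 0
  have hG : ∀ i j : Fin m, G i j = YY d i j := fun i j => dif_pos ⟨i.2, j.2⟩
  have hle : ∀ i j : Fin m, i ≤ j → e (algebraMap (AdjoinRoot P) _
      (AdjoinRoot.of P (xw k (MM m + s.card) (ix i j)))) = YY d i j := by
    intro i j h
    have hlt : ix i j < MM m := ix_lt h j.2
    have h1 : xw k (MM m + s.card) (ix i j) =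
        MvPolynomial.X (Fin.castAdd s.card ⟨ix i j, hlt⟩) := by
      unfold xw
      rw [dif_pos (by omega)]
      rfl
    have h2 : ε (Fin.castAdd s.card ⟨ix i j, hlt⟩) = Sum.inl ⟨ix i j, hlt⟩ := by
      show Equiv.sumCongr (Equiv.refl _) s.equivFin.symm
        (finSumFinEquiv.symm (Fin.castAdd s.card ⟨ix i j, hlt⟩)) = _
      rw [finSumFinEquiv_symm_apply_castAdd]
      rfl
    rw [h1, hr, MvPolynomial.aeval_X, hxdef, Function.comp_apply, h2, Sum.elim_inl]
    exact bb_ix d h
  have hent : ∀ i < m, ∀ j < m, e (algebraMap (AdjoinRoot P) _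
      (AdjoinRoot.of P (xw k (MM m + s.card) (ix i j)))) = G i j := by
    intro i hi j hj
    rcases le_total i j with h | h
    · exact (hle ⟨i, hi⟩ ⟨j, hj⟩ h).trans (hG ⟨i, hi⟩ ⟨j, hj⟩).symm
    · rw [ix_symm]
      exact (hle ⟨j, hj⟩ ⟨i, hi⟩ h).trans ((YY_symm d _ _).trans (hG ⟨i, hi⟩ ⟨j, hj⟩).symm)
  let eq : FractionRing (AdjoinRoot P) ≃+* FF F (MM m) := RingEquiv.ofBijective e he
  have h5 : IsoG m P ↔ ∃ z : ℕ → FF F (MM m), (∃ i < m, z i ≠ 0) ∧ gq G m z = 0 := by
    rw [← isog_congr hent]
    constructor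
    · intro h
      exact isog_map e h
    · intro h
      have h6 := isog_map (eq.symm : FF F (MM m) →+* FractionRing (AdjoinRoot P)) h
      refine (isog_congr ?_).1 h6
      intro i _ j _
      exact eq.symm_apply_apply _
  rw [h5, hiff, iso_fin]
  simp only [hG]
  rw [show (∃ v : Fin m → FF F (MM m), v ≠ 0 ∧
      ∑ i : Fin m, ∑ j : Fin m, YY d i j * (v i * v j) = 0) ↔ _ from
    iso_tri (fun i => algebraMap F (FF F (MM m)) (d i)) (TT F m) (TT_det F m)]
  constructor
  · intro h
    by_contra hcon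
    push Not at hcon
    obtain ⟨v, hv, h0⟩ := h
    refine hv (an_ff d (fun w hw => ?_) (MM m) v h0)
    by_contra hne
    exact hcon w hne hw
  · rintro ⟨v, hv, h0⟩
    refine ⟨fun i => algebraMap F (FF F (MM m)) (v i), fun h => hv ?_, ?_⟩
    · funext i
      have h7 : algebraMap F (FF F (MM m)) (v i) = 0 := congrFun h i
      exact (map_eq_zero_iff _ (algebraMap F (FF F (MM m))).injective).1 h7
    · rw [← map_zero (algebraMap F (FF F (MM m))), ← h0, map_sum]
      refine sum_congr rfl fun i _ => ?_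
      rw [map_mul, map_pow]

end Pool.Agent.H901.Q
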