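import Pool.Agent.H901.Q.Defs

/-!
Project Q: the curves `y ^ 2 = a x ^ 4 + b x ^ 3 z + c x ^ 2 z ^ 2 + d x z ^ 3 + e z ^ 4` as
intersections of two quadrics.
-/

set_option autoImplicit false

namespace Pool.Agent.H901.Q

open Finset Pool.Agent.H901

/-- The curve `y ^ 2 = a x ^ 4 + b x ^ 3 z + c x ^ 2 z ^ 2 + d x z ^ 3 + e z ^ 4` (where `x`, `z` are
not both zero) has a point over `F`. -/
def HasPt (F : Type) [Field F] (a b c d e : F) : Prop :=
  ∃ x y z : F, (x ≠ 0 ∨ z ≠ 0) ∧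
    y ^ 2 = a * x ^ 4 + b * x ^ 3 * z + c * x ^ 2 * z ^ 2 + d * x * z ^ 3 + e * z ^ 4

/-- All curves `y ^ 2 = a x ^ 4 + b x ^ 3 z + c x ^ 2 z ^ 2 + d x z ^ 3 + e z ^ 4` over all finitely
generated extension fields `F` of the field of the algebraic numbers are covered by the
hypersurfaces. -/
def CoversC (ν : ℕ → Qb) : Prop :=
  ∀ (F : Type) [Field F] [Algebra Qb F] [Algebra.EssFiniteType Qb F] (a b c d e : F),
    ∃ (n : ℕ) (p : Poly), Hyp2 ν 4 n p ∧ (n : Cardinal) = 11 + Algebra.trdeg Qb F ∧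
      (ZeroQ ν 4 n p ↔ HasPt F a b c d e)

theorem gq_sym {F : Type} [Field F] (h2 : (2 : F) ≠ 0) (U : ℕ → ℕ → F) (m : ℕ) (z : ℕ → F) :
    gq (fun i j => (U i j + U j i) / 2) m z = gq U m z := by
  have h1 : gq (fun i j => U j i) m z = gq U m z := by
    unfold gq
    rw [sum_comm]
    refine sum_congr rfl fun i _ => sum_congr rfl fun j _ => ?_
    ring
  have h3 : gq (fun i j => (U i j + U j i) / 2) m z =
      (gq U m z + gq (fun i j => U j i) m z) / 2 := by
    unfold gq
    rw [← sum_add_distrib, sum_div]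
    refine sum_congr rfl fun i _ => ?_
    rw [← sum_add_distrib, sum_div]
    refine sum_congr rfl fun j _ => ?_
    ring
  rw [h3, h1, ← two_mul, mul_div_cancel_left₀ _ h2]

theorem quart_iff {F : Type} [Field F] [CharZero F] (a b c d e : F) :
    ∃ A B : ℕ → ℕ → F, (∀ i j, A i j = A j i) ∧ (∀ i j, B i j = B j i) ∧
      ((∃ z : ℕ → F, (∃ i < 4, z i ≠ 0) ∧ gq A 4 z = 0 ∧ gq B 4 z = 0) ↔ HasPt F a b c d e) := by
  let U : ℕ → ℕ → F := fun i j => if i = 1 ∧ j = 1 then 1 else if i = 3 ∧ j = 3 then -a else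
    if i = 3 ∧ j = 0 then -b else if i = 0 ∧ j = 0 then -c else if i = 0 ∧ j = 2 then -d else
    if i = 2 ∧ j = 2 then -e else 0
  let V : ℕ → ℕ → F := fun i j => if i = 3 ∧ j = 2 then 1 else if i = 0 ∧ j = 0 then -1 else 0
  have hU : ∀ z : ℕ → F, gq U 4 z = z 1 ^ 2 - a * z 3 ^ 2 - b * z 3 * z 0 - c * z 0 ^ 2 -
      d * z 0 * z 2 - e * z 2 ^ 2 := by
    intro z
    simp only [gq, sum_range_succ, sum_range_zero, U]
    norm_num
    ring
  have hV : ∀ z : ℕ → F, gq V 4 z = z 3 * z 2 - z 0 ^ 2 := by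
    intro z
    simp only [gq, sum_range_succ, sum_range_zero, V]
    norm_num
    ring
  refine ⟨fun i j => (U i j + U j i) / 2, fun i j => (V i j + V j i) / 2,
    fun i j => by beta_reduce; rw [add_comm], fun i j => by beta_reduce; rw [add_comm], ?_⟩
  simp only [gq_sym (two_ne_zero : (2 : F) ≠ 0), hU, hV]
  constructor
  · rintro ⟨z, ⟨i, hi, hz⟩, h1, h2⟩
    by_cases h : z 2 = 0
    · have h0 : z 0 = 0 := by
        rw [h, mul_zero, zero_sub, neg_eq_zero] at h2
        exact pow_eq_zero_iff (two_ne_zero) |>.1 h2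
      rw [h, h0] at h1
      have h3 : z 3 ≠ 0 := by
        intro h3
        rw [h3] at h1
        have h4 : z 1 = 0 := by
          have : z 1 ^ 2 = 0 := by linear_combination h1
          exact pow_eq_zero_iff (two_ne_zero) |>.1 this
        interval_cases i <;> contradiction
      refine ⟨1, z 1 / z 3, 0, Or.inl one_ne_zero, ?_⟩
      field_simp
      linear_combination h1
    · refine ⟨z 0, z 1 * z 2, z 2, Or.inr h, ?_⟩
      have h3 : z 0 ^ 2 = z 3 * z 2 := by linear_combination -h2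
      have h4 : z 0 ^ 4 = z 3 ^ 2 * z 2 ^ 2 := by
        calc z 0 ^ 4 = (z 0 ^ 2) ^ 2 := by ring
          _ = _ := by rw [h3]; ring
      have h5 : z 0 ^ 3 = z 0 * (z 3 * z 2) := by rw [← h3]; ring
      rw [h4, h5]
      linear_combination z 2 ^ 2 * h1
  · rintro ⟨x, y, z, hxz, h⟩
    refine ⟨fun i => if i = 0 then x * z else if i = 1 then y else if i = 2 then z ^ 2 else
      x ^ 2, ?_, ?_, ?_⟩
    · rcases hxz with h1 | h1
      · exact ⟨3, by norm_num, by simpa using h1⟩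
      · exact ⟨2, by norm_num, by simpa using h1⟩
    · norm_num
      linear_combination h
    · norm_num
      ring

theorem coversC {ν : ℕ → Qb} (h : Covers2 ν 4) : CoversC ν := by
  intro F _ _ _ a b c d e
  have h0 : CharZero F := charZero_of_injective_algebraMap (algebraMap Qb F).injective
  obtain ⟨A, B, hA, hB, hiff⟩ := quart_iff a b c d e
  obtain ⟨n, p, hp, hn, hz⟩ := h F A B hA hB
  refine ⟨n, p, hp, ?_, hz.trans hiff⟩
  rw [hn]
  congr 1
  norm_num [MM]

end Pool.Agent.H901.Q
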