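import Pool.Agent.H901.Q.Stm
import Pool.Agent.H901.Q.CAS

/-!
# Project Q, part STEP

The function field of the affine quadric `∑ c (k + m) u_m ^ 2 = d` and the subform argument.
-/

set_option autoImplicit false

namespace Pool.Agent.H901.Q

open Finset Polynomial Pool.Agent.H901

namespace Step

/-! ### basic facts on diagonal forms -/

lemma dq_map {R S : Type*} [CommRing R] [CommRing S] (φ : R →+* S) (c : ℕ → R) (s : ℕ)
    (z : ℕ → R) : φ (dq c s z) = dq (fun m => φ (c m)) s (fun m => φ (z m)) := by
  simp [dq, map_sum]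

lemma dq_congr {R : Type*} [CommRing R] {c c' : ℕ → R} {s : ℕ} {z z' : ℕ → R}
    (h : ∀ m < s, c m * z m ^ 2 = c' m * z' m ^ 2) : dq c s z = dq c' s z' :=
  Finset.sum_congr rfl fun m hm => h m (Finset.mem_range.1 hm)

lemma DA_succ {R : Type*} [CommRing R] (c : ℕ → R) (s : ℕ) (h : DA c (s + 1)) : DA c s := by
  intro v hv m hm
  have := h (fun m => if m < s then v m else 0) (by
    unfold dq at hv ⊢
    rw [Finset.sum_range_succ]
    have : ∑ x ∈ range s, c x * (if x < s then v x else 0) ^ 2 =
        ∑ x ∈ range s, c x * v x ^ 2 := by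
      refine Finset.sum_congr rfl fun m hm => ?_
      rw [if_pos (Finset.mem_range.1 hm)]
    rw [this, hv]
    simp) m (by omega)
  simpa [hm] using this

/-- the cyclic shift: the coefficient `c k` is moved to the end -/
def sh {R : Type*} (c : ℕ → R) (k n : ℕ) (m : ℕ) : R :=
  if m < k then c m else if m < k + n then c (m + 1) else c k

lemma dq_sh {R : Type*} [CommRing R] (c : ℕ → R) (k n : ℕ) (z : ℕ → R) :
    dq (sh c k n) (k + n + 1) (sh z k n) = dq c (k + (n + 1)) z := by
  unfold dq
  rw [Finset.sum_range_succ, Finset.sum_range_add, Finset.sum_range_add, Finset.sum_range_succ']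
  have h1 : ∑ x ∈ range k, sh c k n x * sh z k n x ^ 2 = ∑ x ∈ range k, c x * z x ^ 2 := by
    refine Finset.sum_congr rfl fun m hm => ?_
    simp only [sh, if_pos (Finset.mem_range.1 hm)]
  have h2 : ∑ x ∈ range n, sh c k n (k + x) * sh z k n (k + x) ^ 2 =
      ∑ x ∈ range n, c (k + (x + 1)) * z (k + (x + 1)) ^ 2 := by
    refine Finset.sum_congr rfl fun m hm => ?_
    have hm' := Finset.mem_range.1 hm
    simp only [sh, if_neg (show ¬ k + m < k by omega), if_pos (show k + m < k + n by omega)]
    rfl
  rw [h1, h2]
  simp only [sh, if_neg (show ¬ k + n < k by omega), lt_irrefl, if_false, add_zero]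
  ring

lemma DA_sh {R : Type*} [CommRing R] (c : ℕ → R) (k n : ℕ) (h : DA c (k + (n + 1))) :
    DA (sh c k n) (k + n + 1) := by
  intro v hv m hm
  have h1 : dq c (k + (n + 1)) (fun m => if m < k then v m else if m = k then v (k + n)
      else v (m - 1)) = 0 := by
    rw [← dq_sh, ← hv]
    refine dq_congr fun m hm => ?_
    congr 2
    unfold sh
    by_cases h2 : m < k
    · simp [h2]
    · by_cases h3 : m < k + n
      · simp only [h2, if_false, h3, if_true]
        rw [if_neg (by omega), if_neg (by omega)]
        rfl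
      · have : m = k + n := by omega
        subst this
        simp
  have h2 := h _ h1
  by_cases h3 : m < k
  · have := h2 m (by omega)
    simpa [h3] using this
  · by_cases h4 : m = k + n
    · have := h2 k (by omega)
      simpa [h4] using this
    · have := h2 (m + 1) (by omega)
      simp only [if_neg (show ¬ m + 1 < k by omega), if_neg (show ¬ m + 1 = k by omega)] at this
      exact this

lemma DA_equiv {A B : Type} [CommRing A] [CommRing B] (e : A ≃+* B) (c : ℕ → A) (s : ℕ)
    (h : DA c s) : DA (fun m => e (c m)) s := by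
  intro z hz m hm
  have h1 : dq c s (fun m => e.symm (z m)) = 0 := by
    have := dq_map (e.symm : B →+* A) (fun m => e (c m)) s z
    rw [hz] at this
    simpa using this.symm
  have := h _ h1 m hm
  simpa using this

/-! ### anisotropy over a rational function field -/

lemma poly_descent {F : Type} [Field F] (c : ℕ → F) (s : ℕ) (h : DA c s) :
    ∀ (N : ℕ) (p : ℕ → F[X]), (∀ m < s, (p m).natDegree ≤ N) →
      ∑ m ∈ range s, C (c m) * p m ^ 2 = 0 → ∀ m < s, p m = 0 := by
  intro N
  induction N with
  | zero =>
    intro p hp hs m hm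
    have hc : dq c s (fun m => (p m).coeff 0) = 0 := by
      have := congrArg (fun q => Polynomial.coeff q 0) hs
      simpa [dq, Polynomial.finsetSum_coeff, Polynomial.coeff_C_mul, pow_two,
        Polynomial.mul_coeff_zero] using this
    have h0 := h _ hc m hm
    rw [Polynomial.eq_C_of_natDegree_le_zero (hp m hm)]
    simpa using h0
  | succ N ih =>
    intro p hp hs
    have hc : dq c s (fun m => (p m).coeff (N + 1)) = 0 := by
      have := congrArg (fun q => Polynomial.coeff q ((N + 1) + (N + 1))) hs
      simp only [Polynomial.finsetSum_coeff, Polynomial.coeff_C_mul, pow_two,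
        Polynomial.coeff_zero] at this
      rw [← this]
      unfold dq
      refine Finset.sum_congr rfl fun m hm => ?_
      rw [Polynomial.coeff_mul_add_eq_of_natDegree_le (hp m (Finset.mem_range.1 hm))
        (hp m (Finset.mem_range.1 hm)), pow_two]
    have h0 := h _ hc
    refine ih p (fun m hm => ?_) hs
    rw [Polynomial.natDegree_le_iff_coeff_eq_zero]
    intro j hj
    rcases Nat.eq_or_lt_of_le (Nat.succ_le_of_lt hj) with h1 | h1
    · rw [← h1]; exact h0 m hm
    · exact (Polynomial.natDegree_le_iff_coeff_eq_zero.1 (hp m hm)) j h1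

lemma DA_ratFunc {F : Type} [Field F] (c : ℕ → F) (s : ℕ) (h : DA c s) :
    DA (fun m => RatFunc.C (c m)) s := by
  classical
  intro z hz
  obtain ⟨b, hb⟩ := IsLocalization.exist_integer_multiples_of_finset (nonZeroDivisors F[X])
    ((range s).image z)
  have hb' : ∀ m, ∃ p : F[X], m < s → algebraMap F[X] (RatFunc F) p =
      algebraMap F[X] (RatFunc F) (b : F[X]) * z m := by
    intro m
    by_cases hm : m < s
    · obtain ⟨p, hp⟩ := hb (z m) (Finset.mem_image_of_mem z (Finset.mem_range.2 hm))
      refine ⟨p, fun _ => ?_⟩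
      rw [hp]
      simp [Algebra.smul_def]
    · exact ⟨0, fun h => absurd h hm⟩
  choose p hp using hb'
  have hb0 : algebraMap F[X] (RatFunc F) (b : F[X]) ≠ 0 := by
    simp
  have hsum : ∑ m ∈ range s, C (c m) * p m ^ 2 = 0 := by
    apply IsFractionRing.injective F[X] (RatFunc F)
    rw [map_sum, map_zero]
    have : ∑ m ∈ range s, algebraMap F[X] (RatFunc F) (C (c m) * p m ^ 2) =
        algebraMap F[X] (RatFunc F) (b : F[X]) ^ 2 * dq (fun m => RatFunc.C (c m)) s z := by
      unfold dq
      rw [Finset.mul_sum]
      refine Finset.sum_congr rfl fun m hm => ?_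
      rw [map_mul, map_pow, hp m (Finset.mem_range.1 hm), RatFunc.algebraMap_C]
      ring
    rw [this, hz, mul_zero]
  have hN : ∀ m < s, (p m).natDegree ≤ ∑ m ∈ range s, (p m).natDegree := fun m hm =>
    Finset.single_le_sum (f := fun m => (p m).natDegree) (fun _ _ => Nat.zero_le _)
      (Finset.mem_range.2 hm)
  have h0 := poly_descent c s h _ p hN hsum
  intro m hm
  have h1 := hp m hm
  rw [h0 m hm, map_zero] at h1
  rcases mul_eq_zero.1 h1.symm with h2 | h2
  · exact absurd h2 hb0
  · exact h2

/-! ### the top variable of a purely transcendental extension -/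

lemma peel {K L : Type} [Field K] [Field L] [Algebra K L] {n : ℕ} (x : Fin (n + 1) → L)
    (hx : AlgebraicIndependent K x) (ht : IntermediateField.adjoin K (Set.range x) = ⊤) :
    ∃ (F : Type) (_ : Field F) (_ : Algebra K F) (y : Fin n → F) (e : RatFunc F ≃+* L),
      AlgebraicIndependent K y ∧ IntermediateField.adjoin K (Set.range y) = ⊤ ∧
      (∀ a : K, e (RatFunc.C (algebraMap K F a)) = algebraMap K L a) ∧
      e RatFunc.X = x (Fin.last n) ∧ ∀ i, e (RatFunc.C (y i)) = x i.castSucc := by
  classical
  set S : Set L := Set.range (fun i : Fin n => x i.castSucc) with hS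
  set F : IntermediateField K L := IntermediateField.adjoin K S with hF
  have hyF : ∀ i : Fin n, x i.castSucc ∈ F := fun i =>
    IntermediateField.subset_adjoin K S ⟨i, rfl⟩
  set y : Fin n → F := fun i => ⟨x i.castSucc, hyF i⟩ with hy
  have hcomp : AlgebraicIndependent K (fun i : Fin n => x i.castSucc) :=
    hx.comp _ (Fin.castSucc_injective n)
  have hyi : AlgebraicIndependent K y := by
    apply AlgebraicIndependent.of_comp F.val
    exact hcomp
  have hyt : IntermediateField.adjoin K (Set.range y) = ⊤ := by
    apply IntermediateField.lift_injective F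
    rw [IntermediateField.lift_adjoin, IntermediateField.lift_top]
    refine congrArg (IntermediateField.adjoin K) ?_
    ext a
    constructor
    · rintro ⟨_, ⟨i, rfl⟩, rfl⟩
      exact ⟨i, rfl⟩
    · rintro ⟨i, rfl⟩
      exact ⟨y i, ⟨i, rfl⟩, rfl⟩
  set t : L := x (Fin.last n) with ht'
  have htr : Transcendental F t := by
    rw [hF, IntermediateField.transcendental_adjoin_iff]
    have h1 := hx.transcendental_adjoin (s := Set.range (Fin.castSucc : Fin n → Fin (n + 1)))
      (i := Fin.last n) (by
        rintro ⟨i, hi⟩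
        exact (Fin.castSucc_lt_last i).ne hi)
    have h2 : x '' Set.range (Fin.castSucc : Fin n → Fin (n + 1)) = S := by
      rw [hS, ← Set.range_comp]; rfl
    rw [h2] at h1
    exact h1
  let e1 : RatFunc F ≃ₐ[F] IntermediateField.adjoin F {t} :=
    RatFunc.algEquivOfTranscendental t htr
  have htop : IntermediateField.adjoin F {t} = ⊤ := by
    have h1 : IntermediateField.restrictScalars K (IntermediateField.adjoin F {t}) = ⊤ := by
      rw [eq_top_iff, ← ht, IntermediateField.adjoin_le_iff]
      rintro _ ⟨i, rfl⟩
      rw [SetLike.mem_coe, IntermediateField.mem_restrictScalars]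
      refine Fin.lastCases ?_ (fun j => ?_) i
      · exact IntermediateField.mem_adjoin_simple_self F t
      · exact (IntermediateField.adjoin F {t}).algebraMap_mem (y j)
    rw [eq_top_iff]
    intro a _
    have : a ∈ IntermediateField.restrictScalars K (IntermediateField.adjoin F {t}) := by
      rw [h1]; trivial
    exact this
  let e2 : IntermediateField.adjoin F {t} ≃ₐ[F] L :=
    (IntermediateField.equivOfEq htop).trans IntermediateField.topEquiv
  have he2 : ∀ a, e2 a = (a : L) := fun a => rfl
  let e : RatFunc F ≃+* L := ((e1.trans e2 : RatFunc F ≃ₐ[F] L) : RatFunc F ≃+* L)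
  have heC : ∀ a : F, e (RatFunc.C a) = (a : L) := by
    intro a
    have : (RatFunc.C a : RatFunc F) = algebraMap F (RatFunc F) a := rfl
    rw [this]
    exact (e1.trans e2).commutes a
  refine ⟨F, inferInstance, inferInstance, y, e, hyi, hyt, fun a => ?_, ?_, fun i => ?_⟩
  · rw [heC]; rfl
  · change e2 (e1 RatFunc.X) = t
    rw [he2]
    exact RatFunc.algEquivOfTranscendental_X t htr
  · rw [heC]

/-- An anisotropic diagonal form remains anisotropic over a purely transcendental extension. -/
lemma DA_tower : ∀ (n : ℕ) (K L : Type) [Field K] [Field L] [Algebra K L] (x : Fin n → L)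
    (c : ℕ → K) (s : ℕ), AlgebraicIndependent K x →
    IntermediateField.adjoin K (Set.range x) = ⊤ → DA c s →
    DA (fun m => algebraMap K L (c m)) s := by
  intro n
  induction n with
  | zero =>
    intro K L _ _ _ x c s hx ht h z hz
    have h0 : Function.Surjective (algebraMap K L) := by
      have h1 : (Set.range x) = ∅ := Set.range_eq_empty x
      rw [h1, IntermediateField.adjoin_empty] at ht
      intro a
      have : a ∈ (⊥ : IntermediateField K L) := by rw [ht]; trivial
      exact IntermediateField.mem_bot.1 this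
    choose w hw using fun m => h0 (z m)
    have h1 : dq c s w = 0 := by
      apply (algebraMap K L).injective
      rw [dq_map, map_zero, ← hz]
      congr 1
      funext m
      exact hw m
    intro m hm
    rw [← hw m, h w h1 m hm, map_zero]
  | succ n ih =>
    intro K L _ _ _ x c s hx ht h
    obtain ⟨F, iF, iA, y, e, hy, hyt, he1, -, -⟩ := peel x hx ht
    have h1 := ih K F y c s hy hyt h
    have h2 := DA_equiv e _ s (DA_ratFunc _ s h1)
    have h3 : (fun m => e (RatFunc.C (algebraMap K F (c m)))) = fun m => algebraMap K L (c m) := by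
      funext m; exact he1 _
    rw [h3] at h2
    exact h2

/-- Removing the terms one by one. -/
lemma rem_tower (hC : S_CAS) : ∀ (n : ℕ) (K L : Type) [Field K] [CharZero K] [Field L]
    [Algebra K L] (x : Fin n → L) (c : ℕ → K) (k : ℕ) (d : K), AlgebraicIndependent K x →
    IntermediateField.adjoin K (Set.range x) = ⊤ → DA c (k + n) →
    (∃ z : ℕ → L, dq (fun m => algebraMap K L (c m)) (k + n) z =
      ∑ m : Fin n, algebraMap K L (c (k + m)) * x m ^ 2 - algebraMap K L d) →
    ∃ w : ℕ → K, dq c k w = -d := by
  intro n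
  induction n with
  | zero =>
    intro K L _ _ _ _ x c k d hx ht h
    rintro ⟨z, hz⟩
    have h0 : Function.Surjective (algebraMap K L) := by
      have h1 : (Set.range x) = ∅ := Set.range_eq_empty x
      rw [h1, IntermediateField.adjoin_empty] at ht
      intro a
      have : a ∈ (⊥ : IntermediateField K L) := by rw [ht]; trivial
      exact IntermediateField.mem_bot.1 this
    choose w hw using fun m => h0 (z m)
    refine ⟨w, ?_⟩
    apply (algebraMap K L).injective
    rw [dq_map, map_neg]
    have h1 : (fun m => algebraMap K L (w m)) = z := funext hw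
    rw [h1]
    simpa using hz
  | succ n ih =>
    intro K L _ _ _ _ x c k d hx ht h
    rintro ⟨z, hz⟩
    obtain ⟨F, iF, iA, y, e, hy, hyt, he1, heX, hey⟩ := peel x hx ht
    have : CharZero F := charZero_of_injective_algebraMap (algebraMap K F).injective
    have hda : DA (fun m => algebraMap K F (c m)) (k + n + 1) :=
      DA_tower n K F y c (k + n + 1) hy hyt h
    have hz' : dq (fun m => RatFunc.C (algebraMap K F (c m))) (k + n + 1)
        (fun m => e.symm (z m)) =
        RatFunc.C (algebraMap K F (c (k + n))) * RatFunc.X ^ 2 +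
          RatFunc.C (∑ m : Fin n, algebraMap K F (c (k + m)) * y m ^ 2 - algebraMap K F d) := by
      apply e.injective
      have h1 := dq_map (e : RatFunc F →+* L) (fun m => RatFunc.C (algebraMap K F (c m)))
        (k + n + 1) (fun m => e.symm (z m))
      simp only [RingEquiv.coe_toRingHom, RingEquiv.apply_symm_apply, he1] at h1
      refine h1.trans ?_
      rw [show k + n + 1 = k + (n + 1) by omega, hz, Fin.sum_univ_castSucc]
      simp only [map_add, map_mul, map_pow, map_sub, map_sum, he1, heX, hey, Fin.val_castSucc,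
        Fin.val_last]
      ring
    obtain ⟨w, hw⟩ := hC F (fun m => algebraMap K F (c m)) (k + n) _ hda ⟨_, hz'⟩
    have hda' : DA c (k + n) := DA_succ c (k + n) h
    exact ih K F y c k d hy hyt hda' ⟨w, hw⟩

/-- The part STEP, from Cassels' theorem. -/
theorem step_of (hC : S_CAS) : S_STEP := by
  classical
  intro K _ _ c k r hr hDA hmul K' _ _ u d hu halg hadj hiso
  obtain ⟨n, rfl⟩ : ∃ n, r = n + 1 := ⟨r - 1, by omega⟩
  have halg' : AlgebraicIndependent K (fun m : Fin n => u (m + 1)) := halg
  -- the coefficient `c k` is not zero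
  have hck : c k ≠ 0 := by
    intro h0
    have := hDA (fun m => if m = k then 1 else 0) (by
      unfold dq
      refine Finset.sum_eq_zero fun m _ => ?_
      by_cases hm : m = k
      · subst hm; simp [h0]
      · simp [hm]) k (by omega)
    simp at this
  -- the field `K1`
  set S : Set K' := Set.range (fun m : Fin n => u (m + 1)) with hS
  set F : IntermediateField K K' := IntermediateField.adjoin K S with hF
  have hyF : ∀ i : Fin n, u (i + 1) ∈ F := fun i =>
    IntermediateField.subset_adjoin K S ⟨i, rfl⟩
  set y : Fin n → F := fun i => ⟨u (i + 1), hyF i⟩ with hy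
  have hyi : AlgebraicIndependent K y := by
    apply AlgebraicIndependent.of_comp F.val
    exact halg'
  have hyt : IntermediateField.adjoin K (Set.range y) = ⊤ := by
    apply IntermediateField.lift_injective F
    rw [IntermediateField.lift_adjoin, IntermediateField.lift_top]
    refine congrArg (IntermediateField.adjoin K) ?_
    ext a
    constructor
    · rintro ⟨_, ⟨i, rfl⟩, rfl⟩
      exact ⟨i, rfl⟩
    · rintro ⟨i, rfl⟩
      exact ⟨y i, ⟨i, rfl⟩, rfl⟩
  have : CharZero F := charZero_of_injective_algebraMap (algebraMap K F).injective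
  have : CharZero K' := charZero_of_injective_algebraMap (algebraMap K K').injective
  have hDA1 : DA (fun m => algebraMap K F (c m)) (k + (n + 1)) :=
    DA_tower n K F y c _ hyi hyt hDA
  have hckF : algebraMap K F (c k) ≠ 0 := by
    rw [Ne, map_eq_zero]; exact hck
  set h : F := (algebraMap K F d - ∑ m : Fin n, algebraMap K F (c (k + (m + 1))) * y m ^ 2) /
    algebraMap K F (c k) with hh
  have hcoe : ∀ a : K, ((algebraMap K F a : F) : K') = algebraMap K K' a := fun a => rfl
  have hu0 : u 0 ^ 2 = (h : K') := by
    have h1 : algebraMap K K' (c k) ≠ 0 := by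
      rw [Ne, map_eq_zero]; exact hck
    have h2 : ((h : F) : K') = (algebraMap K K' d -
        ∑ m : Fin n, algebraMap K K' (c (k + (m + 1))) * u (m + 1) ^ 2) /
        algebraMap K K' (c k) := by
      rw [hh]
      push_cast
      simp only [hy]
    rw [h2, eq_div_iff h1, ← hu, Finset.sum_range_succ',
      ← Fin.sum_univ_eq_sum_range (fun m => algebraMap K K' (c (k + (m + 1))) * u (m + 1) ^ 2)]
    simp only [add_zero]
    ring
  -- `K' = K1(u 0)`
  have htop : IntermediateField.adjoin F {u 0} = ⊤ := by
    have h1 : IntermediateField.restrictScalars K (IntermediateField.adjoin F {u 0}) = ⊤ := by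
      rw [eq_top_iff, ← hadj, IntermediateField.adjoin_le_iff]
      rintro _ ⟨i, hi, rfl⟩
      rw [SetLike.mem_coe, IntermediateField.mem_restrictScalars]
      rcases i with _ | j
      · exact IntermediateField.mem_adjoin_simple_self F (u 0)
      · have hj : j < n := by
          have : j + 1 < n + 1 := hi
          omega
        exact (IntermediateField.adjoin F {u 0}).algebraMap_mem (y ⟨j, hj⟩)
    rw [eq_top_iff]
    intro a _
    have : a ∈ IntermediateField.restrictScalars K (IntermediateField.adjoin F {u 0}) := by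
      rw [h1]; trivial
    exact this
  have hmon : (X ^ 2 - C h : F[X]).Monic := Polynomial.monic_X_pow_sub_C h two_ne_zero
  have hroot : aeval (u 0) (X ^ 2 - C h : F[X]) = 0 := by
    simp only [map_sub, map_pow, aeval_X, aeval_C]
    rw [hu0]
    exact sub_self _
  have hdec : ∀ z : K', ∃ a b : F, z = (a : K') + u 0 * (b : K') := by
    intro z
    have hint : IsIntegral F (u 0) := ⟨_, hmon, hroot⟩
    have hz : z ∈ (IntermediateField.adjoin F {u 0}).toSubalgebra := by
      rw [htop]; trivial
    rw [IntermediateField.adjoin_simple_toSubalgebra_of_isAlgebraic hint.isAlgebraic,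
      Algebra.adjoin_singleton_eq_range_aeval] at hz
    obtain ⟨p, hp⟩ := hz
    have h1 : aeval (u 0) (p %ₘ (X ^ 2 - C h)) = z := by
      have h2 := Polynomial.modByMonic_add_div p (X ^ 2 - C h : F[X])
      have h3 := congrArg (aeval (u 0)) h2
      rw [map_add, map_mul, hroot, zero_mul, add_zero] at h3
      rw [h3]; exact hp
    have hdeg : (p %ₘ (X ^ 2 - C h)).natDegree ≤ 1 := by
      have h2 := Polynomial.natDegree_modByMonic_lt p hmon (by
        intro h4
        have := congrArg Polynomial.natDegree h4
        rw [Polynomial.natDegree_X_pow_sub_C] at this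
        simp at this)
      rw [Polynomial.natDegree_X_pow_sub_C] at h2
      omega
    obtain ⟨b, a, hab⟩ := Polynomial.exists_eq_X_add_C_of_natDegree_le_one hdeg
    refine ⟨a, b, ?_⟩
    rw [← h1, hab]
    simp only [map_add, map_mul, aeval_C, aeval_X]
    change (b : K') * u 0 + (a : K') = (a : K') + u 0 * (b : K')
    ring
  -- an isotropic vector
  unfold DA at hiso
  push Not at hiso
  obtain ⟨z, hz, m0, hm0, hzm0⟩ := hiso
  choose a b hab using fun m => hdec (z m)
  set c1 : ℕ → F := fun m => algebraMap K F (c m) with hc1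
  set B : F := ∑ m ∈ range (k + (n + 1)), c1 m * (a m * b m) with hB
  have hexp : ((dq c1 (k + (n + 1)) a + h * dq c1 (k + (n + 1)) b : F) : K') +
      u 0 * ((B + B : F) : K') = 0 := by
    rw [← hz]
    unfold dq
    rw [hB]
    push_cast
    rw [← hu0, Finset.mul_sum, ← Finset.sum_add_distrib, ← Finset.sum_add_distrib,
      Finset.mul_sum, ← Finset.sum_add_distrib]
    refine Finset.sum_congr rfl fun m _ => ?_
    rw [hab m, hc1]
    simp only [hcoe]
    ring
  by_cases hmem : u 0 ∈ F
  · -- `K' = K1`: the form is anisotropic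
    exfalso
    have h1 : ∀ m, ∃ a : F, z m = (a : K') := by
      intro m
      refine ⟨a m + ⟨u 0, hmem⟩ * b m, ?_⟩
      rw [hab m]
      rfl
    choose z1 hz1 using h1
    have h2 : dq c1 (k + (n + 1)) z1 = 0 := by
      apply (algebraMap F K').injective
      rw [dq_map, map_zero, ← hz]
      refine dq_congr fun m _ => ?_
      rw [hz1 m]
      rfl
    have h3 := hDA1 z1 h2 m0 hm0
    apply hzm0
    rw [hz1 m0, h3]
    rfl
  have hB0 : B = 0 := by
    by_contra hB0
    apply hmem
    have h2 : (B + B : F) ≠ 0 := by
      rw [← two_mul]; exact mul_ne_zero two_ne_zero hB0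
    have h3 : ((B + B : F) : K') ≠ 0 := by
      intro h4
      exact h2 (Subtype.ext h4)
    have h4 : u 0 = ((-(dq c1 (k + (n + 1)) a + h * dq c1 (k + (n + 1)) b) / (B + B) : F) : K') := by
      have h5 : ((-(dq c1 (k + (n + 1)) a + h * dq c1 (k + (n + 1)) b) / (B + B) : F) : K') =
          -((dq c1 (k + (n + 1)) a + h * dq c1 (k + (n + 1)) b : F) : K') /
            ((B + B : F) : K') := by
        push_cast; rfl
      rw [h5, eq_div_iff h3]
      linear_combination hexp
    rw [h4]
    exact Subtype.property _
  have hsum : dq c1 (k + (n + 1)) a + h * dq c1 (k + (n + 1)) b = 0 := by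
    apply Subtype.ext
    have := hexp
    rw [hB0] at this
    simpa using this
  have hDb : dq c1 (k + (n + 1)) b ≠ 0 := by
    intro h0
    have hb0 := hDA1 b h0
    rw [h0, mul_zero, add_zero] at hsum
    have ha0 := hDA1 a hsum
    apply hzm0
    rw [hab m0, ha0 m0 hm0, hb0 m0 hm0]
    simp
  -- over the rational function field
  set Db : F := dq c1 (k + (n + 1)) b with hDbdef
  let φ : K →+* RatFunc F := (RatFunc.C : F →+* RatFunc F).comp (algebraMap K F)
  have hφ : ∀ m, φ (c m) = RatFunc.C (c1 m) := fun m => rfl
  have hA : dq (fun m => φ (c m)) (k + (n + 1))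
      (fun m => RatFunc.C (a m) + RatFunc.X * RatFunc.C (b m)) =
      RatFunc.C Db * (RatFunc.X ^ 2 - RatFunc.C h) := by
    have h1 : dq (fun m => φ (c m)) (k + (n + 1))
        (fun m => RatFunc.C (a m) + RatFunc.X * RatFunc.C (b m)) =
        RatFunc.C (dq c1 (k + (n + 1)) a) + 2 * RatFunc.X * RatFunc.C B +
          RatFunc.X ^ 2 * RatFunc.C Db := by
      rw [hDbdef, hB]
      unfold dq
      simp only [map_sum, map_mul, map_pow, hφ]
      rw [Finset.mul_sum, Finset.mul_sum, ← Finset.sum_add_distrib, ← Finset.sum_add_distrib]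
      refine Finset.sum_congr rfl fun m _ => ?_
      ring
    rw [h1, hB0]
    have h2 : dq c1 (k + (n + 1)) a = -(h * Db) := by linear_combination hsum
    rw [h2]
    simp only [map_neg, map_mul, map_zero]
    ring
  have hBv : dq (fun m => φ (c m)) (k + (n + 1)) (fun m => RatFunc.C (b m / Db)) =
      RatFunc.C (1 / Db) := by
    have h1 : dq c1 (k + (n + 1)) (fun m => b m / Db) = 1 / Db := by
      have h2 : dq c1 (k + (n + 1)) (fun m => b m / Db) = Db / Db ^ 2 := by
        rw [hDbdef]
        unfold dq
        rw [Finset.sum_div]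
        refine Finset.sum_congr rfl fun m _ => ?_
        ring
      rw [h2]
      field_simp
    rw [← h1, dq_map]
    rfl
  have hek : dq (fun m => φ (c m)) (k + (n + 1)) (fun m => if m = k then 1 else 0) =
      RatFunc.C (c1 k) := by
    unfold dq
    rw [Finset.sum_eq_single k]
    · simp [hφ]
    · intro m _ hm
      simp [hm]
    · intro hk
      exact absurd (Finset.mem_range.2 (by omega)) hk
  obtain ⟨z1, hz1⟩ := hmul (RatFunc F) φ
    (fun m => RatFunc.C (a m) + RatFunc.X * RatFunc.C (b m)) (fun m => RatFunc.C (b m / Db))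
  obtain ⟨z2, hz2⟩ := hmul (RatFunc F) φ z1 (fun m => if m = k then 1 else 0)
  have hz2' : dq (fun m => φ (c m)) (k + (n + 1)) z2 =
      RatFunc.C (c1 k) * RatFunc.X ^ 2 + RatFunc.C (-(c1 k * h)) := by
    rw [hz2, hz1, hA, hBv, hek]
    have h1 : RatFunc.C Db * RatFunc.C (1 / Db) = 1 := by
      rw [← map_mul, mul_one_div_cancel hDb, map_one]
    simp only [map_mul, map_neg]
    linear_combination (RatFunc.C (c1 k) * (RatFunc.X ^ 2 - RatFunc.C h)) * h1
  -- the shift
  have hshφ : (fun m => φ (sh c k n m)) = sh (fun m => φ (c m)) k n := by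
    funext m
    simp only [sh]
    split_ifs <;> rfl
  have hshF : (fun m => algebraMap K F (sh c k n m)) = sh c1 k n := by
    funext m
    simp only [sh]
    split_ifs <;> rfl
  have hz3 : dq (fun m => RatFunc.C (algebraMap K F (sh c k n m))) (k + n + 1) (sh z2 k n) =
      RatFunc.C (algebraMap K F (sh c k n (k + n))) * RatFunc.X ^ 2 +
        RatFunc.C (-(c1 k * h)) := by
    have h1 : (fun m => RatFunc.C (algebraMap K F (sh c k n m))) =
        sh (fun m => φ (c m)) k n := hshφ
    rw [h1, dq_sh, hz2']
    congr 3
    simp [sh, hc1]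
  have hDAe : DA (sh c k n) (k + n + 1) := DA_sh c k n hDA
  have hDAe1 : DA (fun m => algebraMap K F (sh c k n m)) (k + n + 1) :=
    DA_tower n K F y _ _ hyi hyt hDAe
  obtain ⟨w, hw⟩ := hC F (fun m => algebraMap K F (sh c k n m)) (k + n) _ hDAe1 ⟨_, hz3⟩
  have hw' : dq (fun m => algebraMap K F (sh c k n m)) (k + n) w =
      ∑ m : Fin n, algebraMap K F (sh c k n (k + m)) * y m ^ 2 - algebraMap K F d := by
    rw [hw]
    have h1 : c1 k * h = algebraMap K F d -
        ∑ m : Fin n, algebraMap K F (c (k + (m + 1))) * y m ^ 2 := by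
      rw [hh]
      exact mul_div_cancel₀ _ hckF
    rw [h1]
    have h2 : ∀ m : Fin n, sh c k n (k + m) = c (k + (m + 1)) := by
      intro m
      have := m.2
      simp only [sh, if_neg (show ¬ k + (m : ℕ) < k by omega),
        if_pos (show k + (m : ℕ) < k + n by omega)]
      rfl
    simp only [h2]
    ring
  obtain ⟨w2, hw2⟩ := rem_tower hC n K F y (sh c k n) k d hyi hyt (DA_succ _ _ hDAe) ⟨w, hw'⟩
  refine ⟨w2, ?_⟩
  rw [← hw2]
  refine dq_congr fun m hm => ?_
  simp [sh, hm]

end Step

theorem step : S_STEP := Step.step_of cas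

end Pool.Agent.H901.Q
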