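import Pool.Agent.H901.Q.Stm

/-!
# Project Q (helper901), part TOW: one more generic vector
-/

set_option autoImplicit false

namespace Pool.Agent.H901.Q

open Finset Pool.Agent.H901

namespace TOW

section Basis

variable {K : Type} [Field K]

/-- the bilinear form of the Pfister form on `Fin (2 ^ N) → K` -/
noncomputable def bf (a : ℕ → K) (N : ℕ) : LinearMap.BilinForm K (Fin (2 ^ N) → K) :=
  LinearMap.mk₂ K (fun x y => ∑ m : Fin (2 ^ N), pc a N m * (x m * y m))
    (fun x y z => by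
      rw [← sum_add_distrib]; refine sum_congr rfl fun m _ => ?_; rw [Pi.add_apply]; ring)
    (fun c x y => by
      rw [smul_sum]; refine sum_congr rfl fun m _ => ?_
      rw [Pi.smul_apply, smul_eq_mul, smul_eq_mul]; ring)
    (fun x y z => by
      rw [← sum_add_distrib]; refine sum_congr rfl fun m _ => ?_; rw [Pi.add_apply]; ring)
    (fun c x y => by
      rw [smul_sum]; refine sum_congr rfl fun m _ => ?_
      rw [Pi.smul_apply, smul_eq_mul, smul_eq_mul]; ring)

lemma bf_apply (a : ℕ → K) (N : ℕ) (x y : Fin (2 ^ N) → K) :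
    bf a N x y = ∑ m : Fin (2 ^ N), pc a N m * (x m * y m) := rfl

lemma bf_eq (a : ℕ → K) (N : ℕ) (x y : ℕ → K) :
    bf a N (fun m => x m) (fun m => y m) = pb a N x y := by
  rw [bf_apply]; unfold pb; rw [Finset.sum_range]

lemma bf_symm (a : ℕ → K) (N : ℕ) : (bf a N).IsSymm := by
  constructor
  intro x y
  rw [bf_apply, bf_apply]
  refine sum_congr rfl fun m _ => ?_
  ring

lemma bf_an {a : ℕ → K} {N : ℕ} (hA : An a N) {x : Fin (2 ^ N) → K} (hx : bf a N x x = 0) :
    x = 0 := by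
  have h := hA (ez (2 ^ N) x) (by
    rw [pq_eq_pb, ← bf_eq]
    have e : (fun m : Fin (2 ^ N) => ez (2 ^ N) x m) = x := by
      funext m; simp [ez]
    rw [e, hx])
  funext m
  have := h m m.2
  simpa [ez] using this

lemma bf_nondeg {a : ℕ → K} {N : ℕ} (hA : An a N) : (bf a N).Nondegenerate := by
  constructor
  · intro x hx
    exact bf_an hA (hx x)
  · intro x hx
    exact bf_an hA (hx x)

/-- an orthogonal basis of a subspace -/
lemma exists_ortho [CharZero K] {a : ℕ → K} {N : ℕ} (hA : An a N)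
    (U : Submodule K (Fin (2 ^ N) → K)) :
    ∃ f : Fin (Module.finrank K U) → (Fin (2 ^ N) → K), (∀ i, f i ∈ U) ∧
      (∀ i j, i ≠ j → bf a N (f i) (f j) = 0) ∧ ∀ i, bf a N (f i) (f i) ≠ 0 := by
  have : Invertible (2 : K) := invertibleOfNonzero two_ne_zero
  have hs : ((bf a N).restrict U).IsSymm := by
    constructor
    intro x y
    exact (bf_symm a N).eq x y
  obtain ⟨b, hb⟩ := LinearMap.BilinForm.exists_orthogonal_basis
    (LinearMap.BilinForm.isSymm_iff.1 hs)
  refine ⟨fun i => (b i : Fin (2 ^ N) → K), fun i => (b i).2, fun i j hij => hb hij, fun i h => ?_⟩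
  have h0 := bf_an hA h
  exact b.ne_zero i (Subtype.ext h0)

lemma exists_family [CharZero K] {a : ℕ → K} {N k : ℕ} (hA : An a N)
    (v : Fin k → (Fin (2 ^ N) → K)) (hv : LinearIndependent K v) :
    ∃ g : Fin (2 ^ N) → (Fin (2 ^ N) → K), (∀ i j, i ≠ j → bf a N (g i) (g j) = 0) ∧
      (∀ i, bf a N (g i) (g i) ≠ 0) ∧
      ∀ i : Fin (2 ^ N), (i : ℕ) < k → g i ∈ Submodule.span K (Set.range v) := by
  set W := Submodule.span K (Set.range v) with hW
  have hrk : Module.finrank K W = k := by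
    rw [hW, finrank_span_eq_card hv, Fintype.card_fin]
  set P := (bf a N).orthogonal W with hP
  have hrP : Module.finrank K P = 2 ^ N - k := by
    rw [hP, LinearMap.BilinForm.finrank_orthogonal (bf_nondeg hA), hrk, Module.finrank_fin_fun]
  obtain ⟨f, hf1, hf2, hf3⟩ := exists_ortho hA W
  obtain ⟨q, hq1, hq2, hq3⟩ := exists_ortho hA P
  have hk : k ≤ 2 ^ N := by
    have := Submodule.finrank_le W
    rwa [hrk, Module.finrank_fin_fun] at this
  have hWP : ∀ x ∈ W, ∀ y ∈ P, bf a N x y = 0 := fun x hx y hy =>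
    (LinearMap.BilinForm.mem_orthogonal_iff.1 hy) x hx
  let g : Fin (2 ^ N) → (Fin (2 ^ N) → K) := fun i =>
    if h : (i : ℕ) < k then f ⟨i, by omega⟩ else q ⟨i - k, by have := i.2; omega⟩
  have g1 : ∀ (i : Fin (2 ^ N)) (h : (i : ℕ) < k), g i = f ⟨i, by omega⟩ := fun i h => dif_pos h
  have g2 : ∀ (i : Fin (2 ^ N)) (h : ¬ (i : ℕ) < k),
      g i = q ⟨i - k, by have := i.2; omega⟩ := fun i h => dif_neg h
  refine ⟨g, ?_, ?_, ?_⟩
  · intro i j hij
    by_cases hi : (i : ℕ) < k
    · by_cases hj : (j : ℕ) < k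
      · rw [g1 i hi, g1 j hj]
        refine hf2 _ _ ?_
        intro h
        apply hij
        have := congrArg Fin.val h
        exact Fin.ext this
      · rw [g1 i hi, g2 j hj]
        exact hWP _ (hf1 _) _ (hq1 _)
    · by_cases hj : (j : ℕ) < k
      · rw [g2 i hi, g1 j hj, (bf_symm a N).eq]
        exact hWP _ (hf1 _) _ (hq1 _)
      · rw [g2 i hi, g2 j hj]
        refine hq2 _ _ ?_
        intro h
        apply hij
        have := congrArg Fin.val h
        simp only at this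
        exact Fin.ext (by omega)
  · intro i
    by_cases hi : (i : ℕ) < k
    · rw [g1 i hi]; exact hf3 _
    · rw [g2 i hi]; exact hq3 _
  · intro i hi
    rw [g1 i hi]; exact hf1 _

lemma complete {a : ℕ → K} {N : ℕ} (hA : An a N) (g : Fin (2 ^ N) → (Fin (2 ^ N) → K))
    (h1 : ∀ i j, i ≠ j → bf a N (g i) (g j) = 0) (h2 : ∀ i, bf a N (g i) (g i) ≠ 0)
    (l l' : Fin (2 ^ N)) :
    ∑ m : Fin (2 ^ N), pc a N l * g m l * g m l' / bf a N (g m) (g m) =
      if l = l' then 1 else 0 := by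
  have hli : LinearIndependent K g :=
    LinearMap.BilinForm.linearIndependent_of_iIsOrtho (B := bf a N)
      (fun i j hij => h1 i j hij) h2
  have hspan : Submodule.span K (Set.range g) = ⊤ :=
    hli.span_eq_top_of_card_eq_finrank (by simp)
  have he : ∀ x : Fin (2 ^ N) → K, bf a N (Pi.single l 1) x = pc a N l * x l := by
    intro x
    rw [bf_apply, Finset.sum_eq_single l]
    · simp
    · intro b _ hb
      simp [hb]
    · simp
  set y : Fin (2 ^ N) → K := Pi.single l 1 - ∑ m : Fin (2 ^ N),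
    (bf a N (Pi.single l 1) (g m) / bf a N (g m) (g m)) • g m with hy
  have hy1 : ∀ m, bf a N y (g m) = 0 := by
    intro m
    rw [hy, map_sub, LinearMap.sub_apply, map_sum, LinearMap.sum_apply,
      Finset.sum_eq_single m]
    · rw [map_smul, LinearMap.smul_apply, smul_eq_mul, div_mul_cancel₀ _ (h2 m), sub_self]
    · intro b _ hb
      rw [map_smul, LinearMap.smul_apply, h1 b m hb, smul_zero]
    · intro h; exact absurd (Finset.mem_univ m) h
  have hy2 : ∀ x, bf a N y x = 0 := by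
    intro x
    have hx : x ∈ Submodule.span K (Set.range g) := by rw [hspan]; trivial
    obtain ⟨c, rfl⟩ := (Submodule.mem_span_range_iff_exists_fun K).1 hx
    rw [map_sum]
    refine Finset.sum_eq_zero fun m _ => ?_
    rw [map_smul, hy1, smul_zero]
  have hy0 : y = 0 := bf_an hA (hy2 y)
  have h3 := congrFun hy0 l'
  rw [hy, Pi.sub_apply, Pi.zero_apply, Finset.sum_apply, sub_eq_zero] at h3
  have h4 : (Pi.single l (1 : K) : Fin (2 ^ N) → K) l' = if l = l' then 1 else 0 := by
    rw [Pi.single_apply]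
    by_cases h : l = l'
    · rw [if_pos h, if_pos h.symm]
    · rw [if_neg h, if_neg (fun h' => h h'.symm)]
  rw [← h4, h3]
  refine Finset.sum_congr rfl fun m _ => ?_
  rw [he, Pi.smul_apply, smul_eq_mul]
  ring

/-- the basis in coordinates -/
lemma exists_obasis [CharZero K] {a : ℕ → K} {N k : ℕ} (hA : An a N) (v : ℕ → ℕ → K)
    (hv : LinearIndependent K (fun i : Fin k => (fun l : Fin (2 ^ N) => v i l))) :
    ∃ (b : ℕ → ℕ → K) (A : ℕ → ℕ → K),
      (∀ m < 2 ^ N, ∀ m' < 2 ^ N, m ≠ m' → pb a N (b m) (b m') = 0) ∧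
      (∀ m < 2 ^ N, pb a N (b m) (b m) ≠ 0) ∧
      (∀ j < k, ∀ l < 2 ^ N, b j l = ∑ i ∈ range k, A j i * v i l) ∧
      (∀ l < 2 ^ N, ∀ l' < 2 ^ N,
        ∑ m ∈ range (2 ^ N), pc a N l * b m l * b m l' / pb a N (b m) (b m) =
          if l = l' then 1 else 0) := by
  obtain ⟨g, h1, h2, h3⟩ := exists_family hA _ hv
  have hk : k ≤ 2 ^ N := by
    have := hv.fintype_card_le_finrank
    simpa using this
  have h4 : ∀ i : Fin (2 ^ N), ∃ c : Fin k → K, (i : ℕ) < k →
      ∑ j, c j • (fun l : Fin (2 ^ N) => v j l) = g i := by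
    intro i
    by_cases hi : (i : ℕ) < k
    · obtain ⟨c, hc⟩ := (Submodule.mem_span_range_iff_exists_fun K).1 (h3 i hi)
      exact ⟨c, fun _ => hc⟩
    · exact ⟨0, fun h => absurd h hi⟩
  choose c hc using h4
  let b : ℕ → ℕ → K := fun m => if h : m < 2 ^ N then ez (2 ^ N) (g ⟨m, h⟩) else 0
  have hb : ∀ m (h : m < 2 ^ N), (fun l : Fin (2 ^ N) => b m l) = g ⟨m, h⟩ := by
    intro m h
    funext l
    simp [b, h, ez]
  have hb' : ∀ m (h : m < 2 ^ N) (l : Fin (2 ^ N)), b m l = g ⟨m, h⟩ l := by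
    intro m h l
    rw [← hb m h]
  have hpb : ∀ m (h : m < 2 ^ N) m' (h' : m' < 2 ^ N), pb a N (b m) (b m') =
      bf a N (g ⟨m, h⟩) (g ⟨m', h'⟩) := by
    intro m h m' h'
    rw [← bf_eq, hb m h, hb m' h']
  refine ⟨b, fun j i => if h : j < 2 ^ N ∧ i < k then c ⟨j, h.1⟩ ⟨i, h.2⟩ else 0,
    ?_, ?_, ?_, ?_⟩
  · intro m hm m' hm' hne
    rw [hpb m hm m' hm']
    refine h1 _ _ ?_
    intro h
    exact hne (congrArg Fin.val h)
  · intro m hm
    rw [hpb m hm m hm]
    exact h2 _
  · intro j hj l hl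
    have hj' : j < 2 ^ N := by omega
    have h5 := congrFun (hc ⟨j, hj'⟩ hj) ⟨l, hl⟩
    rw [Finset.sum_apply] at h5
    rw [hb' j hj' ⟨l, hl⟩, ← h5, Finset.sum_range]
    refine Finset.sum_congr rfl fun i _ => ?_
    change c ⟨j, hj'⟩ i * v i l =
      (if h : j < 2 ^ N ∧ (i : ℕ) < k then c ⟨j, h.1⟩ ⟨i, h.2⟩ else 0) * v i l
    rw [dif_pos ⟨hj', i.2⟩]
  · intro l hl l' hl'
    have h5 := complete hA g h1 h2 ⟨l, hl⟩ ⟨l', hl'⟩
    simp only [Fin.mk.injEq] at h5
    rw [← h5, Finset.sum_range]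
    refine Finset.sum_congr rfl fun m _ => ?_
    rw [hpb m m.2 m m.2, hb' m m.2 ⟨l, hl⟩, hb' m m.2 ⟨l', hl'⟩]

end Basis

section Alg

variable {K E : Type} [Field K] [Field E] [Algebra K E]

/-- the elements algebraic over a subalgebra -/
noncomputable def clo (A0 : Subalgebra K E) : IntermediateField K E where
  carrier := {x | IsAlgebraic A0 x}
  mul_mem' := fun ha hb => IsAlgebraic.mul ha hb
  add_mem' := fun ha hb => IsAlgebraic.add ha hb
  algebraMap_mem' := fun r => by
    have h : algebraMap K E r = algebraMap A0 E (algebraMap K A0 r) := rfl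
    change IsAlgebraic A0 (algebraMap K E r)
    rw [h]
    exact isAlgebraic_algebraMap _
  inv_mem' := fun x hx => IsAlgebraic.inv hx

lemma algInd (u : ℕ → E) (r : ℕ) (hr : 1 ≤ r)
    (hgen : IntermediateField.adjoin K (u '' Set.Iio r) = ⊤)
    (hq : u 0 ^ 2 ∈ Algebra.adjoin K (Set.range (fun m : Fin (r - 1) => u (m + 1))))
    (htr : ((r - 1 : ℕ) : Cardinal) ≤ Algebra.trdeg K E) :
    AlgebraicIndependent K (fun m : Fin (r - 1) => u (m + 1)) := by
  set f : Fin (r - 1) → E := fun m => u (m + 1) with hf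
  set A0 := Algebra.adjoin K (Set.range f) with hA0
  have h1 : IntermediateField.adjoin K (u '' Set.Iio r) ≤ clo A0 := by
    rw [IntermediateField.adjoin_le_iff]
    rintro _ ⟨m, hm, rfl⟩
    rw [Set.mem_Iio] at hm
    change IsAlgebraic A0 (u m)
    rcases Nat.eq_zero_or_pos m with rfl | hm0
    · refine IsAlgebraic.of_pow (n := 2) (by norm_num) ?_
      exact isAlgebraic_algebraMap (⟨u 0 ^ 2, hq⟩ : A0)
    · have : u m ∈ A0 := by
        apply Algebra.subset_adjoin
        refine ⟨⟨m - 1, by omega⟩, ?_⟩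
        simp only [hf]
        congr 1
        omega
      exact isAlgebraic_algebraMap (⟨u m, this⟩ : A0)
  have h2 : Algebra.IsAlgebraic A0 E := by
    constructor
    intro x
    have : x ∈ (⊤ : IntermediateField K E) := trivial
    rw [← hgen] at this
    exact h1 this
  obtain ⟨t, ht, htb⟩ := exists_isTranscendenceBasis_subset (R := K) (Set.range f)
  have h3 : Cardinal.mk t = Algebra.trdeg K E := htb.cardinalMk_eq_trdeg
  have hfin : (Set.range f).Finite := Set.finite_range f
  have htfin : t.Finite := hfin.subset ht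
  have h4 : r - 1 ≤ t.ncard := by
    rw [← h3] at htr
    have h5 : Cardinal.mk t = (t.ncard : Cardinal) := by
      rw [Set.cast_ncard htfin]
    rw [h5] at htr
    exact_mod_cast htr
  have h6 : t.ncard ≤ (Set.range f).ncard := Set.ncard_le_ncard ht hfin
  have h7 : (Set.range f).ncard ≤ r - 1 := by
    have := Set.ncard_image_le (s := (Set.univ : Set (Fin (r - 1)))) (f := f) Set.finite_univ
    rw [Set.image_univ, Set.ncard_univ, Nat.card_eq_fintype_card, Fintype.card_fin] at this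
    exact this
  have h8 : t = Set.range f := Set.eq_of_subset_of_ncard_le ht (by omega) hfin
  have hinj : Function.Injective f := by
    have h9 : (f '' Set.univ).ncard = (Set.univ : Set (Fin (r - 1))).ncard := by
      rw [Set.image_univ, Set.ncard_univ, Nat.card_eq_fintype_card, Fintype.card_fin]; omega
    exact Set.injOn_univ.1 (Set.injOn_of_ncard_image_eq h9 Set.finite_univ)
  rw [h8] at htb
  exact (algebraicIndependent_subtype_range hinj).1 htb.1

end Alg

section Coord

variable {K L : Type} [Field K] [Field L]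

/-- linear combination of the basis vectors -/
def lc (φ : K →+* L) (N : ℕ) (b : ℕ → ℕ → K) (x : ℕ → L) : ℕ → L :=
  fun l => ∑ m ∈ range (2 ^ N), x m * φ (b m l)

/-- the coordinates of a vector -/
def co (φ : K →+* L) (a : ℕ → K) (N : ℕ) (b : ℕ → ℕ → K) (Z : ℕ → L) : ℕ → L :=
  fun m => pb (fun j => φ (a j)) N Z (fun l => φ (b m l)) / φ (pb a N (b m) (b m))

lemma pb_lc (φ : K →+* L) {a : ℕ → K} {N : ℕ} {b : ℕ → ℕ → K}
    (h1 : ∀ m < 2 ^ N, ∀ m' < 2 ^ N, m ≠ m' → pb a N (b m) (b m') = 0) (x y : ℕ → L) :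
    pb (fun j => φ (a j)) N (lc φ N b x) (lc φ N b y) =
      ∑ m ∈ range (2 ^ N), φ (pb a N (b m) (b m)) * (x m * y m) := by
  have e1 : pb (fun j => φ (a j)) N (lc φ N b x) (lc φ N b y) =
      ∑ l ∈ range (2 ^ N), ∑ m ∈ range (2 ^ N), ∑ m' ∈ range (2 ^ N),
        x m * y m' * φ (pc a N l * (b m l * b m' l)) := by
    unfold pb lc
    refine sum_congr rfl fun l _ => ?_
    rw [pc_map, sum_mul_sum, mul_sum]
    refine sum_congr rfl fun m _ => ?_
    rw [mul_sum]
    refine sum_congr rfl fun m' _ => ?_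
    rw [map_mul, map_mul]
    ring
  rw [e1, sum_comm]
  refine sum_congr rfl fun m hm => ?_
  rw [sum_comm]
  have e2 : ∀ m' ∈ range (2 ^ N), ∑ l ∈ range (2 ^ N),
      x m * y m' * φ (pc a N l * (b m l * b m' l)) = x m * y m' * φ (pb a N (b m) (b m')) := by
    intro m' _
    rw [← mul_sum, ← map_sum]
    rfl
  rw [sum_congr rfl e2, sum_eq_single m]
  · ring
  · intro m' hm' hne
    rw [mem_range] at hm hm'
    rw [h1 m hm m' hm' (Ne.symm hne), map_zero, mul_zero]
  · intro h; exact absurd hm h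

lemma dq_lc (φ : K →+* L) {a : ℕ → K} {N : ℕ} {b : ℕ → ℕ → K}
    (h1 : ∀ m < 2 ^ N, ∀ m' < 2 ^ N, m ≠ m' → pb a N (b m) (b m') = 0) (x : ℕ → L) :
    dq (fun m => φ (pb a N (b m) (b m))) (2 ^ N) x =
      pq (fun j => φ (a j)) N (lc φ N b x) := by
  rw [pq_eq_pb, pb_lc φ h1]
  unfold dq
  refine sum_congr rfl fun m _ => ?_
  rw [sq]

lemma lc_co (φ : K →+* L) {a : ℕ → K} {N : ℕ} {b : ℕ → ℕ → K}
    (h4 : ∀ l < 2 ^ N, ∀ l' < 2 ^ N,
        ∑ m ∈ range (2 ^ N), pc a N l * b m l * b m l' / pb a N (b m) (b m) =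
          if l = l' then 1 else 0) (Z : ℕ → L) {l' : ℕ} (hl' : l' < 2 ^ N) :
    lc φ N b (co φ a N b Z) l' = Z l' := by
  have e1 : lc φ N b (co φ a N b Z) l' = ∑ m ∈ range (2 ^ N), ∑ l ∈ range (2 ^ N),
      Z l * φ (pc a N l * b m l * b m l' / pb a N (b m) (b m)) := by
    unfold lc co
    refine sum_congr rfl fun m _ => ?_
    unfold pb
    rw [div_mul_eq_mul_div, sum_mul, sum_div]
    refine sum_congr rfl fun l _ => ?_
    rw [pc_map, map_div₀, map_mul, map_mul]
    ring
  rw [e1, sum_comm]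
  have e2 : ∀ l ∈ range (2 ^ N), ∑ m ∈ range (2 ^ N),
      Z l * φ (pc a N l * b m l * b m l' / pb a N (b m) (b m)) =
        if l = l' then Z l else 0 := by
    intro l hl
    rw [mem_range] at hl
    rw [← mul_sum, ← map_sum, h4 l hl l' hl']
    split_ifs
    · rw [map_one, mul_one]
    · rw [map_zero, mul_zero]
  rw [sum_congr rfl e2, sum_ite_eq' , if_pos (mem_range.2 hl')]

lemma pb_sum_left {R : Type} [CommRing R] (a : ℕ → R) (N k : ℕ) (c : ℕ → R) (v : ℕ → ℕ → R)
    (w : ℕ → R) : pb a N (fun l => ∑ i ∈ range k, c i * v i l) w =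
      ∑ i ∈ range k, c i * pb a N (v i) w := by
  unfold pb
  have e : ∀ l ∈ range (2 ^ N), pc a N l * ((∑ i ∈ range k, c i * v i l) * w l) =
      ∑ i ∈ range k, c i * (pc a N l * (v i l * w l)) := by
    intro l _
    rw [sum_mul, mul_sum]
    refine sum_congr rfl fun i _ => ?_
    ring
  rw [sum_congr rfl e, sum_comm]
  refine sum_congr rfl fun i _ => ?_
  rw [mul_sum]

lemma gq_pb {R : Type} [CommRing R] (a : ℕ → R) (N k : ℕ) (c : ℕ → R) (v : ℕ → ℕ → R) :
    gq (fun i j => pb a N (v i) (v j)) k c =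
      pb a N (fun l => ∑ i ∈ range k, c i * v i l) (fun l => ∑ i ∈ range k, c i * v i l) := by
  rw [pb_sum_left]
  unfold gq
  refine sum_congr rfl fun i _ => ?_
  rw [pb_symm, pb_sum_left, mul_sum]
  refine sum_congr rfl fun j _ => ?_
  rw [pb_symm]
  ring

lemma pb_zero_of {R : Type} [CommRing R] (a : ℕ → R) (N : ℕ) {z : ℕ → R} (w : ℕ → R)
    (hz : ∀ m < 2 ^ N, z m = 0) : pb a N z w = 0 := by
  unfold pb
  refine sum_eq_zero fun m hm => ?_
  rw [hz m (mem_range.1 hm)]
  ring

end Coord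

end TOW

open TOW in
theorem tow (hS : S_STEP) : S_TOW := by
  intro K E _ _ _ _ a N k v w h g hA hk hvw hww hgen htr hnA
  by_cases hv : LinearIndependent K (fun i : Fin k => (fun l : Fin (2 ^ N) => v i l))
  swap
  · rw [Fintype.not_linearIndependent_iff] at hv
    obtain ⟨c, hc, i0, hi0⟩ := hv
    refine ⟨fun i => if h : i < k then c ⟨i, h⟩ else 0, 0, Or.inr ⟨i0, i0.2, ?_⟩, ?_⟩
    · change (if h : (i0 : ℕ) < k then c ⟨i0, h⟩ else 0) ≠ 0
      rw [dif_pos i0.2]; exact hi0
    · rw [gq_pb, pb_zero_of]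
      · ring
      · intro m hm
        have h1 := congrFun hc ⟨m, hm⟩
        rw [Finset.sum_apply, Pi.zero_apply] at h1
        rw [← h1, Finset.sum_range]
        refine sum_congr rfl fun i _ => ?_
        rw [dif_pos i.2]
        rfl
  obtain ⟨b, A, h1, h2, h3, h4⟩ := exists_obasis hA v hv
  set φ := algebraMap K E with hφ
  obtain ⟨r, hkr⟩ : ∃ r, k + r = 2 ^ N := ⟨2 ^ N - k, by omega⟩
  have hr : 1 ≤ r := by omega
  set c : ℕ → K := fun m => pb a N (b m) (b m) with hc
  have hck : ∀ j < k, c j ≠ 0 := fun j hj => h2 j (by omega)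
  set x : ℕ → E := co φ a N b w with hx
  set η : ℕ → K := fun j => ∑ i ∈ range k, A j i * h i with hη
  set d : K := g - ∑ j ∈ range k, η j ^ 2 / c j with hd
  -- the coordinates of `w` along the `v i`
  have hxj : ∀ j < k, x j = φ (η j / c j) := by
    intro j hj
    rw [hx]
    unfold co
    rw [map_div₀]
    congr 1
    rw [pb_symm]
    have e1 : pb (fun j => φ (a j)) N (fun l => φ (b j l)) w =
        pb (fun j => φ (a j)) N (fun l => ∑ i ∈ range k, φ (A j i) * φ (v i l)) w := by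
      refine pb_congr _ _ (fun l hl => ?_) (fun _ _ => rfl)
      rw [h3 j hj l hl, map_sum]
      refine sum_congr rfl fun i _ => ?_
      rw [map_mul]
    rw [e1, pb_sum_left (fun j => φ (a j)) N k (fun i => φ (A j i)) (fun i l => φ (v i l)) w, hη,
      map_sum]
    refine sum_congr rfl fun i hi => ?_
    rw [hvw i (mem_range.1 hi), map_mul]
  -- `w` in coordinates
  have hwx : ∀ l < 2 ^ N, lc φ N b x l = w l := fun l hl => lc_co φ h4 w hl
  have hdq : dq (fun m => φ (c m)) (2 ^ N) x = φ g := by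
    rw [hc]
    rw [dq_lc φ h1, ← hww, pq_eq_pb, pq_eq_pb]
    exact pb_congr _ _ hwx hwx
  have h5 : ∑ m ∈ range r, φ (c (k + m)) * x (k + m) ^ 2 = φ d := by
    have e1 : dq (fun m => φ (c m)) (2 ^ N) x = ∑ j ∈ range k, φ (c j) * x j ^ 2 +
        ∑ m ∈ range r, φ (c (k + m)) * x (k + m) ^ 2 := by
      unfold dq
      rw [← hkr, sum_range_add]
    have e2 : ∑ j ∈ range k, φ (c j) * x j ^ 2 = φ (∑ j ∈ range k, η j ^ 2 / c j) := by
      rw [map_sum]
      refine sum_congr rfl fun j hj => ?_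
      rw [mem_range] at hj
      rw [hxj j hj, ← map_pow, ← map_mul]
      congr 1
      have := hck j hj
      field_simp
    rw [hdq, e2] at e1
    rw [hd, map_sub, e1]
    ring
  -- the generators
  have h6 : IntermediateField.adjoin K ((fun m => x (k + m)) '' Set.Iio r) = ⊤ := by
    rw [eq_top_iff, ← hgen, IntermediateField.adjoin_le_iff]
    rintro _ ⟨l, hl, rfl⟩
    rw [Set.mem_Iio] at hl
    rw [← hwx l hl]
    unfold lc
    refine sum_mem fun m hm => ?_
    rw [mem_range] at hm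
    refine mul_mem ?_ (IntermediateField.algebraMap_mem _ _)
    by_cases hmk : m < k
    · rw [hxj m hmk]
      exact IntermediateField.algebraMap_mem _ _
    · apply IntermediateField.subset_adjoin
      exact ⟨m - k, by rw [Set.mem_Iio]; omega, by simp only; congr 1; omega⟩
  have hck' : c k ≠ 0 := h2 k hk
  have h7 : AlgebraicIndependent K (fun m : Fin (r - 1) => (fun m => x (k + m)) (m + 1)) := by
    refine algInd (fun m => x (k + m)) r hr h6 ?_ ?_
    · have e1 : x (k + 0) ^ 2 = φ (c k)⁻¹ * (φ d -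
          ∑ m ∈ range (r - 1), φ (c (k + (m + 1))) * x (k + (m + 1)) ^ 2) := by
        have hr' : r = (r - 1) + 1 := by omega
        rw [hr', sum_range_succ'] at h5
        rw [← h5, add_sub_cancel_left, ← mul_assoc, add_zero, ← map_mul, inv_mul_cancel₀ hck',
          map_one, one_mul]
      rw [e1]
      refine mul_mem (algebraMap_mem _ _) (sub_mem (algebraMap_mem _ _) (sum_mem fun m hm => ?_))
      refine mul_mem (algebraMap_mem _ _) (pow_mem ?_ 2)
      apply Algebra.subset_adjoin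
      exact ⟨⟨m, mem_range.1 hm⟩, rfl⟩
    · have : 2 ^ N - k - 1 = r - 1 := by omega
      rw [← this]
      exact htr
  have h8 : DA c (k + r) := by
    intro z hz m hm
    rw [hkr] at hz hm
    have e1 := dq_lc (RingHom.id K) h1 z
    simp only [RingHom.id_apply] at e1
    rw [hc] at hz
    rw [hz] at e1
    have e2 := hA _ e1.symm
    have e3 := pb_lc (RingHom.id K) h1 z (fun m' => if m' = m then 1 else 0)
    simp only [RingHom.id_apply] at e3
    rw [pb_zero_of a N _ e2] at e3
    simp only [mul_ite, mul_one, mul_zero] at e3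
    rw [sum_ite_eq' , if_pos (mem_range.2 hm)] at e3
    exact (mul_eq_zero.1 e3.symm).resolve_left (h2 m hm)
  have h9 : ∀ (L : Type) [Field L] (ψ : K →+* L) (x y : ℕ → L), ∃ z : ℕ → L,
      dq (fun m => ψ (c m)) (k + r) z =
        dq (fun m => ψ (c m)) (k + r) x * dq (fun m => ψ (c m)) (k + r) y := by
    intro L _ ψ x y
    obtain ⟨Z, hZ⟩ := pq_mul (fun j => ψ (a j)) N (lc ψ N b x) (lc ψ N b y)
    refine ⟨co ψ a N b Z, ?_⟩
    rw [hkr, hc]
    rw [dq_lc ψ h1, dq_lc ψ h1, dq_lc ψ h1, ← hZ, pq_eq_pb, pq_eq_pb]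
    exact pb_congr _ _ (fun l hl => lc_co ψ h4 Z hl) (fun l hl => lc_co ψ h4 Z hl)
  have h10 : ¬ DA (fun m => φ (c m)) (k + r) := by
    intro hcon
    apply hnA
    intro z hz l hl
    have e1 : dq (fun m => φ (c m)) (k + r) (co φ a N b z) = 0 := by
      rw [hkr, hc]
      rw [dq_lc φ h1, ← hz, pq_eq_pb, pq_eq_pb]
      exact pb_congr _ _ (fun l hl => lc_co φ h4 z hl) (fun l hl => lc_co φ h4 z hl)
    have e2 := hcon _ e1
    rw [← lc_co φ h4 z hl]
    unfold lc
    refine sum_eq_zero fun m hm => ?_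
    rw [e2 m (by rw [hkr]; exact mem_range.1 hm), zero_mul]
  obtain ⟨y, hy⟩ := hS K c k r hr h8 h9 E (fun m => x (k + m)) d h5 h7 h6 h10
  set ξ : ℕ → K := fun j => y j - η j / c j with hξ
  refine ⟨fun i => ∑ j ∈ range k, ξ j * A j i, 1, Or.inl one_ne_zero, ?_⟩
  have e1 : gq (fun i j => pb a N (v i) (v j)) k (fun i => ∑ j ∈ range k, ξ j * A j i) =
      ∑ j ∈ range k, c j * ξ j ^ 2 := by
    rw [gq_pb]
    have e2 : ∀ l < 2 ^ N, ∑ i ∈ range k, (∑ j ∈ range k, ξ j * A j i) * v i l =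
        lc (RingHom.id K) N b (fun j => if j < k then ξ j else 0) l := by
      intro l hl
      unfold lc
      rw [← hkr, sum_range_add]
      have e3 : ∑ m ∈ range r, (if k + m < k then ξ (k + m) else 0) *
          (RingHom.id K) (b (k + m) l) = 0 := by
        refine sum_eq_zero fun m _ => ?_
        rw [if_neg (by omega), zero_mul]
      rw [e3, add_zero]
      have e4 : ∀ m ∈ range k, (if m < k then ξ m else 0) * (RingHom.id K) (b m l) =
          ∑ i ∈ range k, ξ m * A m i * v i l := by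
        intro m hm
        rw [mem_range] at hm
        rw [if_pos hm, RingHom.id_apply, h3 m hm l hl, mul_sum]
        refine sum_congr rfl fun i _ => ?_
        ring
      rw [sum_congr rfl e4, sum_comm]
      refine sum_congr rfl fun i _ => ?_
      rw [sum_mul]
    rw [pb_congr a N e2 e2]
    have e5 := pb_lc (RingHom.id K) h1 (fun j => if j < k then ξ j else 0)
      (fun j => if j < k then ξ j else 0)
    simp only [RingHom.id_apply] at e5
    rw [e5, ← hkr, sum_range_add]
    have e6 : ∑ m ∈ range r, pb a N (b (k + m)) (b (k + m)) *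
        ((if k + m < k then ξ (k + m) else 0) * (if k + m < k then ξ (k + m) else 0)) = 0 := by
      refine sum_eq_zero fun m _ => ?_
      rw [if_neg (by omega), zero_mul, mul_zero]
    rw [e6, add_zero]
    refine sum_congr rfl fun m hm => ?_
    rw [if_pos (mem_range.1 hm), sq]
  have e7 : ∑ i ∈ range k, h i * (∑ j ∈ range k, ξ j * A j i) = ∑ j ∈ range k, ξ j * η j := by
    have e8 : ∀ i ∈ range k, h i * (∑ j ∈ range k, ξ j * A j i) =
        ∑ j ∈ range k, ξ j * (A j i * h i) := by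
      intro i _
      rw [mul_sum]
      refine sum_congr rfl fun j _ => ?_
      ring
    rw [sum_congr rfl e8, sum_comm]
    refine sum_congr rfl fun j _ => ?_
    rw [hη, mul_sum]
  rw [e1, e7]
  have e9 : ∑ j ∈ range k, c j * ξ j ^ 2 + 2 * 1 * ∑ j ∈ range k, ξ j * η j =
      dq c k y - ∑ j ∈ range k, η j ^ 2 / c j := by
    unfold dq
    rw [mul_sum, ← sum_add_distrib, ← sum_sub_distrib]
    refine sum_congr rfl fun j hj => ?_
    have := hck j (mem_range.1 hj)
    rw [hξ]
    field_simp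
    ring
  rw [e9, hy, hd]
  ring

end Pool.Agent.H901.Q
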